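import Pool.Agent.Lib.MP_7f581e_A6.SpecD
import Pool.Agent.Lib.MP_7f581e_ntX.Aut

set_option autoImplicit false

namespace MP7A

open Polynomial MP7Sh Equiv

open scoped Classical

private theorem augPick : ∀ i j : Fin 6, ∃ k l : Fin 6, k ≠ i ∧ k ≠ j ∧ l ≠ i ∧ l ≠ j ∧ k ≠ l := by
  decide

/-- The centralizer of `A_6` in `S_6` is trivial. -/
private theorem augCent (u : Perm (Fin 6))
    (h : ∀ s : Perm (Fin 6), s ∈ alternatingGroup (Fin 6) → u * s = s * u) : u = 1 := by
  ext1 i
  rw [Perm.one_apply]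
  by_contra hi
  obtain ⟨k, l, hki, hkj, hli, hlj, hkl⟩ := augPick i (u i)
  have hs : swap i k * swap i l ∈ alternatingGroup (Fin 6) := by
    rw [Perm.mem_alternatingGroup, Perm.sign_mul, Perm.sign_swap hki.symm, Perm.sign_swap hli.symm]
    decide
  have h1 := congrArg (fun w : Perm (Fin 6) => w i) (h _ hs)
  simp only [Perm.mul_apply] at h1
  rw [swap_apply_left, swap_apply_of_ne_of_ne hli hkl.symm,
    swap_apply_of_ne_of_ne hi (fun h => hlj h.symm), swap_apply_of_ne_of_ne hi (fun h => hkj h.symm)] at h1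
  exact hli (u.injective h1)

/-- The sign is invariant under automorphisms. -/
private theorem augSign (α : MulAut (Perm (Fin 6))) (s : Perm (Fin 6)) :
    Perm.sign (α s) = Perm.sign s := by
  have h : (Perm.sign.comp α.toMonoidHom : Perm (Fin 6) →* ℤˣ) = Perm.sign := by
    apply Perm.eq_sign_of_surjective_hom
    intro x
    obtain ⟨t, ht⟩ := Perm.sign_surjective (Fin 6) x
    exact ⟨α.symm t, by simp [ht]⟩
  exact congrArg (fun f : Perm (Fin 6) →* ℤˣ => f s) h

/-- The restriction of the automorphisms of `S_6` to `A_6`. -/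
private noncomputable def augRes : MulAut (Perm (Fin 6)) →* MulAut (alternatingGroup (Fin 6)) where
  toFun α :=
    { toFun := fun s => ⟨α s, by
        rw [Perm.mem_alternatingGroup, augSign]
        exact Perm.mem_alternatingGroup.1 s.2⟩
      invFun := fun s => ⟨α⁻¹ s, by
        rw [Perm.mem_alternatingGroup, augSign]
        exact Perm.mem_alternatingGroup.1 s.2⟩
      left_inv := fun s => Subtype.ext (MulAut.inv_apply_self _ α _)
      right_inv := fun s => Subtype.ext (MulAut.apply_inv_self _ α _)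
      map_mul' := fun s t => Subtype.ext (map_mul α _ _) }
  map_one' := rfl
  map_mul' _ _ := rfl

private theorem augRes_coe (α : MulAut (Perm (Fin 6))) (s : alternatingGroup (Fin 6)) :
    ((augRes α s : alternatingGroup (Fin 6)) : Perm (Fin 6)) = α s := rfl

theorem tAuG : S_AuG := by
  intro Γ _ G φ γ hγ hcos hcent
  have hn : G.Normal := by
    refine ⟨fun g hg x => ?_⟩
    by_contra hy
    have hx : x ∉ G := fun hx => hy (G.mul_mem (G.mul_mem hx hg) (G.inv_mem hx))
    have h1 := (hcos x).resolve_left hx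
    have h2 := (hcos (x * g * x⁻¹)).resolve_left hy
    have h3 := G.mul_mem (G.inv_mem h2) h1
    have h4 : (γ⁻¹ * (x * g * x⁻¹))⁻¹ * (γ⁻¹ * x) = x * g⁻¹ := by group
    rw [h4] at h3
    have h5 := G.mul_mem h3 hg
    rw [inv_mul_cancel_right] at h5
    exact hx h5
  set Ψ : Γ →* MulAut (alternatingGroup (Fin 6)) :=
    augRes.comp ((MulAut.congr φ).toMonoidHom.comp (MulAut.conjNormal (H := G))) with hΨ
  have hΨ1 : ∀ (x : Γ) (s : alternatingGroup (Fin 6)),
      ((φ.symm ((Ψ x s : alternatingGroup (Fin 6)) : Perm (Fin 6)) : G) : Γ) =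
        x * (φ.symm (s : Perm (Fin 6)) : G) * x⁻¹ := by
    intro x s
    have h1 : ((Ψ x s : alternatingGroup (Fin 6)) : Perm (Fin 6)) =
        φ (MulAut.conjNormal x (φ.symm (s : Perm (Fin 6)))) := rfl
    rw [h1, MulEquiv.symm_apply_apply, MulAut.conjNormal_apply]
  -- the value at the elements of `G`
  have hΨ2 : ∀ (σ : Perm (Fin 6)) (s : alternatingGroup (Fin 6)),
      ((Ψ (φ.symm σ : G) s : alternatingGroup (Fin 6)) : Perm (Fin 6)) = σ * s * σ⁻¹ := by
    intro σ s
    apply φ.symm.injective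
    apply Subtype.ext
    rw [hΨ1, map_mul, map_mul, map_inv]
    rfl
  have hinj : Function.Injective Ψ := by
    rw [injective_iff_map_eq_one]
    intro c hc
    have hcA : ∀ s : alternatingGroup (Fin 6), c * (φ.symm (s : Perm (Fin 6)) : G) * c⁻¹ =
        (φ.symm (s : Perm (Fin 6)) : G) := by
      intro s
      rw [← hΨ1 c s, hc]
      rfl
    have hcG : ∀ g ∈ G, c * g = g * c := by
      intro g hg
      have hk : c * g * c⁻¹ * g⁻¹ ∈ G := G.mul_mem (hn.conj_mem g hg c) (G.inv_mem hg)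
      have h1 : φ ⟨c * g * c⁻¹ * g⁻¹, hk⟩ = 1 := by
        apply augCent
        intro s hs
        apply φ.symm.injective
        apply Subtype.ext
        rw [map_mul, map_mul, MulEquiv.symm_apply_apply, Subgroup.coe_mul, Subgroup.coe_mul]
        -- `a' = g⁻¹ a g` is in `A`
        set a : Γ := ((φ.symm s : G) : Γ) with ha
        have h2 : ∃ s' : alternatingGroup (Fin 6), ((φ.symm (s' : Perm (Fin 6)) : G) : Γ) = g⁻¹ * a * g := by
          refine ⟨Ψ g⁻¹ ⟨s, hs⟩, ?_⟩
          rw [hΨ1, inv_inv]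
        obtain ⟨s', hs'⟩ := h2
        have h3 := hcA s'
        rw [hs'] at h3
        have h4 := hcA ⟨s, hs⟩
        change c * a * c⁻¹ = a at h4
        change c * g * c⁻¹ * g⁻¹ * a = a * (c * g * c⁻¹ * g⁻¹)
        calc c * g * c⁻¹ * g⁻¹ * a = c * g * c⁻¹ * (g⁻¹ * a * g) * g⁻¹ := by group
          _ = c * g * c⁻¹ * (c * (g⁻¹ * a * g) * c⁻¹) * g⁻¹ := by rw [h3]
          _ = (c * a * c⁻¹) * (c * g * c⁻¹ * g⁻¹) := by group
          _ = a * (c * g * c⁻¹ * g⁻¹) := by rw [h4]
      have h5 : (⟨c * g * c⁻¹ * g⁻¹, hk⟩ : G) = 1 := by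
        rw [← φ.symm_apply_apply (⟨c * g * c⁻¹ * g⁻¹, hk⟩ : G), h1, map_one]
      have h6 : c * g * c⁻¹ * g⁻¹ = 1 := congrArg Subtype.val h5
      calc c * g = (c * g * c⁻¹ * g⁻¹) * g * c := by group
        _ = g * c := by rw [h6, one_mul]
    have hc0 : c ∈ G := by
      by_contra hc0
      obtain ⟨g, hg, hne⟩ := hcent c hc0
      exact hne (hcG g hg)
    have h7 : φ ⟨c, hc0⟩ = 1 := by
      apply augCent
      intro s _
      apply φ.symm.injective
      apply Subtype.ext
      rw [map_mul, map_mul, MulEquiv.symm_apply_apply, Subgroup.coe_mul, Subgroup.coe_mul]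
      exact hcG _ (φ.symm s).2
    have h8 : (⟨c, hc0⟩ : G) = 1 := by
      rw [← φ.symm_apply_apply (⟨c, hc0⟩ : G), h7, map_one]
    exact congrArg Subtype.val h8
  have hsurj : Function.Surjective Ψ := by
    intro α
    rcases MP7fX.AutAux.aut_cases α with ⟨σ, hσ⟩ | ⟨σ₁, hσ₁⟩
    · refine ⟨(φ.symm σ : G), ?_⟩
      ext1 s
      apply Subtype.ext
      rw [hΨ2, hσ]
    · rcases MP7fX.AutAux.aut_cases (Ψ γ) with ⟨σ, hσ⟩ | ⟨σ₂, hσ₂⟩
      · exfalso
        have h1 : Ψ γ = Ψ (φ.symm σ : G) := by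
          ext1 s
          apply Subtype.ext
          rw [hΨ2, hσ]
        exact hγ (by rw [hinj h1]; exact (φ.symm σ).2)
      · refine ⟨γ * (φ.symm (σ₂⁻¹ * σ₁) : G), ?_⟩
        ext1 s
        apply MP7fX.AutAux.theta.injective
        apply Subtype.ext
        rw [map_mul, MulAut.mul_apply, hσ₂, hΨ2, hσ₁]
        group
  set e : Γ ≃* MulAut (alternatingGroup (Fin 6)) := MulEquiv.ofBijective Ψ ⟨hinj, hsurj⟩ with he
  refine ⟨e.symm, fun s => ?_⟩
  rw [MulEquiv.symm_apply_eq]
  ext1 t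
  apply Subtype.ext
  change _ = ((Ψ (φ.symm (s : Perm (Fin 6)) : G) t : alternatingGroup (Fin 6)) : Perm (Fin 6))
  rw [hΨ2, MulAut.conj_apply]
  rfl

end MP7A
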