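import Pool.Agent.Lib.MP_7f581e_A6.SpecC

/-! A permutation which preserves all the splittings of the six points. -/

set_option autoImplicit false

namespace MP7A

open Polynomial MP7Sh Equiv

open scoped Classical

private theorem ex2 : ∀ l m : Fin 6, ∃ a : Fin 6, a ≠ l ∧ a ≠ m := by decide

private theorem ex3 : ∀ l m a : Fin 6, ∃ b : Fin 6, b ≠ l ∧ b ≠ m ∧ b ≠ a := by decide

theorem tCmb : S_Cmb := by
  intro π h
  by_contra hne
  obtain ⟨l, hl⟩ : ∃ l, π l ≠ l := by
    by_contra hc
    push Not at hc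
    exact hne (Equiv.ext hc)
  have key : ∀ a b, a ≠ l → a ≠ π l → b ≠ l → b ≠ π l → b ≠ a →
      π a ≠ l ∧ π a ≠ a ∧ π a ≠ b := by
    intro a b ha ha' hb hb' hab
    have hc : ({l, a, b} : Finset (Fin 6)).card = 3 := by
      rw [Finset.card_eq_three]
      exact ⟨l, a, b, ha.symm, hb.symm, hab.symm, rfl⟩
    rcases h _ hc with h1 | h1
    · have h2 : π l ∈ ({l, a, b} : Finset (Fin 6)) := by
        rw [← h1]
        exact Finset.mem_map.2 ⟨l, by simp, rfl⟩
      simp only [Finset.mem_insert, Finset.mem_singleton] at h2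
      rcases h2 with h2 | h2 | h2
      · exact absurd h2 hl
      · exact absurd h2.symm ha'
      · exact absurd h2.symm hb'
    · have h2 : π a ∈ ({l, a, b} : Finset (Fin 6))ᶜ := by
        rw [← h1]
        exact Finset.mem_map.2 ⟨a, by simp, rfl⟩
      simp only [Finset.mem_compl, Finset.mem_insert, Finset.mem_singleton, not_or] at h2
      exact h2
  obtain ⟨a, ha, ha'⟩ := ex2 l (π l)
  obtain ⟨b, hb, hb', hab⟩ := ex3 l (π l) a
  have k1 := key a b ha ha' hb hb' hab
  by_cases hm : π a = π l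
  · exact ha (π.injective hm)
  · exact (key a (π a) ha ha' k1.1 hm k1.2.1).2.2 rfl

end MP7A
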