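import Pool.Agent.Lib.MP_7f581e_A6.SpecB

/-!
# MP_7f581e_nt, a GA realization of `A_6` over `𝔽_p(X)`: the sextic
-/

set_option autoImplicit false

namespace MP7A

open Polynomial MP7Sh Equiv

open scoped Classical

/-- The cubic polynomial. -/
private noncomputable def c3 (q : Par) (E : Type) [Field E] : E[X] :=
  X ^ 3 + C (q.e : E) * X ^ 2 + C (q.g : E) * X + C (q.h : E)

private theorem c3_monic (q : Par) (E : Type) [Field E] : (c3 q E).Monic := by
  unfold c3
  monicity!

private theorem c3_natDegree (q : Par) (E : Type) [Field E] : (c3 q E).natDegree = 3 := by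
  unfold c3
  compute_degree!

private theorem nn_eq (q : Par) {E : Type} [Field E] (T : E) :
    NN q T = c3 q E ^ 2 + C (q.s - T) * X := rfl

private theorem lin_le {E : Type} [Field E] (a : E) : (C a * X : E[X]).natDegree ≤ 1 := by
  compute_degree

private theorem sq_natDegree (q : Par) (E : Type) [Field E] :
    (c3 q E ^ 2).natDegree = 6 := by
  rw [(c3_monic q E).natDegree_pow, c3_natDegree]

private theorem lin_lt (q : Par) {E : Type} [Field E] (a : E) :
    (C a * X : E[X]).natDegree < (c3 q E ^ 2).natDegree := by
  rw [sq_natDegree]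
  exact lt_of_le_of_lt (lin_le a) (by norm_num)

private theorem eval_c3 (q : Par) {E : Type} [Field E] (z : E) : (c3 q E).eval z = cc q z := by
  simp [c3, cc]

private theorem eval_d3 (q : Par) {E : Type} [Field E] (z : E) :
    (derivative (c3 q E)).eval z = 3 * z ^ 2 + 2 * q.e * z + q.g := by
  simp only [c3, derivative_add, derivative_mul, derivative_pow, derivative_X, derivative_C,
    eval_add, eval_mul, eval_pow, eval_X, eval_C, eval_zero, eval_one]
  push_cast
  ring

/-- **Der**. -/
theorem tDer : S_Der := by
  intro q E _ hq T z
  have h3 : nn q T z = 0 → z ≠ 0 := by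
    intro h hz
    subst hz
    apply hq.h0
    have h1 : (q.h : E) ^ 2 = 0 := by
      have : nn q T (0 : E) = (q.h : E) ^ 2 := by
        simp [nn, cc]
      rw [← this]
      exact h
    exact pow_eq_zero_iff (two_ne_zero) |>.1 h1
  have h4 : nn q T z = 0 →
      (derivative (NN q T)).eval z * z = cc q z * ((z - q.x) * rr q z) := by
    intro h
    have hd : (derivative (NN q T)).eval z =
        2 * cc q z * (3 * z ^ 2 + 2 * q.e * z + q.g) + (q.s - T) := by
      rw [nn_eq, derivative_add, eval_add, derivative_pow, eval_mul, eval_mul, eval_d3]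
      simp only [eval_pow, eval_c3, derivative_mul, derivative_C, derivative_X, eval_add,
        eval_mul, eval_C, eval_zero, eval_one, eval_X]
      push_cast
      ring
    have hn : (q.s - T) * z = -cc q z ^ 2 := by
      unfold nn at h
      linear_combination h
    have hc : 2 * z * (3 * z ^ 2 + 2 * q.e * z + q.g) - cc q z = (z - q.x) * rr q z := by
      unfold cc rr
      linear_combination hq.d0
    rw [hd, ← hc]
    linear_combination hn
  have h5 : rr q z = 0 → cc q z ^ 2 + q.s * z = 0 := by
    intro h
    rcases hq.ff with ⟨h50, h3e⟩ | ⟨h50, hf⟩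
    · exfalso
      apply hq.h0
      rw [← hq.d0]
      unfold rr at h
      have e1 : (q.g + (3 * q.e + 5 * q.x) * q.x : E) = 0 := by
        linear_combination h - z ^ 2 * h50 - z * h3e - z * q.x * h50
      rw [e1, mul_zero]
    · have h1 := hf z
      rw [h] at h1
      have h2 : (25 : E) ≠ 0 := by
        have : (25 : E) = 5 * 5 := by norm_num
        rw [this]
        exact mul_ne_zero h50 h50
      have h3 : 25 * (cc q z ^ 2 + q.s * z) = 0 := by
        rw [h1]
        ring
      exact (mul_eq_zero.1 h3).resolve_left h2
  refine ⟨⟨?_, ?_⟩, ?_, h3, h4, h5, ?_⟩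
  · rw [nn_eq]
    apply ((c3_monic q E).pow 2).add_of_left
    exact degree_lt_degree (lin_lt q _)
  · rw [nn_eq, natDegree_add_eq_left_of_natDegree_lt (lin_lt q _), sq_natDegree]
  · rw [nn_eq, eval_add, eval_pow, eval_c3, eval_mul, eval_C, eval_X]
    rfl
  · intro hn hd
    have hz := h3 hn
    have h := h4 hn
    rw [hd, zero_mul] at h
    rcases mul_eq_zero.1 h.symm with h0 | h0
    · left
      unfold nn at hn
      rw [h0] at hn
      have : (q.s - T) * z = 0 := by linear_combination hn
      exact (sub_eq_zero.1 ((mul_eq_zero.1 this).resolve_right hz)).symm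
    · right
      rcases mul_eq_zero.1 h0 with h1 | h1
      · left
        have hzx : z = q.x := sub_eq_zero.1 h1
        subst hzx
        unfold nn at hn
        rw [hq.c0] at hn
        have : (-q.s - T) * (q.x : E) = 0 := by linear_combination hn
        have h2 := (mul_eq_zero.1 this).resolve_right hz
        linear_combination -h2
      · right
        have h2 := h5 h1
        unfold nn at hn
        have : T * z = 0 := by linear_combination h2 - hn
        exact (mul_eq_zero.1 this).resolve_right hz

end MP7A
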