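import Pool.Agent.Lib.MP_7f581e_A6.SpecD

/-!
# MP_7f581e_nt, a GA realization of `A_6`: the sign element (`S_Dsc`)
-/

set_option autoImplicit false

namespace MP7A

open Polynomial MP7Sh Equiv

open scoped Classical

/-- The product of the differences is multiplied by the sign. -/
private theorem dsc_sgn {L : Type} [Field L] (x : Fin 6 → L) (σ : L ≃+* L) (π : Perm (Fin 6))
    (h : ∀ i, σ (x i) = x (π i)) :
    σ (∏ i : Fin 6, ∏ j ∈ Finset.Ioi i, (x j - x i)) =
      if Perm.sign π = 1 then ∏ i : Fin 6, ∏ j ∈ Finset.Ioi i, (x j - x i)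
      else -∏ i : Fin 6, ∏ j ∈ Finset.Ioi i, (x j - x i) := by
  have h1 : σ (∏ i : Fin 6, ∏ j ∈ Finset.Ioi i, (x j - x i)) =
      ∏ i : Fin 6, ∏ j ∈ Finset.Ioi i, ((x ∘ π) j - (x ∘ π) i) := by
    simp only [map_prod, map_sub, h, Function.comp_apply]
  have h2 : Matrix.vandermonde (x ∘ π) = (Matrix.vandermonde x).submatrix π id := by
    ext i j
    simp [Matrix.vandermonde_apply]
  rw [h1, ← Matrix.det_vandermonde, ← Matrix.det_vandermonde, h2, Matrix.det_permute]
  rcases Int.units_eq_one_or (Perm.sign π) with h3 | h3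
  · simp [h3]
  · have h4 : ¬ ((-1 : ℤˣ) = 1) := by decide
    simp [h3, h4]

/-- An integer is not equal to a transcendental element. -/
private theorem dsc_tra {p : ℕ} [Fact p.Prime] {L : Type} [Field L] [Algebra (ZMod p) L] {T : L}
    (hT : Transcendental (ZMod p) T) (n : ℤ) : T ≠ n := by
  rintro h
  apply hT
  have h1 : (algebraMap (ZMod p) L) (n : ZMod p) = T := by rw [map_intCast, h]
  rw [← h1]
  exact isAlgebraic_algebraMap _

theorem tDsc (h1 : S_Prj) : S_Dsc := by
  intro p _ q L _ _ T x ok six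
  have hp := h1 q L ok T x six.toRts
  have hT0 : T ≠ 0 := by
    have := dsc_tra six.tra 0
    simpa using this
  have hTs : T - q.s ≠ 0 := by
    have := dsc_tra six.tra q.s
    exact sub_ne_zero.mpr this
  have hV : (∏ i : Fin 6, ∏ j ∈ Finset.Ioi i, (x j - x i)) ≠ 0 := by
    rw [← Matrix.det_vandermonde]
    exact Matrix.det_vandermonde_ne_zero_iff.mpr six.inj
  have hsg := fun σ π h => dsc_sgn x σ π h
  generalize (∏ i : Fin 6, ∏ j ∈ Finset.Ioi i, (x j - x i)) = V at hp hV hsg
  by_cases h5 : (5 : L) = 0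
  · rw [if_pos h5] at hp
    have hg : (q.g : L) ≠ 0 := by
      intro hg
      have h6 : (3 : L) * q.e = 0 := by
        rcases ok.ff with h | h
        · exact h.2
        · exact absurd h5 h.1
      have h7 := ok.d0
      rw [hg, h6, h5] at h7
      apply ok.h0
      rw [← h7]
      ring
    have hg' : (q.g : ZMod p) ≠ 0 := by
      intro h
      apply hg
      rw [← map_intCast (algebraMap (ZMod p) L), h, map_zero]
    refine ⟨V / (T - q.s), (q.g : ZMod p) ^ 5, pow_ne_zero _ hg', div_ne_zero hV hTs, ?_, ?_⟩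
    · rw [div_pow, hp, map_pow, map_intCast]
      field_simp
    · intro σ π hσ hπ
      rw [map_div₀, map_sub, hσ, map_intCast, hsg σ π hπ]
      split_ifs
      · rfl
      · rw [neg_div]
  · rw [if_neg h5] at hp
    have h5' : (5 : ZMod p) ≠ 0 := by
      intro h
      apply h5
      have h9 := congrArg (algebraMap (ZMod p) L) h
      rwa [map_ofNat, map_zero] at h9
    refine ⟨V / ((T - q.s) * T), (5 : ZMod p) ^ 5, pow_ne_zero _ h5',
      div_ne_zero hV (mul_ne_zero hTs hT0), ?_, ?_⟩
    · have h8 : algebraMap (ZMod p) L (5 ^ 5) = 5 ^ 5 := by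
        rw [map_pow, map_ofNat]
      rw [div_pow, hp, h8]
      field_simp
    · intro σ π hσ hπ
      rw [map_div₀, map_mul, map_sub, hσ, map_intCast, hsg σ π hπ]
      split_ifs
      · rfl
      · rw [neg_div]

end MP7A
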