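import Pool.Agent.Lib.MP_7f581e_A6.SpecC

/-!
# MP_7f581e_nt, a GA realization of `A_6` over `𝔽_p(X)`: the Galois extension `κ(T, x 0, .., x 5)` of `κ(T)`
-/

set_option autoImplicit false

namespace MP7A

open Polynomial MP7Sh Equiv

open scoped Classical

/-- The splitting field of a separable polynomial over `K`, inside `Ω`. -/
private theorem Ffi_aux {κ Ω : Type} [Field κ] [Field Ω] [Algebra κ Ω] (hac : IsAlgClosed Ω)
    (K : IntermediateField κ Ω) (hKalg : ∀ z : Ω, IsAlgebraic K z) (P : K[X]) (hP : P.Separable) :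
    ∃ F : IntermediateField κ Ω, P.rootSet Ω ⊆ (F : Set Ω) ∧ K ≤ F ∧
      (∀ σ : F ≃ₐ[κ] F, (∀ k : F, (k : Ω) ∈ K → σ k = k) →
        ∃ τ : Ω ≃ₐ[κ] Ω, ∀ z : F, τ z = (σ z : Ω)) ∧
      {σ : F ≃ₐ[κ] F | ∀ k : F, (k : Ω) ∈ K → σ k = k}.Finite ∧
      ∀ y : F, (∀ σ : F ≃ₐ[κ] F, (∀ k : F, (k : Ω) ∈ K → σ k = k) → σ y = y) →
        (y : Ω) ∈ K := by
  have halg : Algebra.IsAlgebraic K Ω := ⟨hKalg⟩
  have hcl : IsAlgClosure K Ω := ⟨hac, halg⟩
  have hnorK : Normal K Ω := IsAlgClosure.normal K Ω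
  obtain ⟨F0, hF0⟩ : ∃ F0, F0 = IntermediateField.adjoin K (P.rootSet Ω) := ⟨_, rfl⟩
  have hspl : P.IsSplittingField K F0 := by
    rw [hF0]
    exact IntermediateField.adjoin_rootSet_isSplittingField (IsAlgClosed.splits _)
  have hgal : IsGalois K F0 := IsGalois.of_separable_splitting_field (p := P) hP
  have hfd : FiniteDimensional K F0 := IsSplittingField.finiteDimensional F0 P
  have hnor : Normal K F0 := inferInstance
  have hext : ∀ σ : F0.restrictScalars κ ≃ₐ[κ] F0.restrictScalars κ,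
      (∀ k : F0.restrictScalars κ, (k : Ω) ∈ K → σ k = k) →
      ∃ σ' : F0 ≃ₐ[K] F0, ∀ y : F0, (σ' y : Ω) =
        (σ (⟨y, y.2⟩ : F0.restrictScalars κ) : Ω) := by
    intro σ hσ
    exact ⟨{ toFun := fun y => (⟨(σ ⟨y, y.2⟩ : F0.restrictScalars κ),
                (σ ⟨y, y.2⟩ : F0.restrictScalars κ).2⟩ : F0)
             invFun := fun y => (⟨(σ.symm ⟨y, y.2⟩ : F0.restrictScalars κ),
                (σ.symm ⟨y, y.2⟩ : F0.restrictScalars κ).2⟩ : F0)
             left_inv := fun y => Subtype.ext (congrArg Subtype.val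
                (σ.symm_apply_apply (⟨y, y.2⟩ : F0.restrictScalars κ)))
             right_inv := fun y => Subtype.ext (congrArg Subtype.val
                (σ.apply_symm_apply (⟨y, y.2⟩ : F0.restrictScalars κ)))
             map_mul' := fun y z => Subtype.ext (congrArg Subtype.val
                (map_mul σ (⟨y, y.2⟩ : F0.restrictScalars κ) ⟨z, z.2⟩))
             map_add' := fun y z => Subtype.ext (congrArg Subtype.val
                (map_add σ (⟨y, y.2⟩ : F0.restrictScalars κ) ⟨z, z.2⟩))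
             commutes' := fun k => Subtype.ext (congrArg Subtype.val
                (hσ ⟨(k : Ω), (algebraMap K F0 k).2⟩ k.2)) },
      fun y => rfl⟩
  have hdn : ∀ f : F0 ≃ₐ[K] F0, ∃ σ : F0.restrictScalars κ ≃ₐ[κ] F0.restrictScalars κ,
      (∀ k : F0.restrictScalars κ, (k : Ω) ∈ K → σ k = k) ∧
      ∀ y : F0, (f y : Ω) = (σ (⟨y, y.2⟩ : F0.restrictScalars κ) : Ω) := by
    intro f
    refine ⟨{ toFun := fun y => (⟨(f ⟨y, y.2⟩ : F0), (f ⟨y, y.2⟩ : F0).2⟩ :
                F0.restrictScalars κ)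
              invFun := fun y => (⟨(f.symm ⟨y, y.2⟩ : F0), (f.symm ⟨y, y.2⟩ : F0).2⟩ :
                F0.restrictScalars κ)
              left_inv := fun y => Subtype.ext (congrArg Subtype.val
                (f.symm_apply_apply (⟨y, y.2⟩ : F0)))
              right_inv := fun y => Subtype.ext (congrArg Subtype.val
                (f.apply_symm_apply (⟨y, y.2⟩ : F0)))
              map_mul' := fun y z => Subtype.ext (congrArg Subtype.val
                (map_mul f (⟨y, y.2⟩ : F0) ⟨z, z.2⟩))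
              map_add' := fun y z => Subtype.ext (congrArg Subtype.val
                (map_add f (⟨y, y.2⟩ : F0) ⟨z, z.2⟩))
              commutes' := fun c => Subtype.ext (congrArg Subtype.val
                (f.commutes (algebraMap κ K c))) }, ?_, fun y => rfl⟩
    intro k hk
    exact Subtype.ext (congrArg Subtype.val (f.commutes ⟨(k : Ω), hk⟩))
  have hle : K ≤ F0.restrictScalars κ := fun k hk => (algebraMap K F0 ⟨k, hk⟩).2
  refine ⟨F0.restrictScalars κ, ?_, hle, ?_, ?_, ?_⟩
  · intro z hz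
    change z ∈ F0
    rw [hF0]
    exact IntermediateField.subset_adjoin K _ hz
  · intro σ hσ
    obtain ⟨σ', hσ'⟩ := hext σ hσ
    refine ⟨(σ'.liftNormal Ω).restrictScalars κ, fun y => ?_⟩
    have h1 := σ'.liftNormal_commutes Ω (⟨y, y.2⟩ : F0)
    have h2 := hσ' ⟨y, y.2⟩
    exact h1.trans h2
  · choose! e he using hext
    refine Set.Finite.of_finite_image (f := e) (Set.toFinite _) ?_
    intro σ hσ σ' hσ' hee
    apply AlgEquiv.ext
    intro y
    apply Subtype.ext
    have h1 := he σ hσ ⟨y, y.2⟩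
    have h2 := he σ' hσ' ⟨y, y.2⟩
    rw [hee] at h1
    exact h1.symm.trans h2
  · intro y hy
    have h1 : (⟨y, y.2⟩ : F0) ∈ Set.range (algebraMap K F0) := by
      rw [IsGalois.mem_range_algebraMap_iff_fixed]
      intro f
      obtain ⟨σ, hσ, hf⟩ := hdn f
      refine Subtype.ext ?_
      have h2 := hf ⟨y, y.2⟩
      rw [h2]
      exact congrArg Subtype.val (hy σ hσ)
    obtain ⟨k, hk⟩ := h1
    have h2 : (k : Ω) = y := congrArg Subtype.val hk
    rw [← h2]
    exact k.2

private theorem Ffi_map {A B : Type} [Field A] [Field B] (q : Par) (f : A →+* B) (T : A) :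
    (NN q T).map f = NN q (f T) := by
  rw [NN, NN, Polynomial.map_add, Polynomial.map_mul, Polynomial.map_pow, Polynomial.map_add,
    Polynomial.map_add, Polynomial.map_add, Polynomial.map_mul, Polynomial.map_mul,
    Polynomial.map_pow, Polynomial.map_pow, Polynomial.map_X, Polynomial.map_C, Polynomial.map_C,
    Polynomial.map_C, Polynomial.map_C, map_sub f, map_intCast f, map_intCast f, map_intCast f,
    map_intCast f]

theorem tFfi : S_Ffi := by
  intro p q κ Ω _ _ _ T y x hA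
  obtain ⟨K, hK⟩ : ∃ K, K = IntermediateField.adjoin κ {T} := ⟨_, rfl⟩
  have hTK : T ∈ K := by
    rw [hK]
    exact IntermediateField.mem_adjoin_simple_self κ T
  have halg : ∀ z : Ω, IsAlgebraic K z := by
    rw [hK]
    exact hA.alg
  obtain ⟨TK, hTK'⟩ : ∃ TK : K, (TK : Ω) = T := ⟨⟨T, hTK⟩, rfl⟩
  have hmap : (NN q TK).map (algebraMap K Ω) = NN q T := by
    rw [Ffi_map, ← hTK']
    rfl
  have hsep : (NN q TK).Separable := by
    rw [← Polynomial.separable_map (algebraMap K Ω), hmap, hA.rts.eq]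
    exact Polynomial.separable_prod_X_sub_C_iff.2 hA.rts.inj
  obtain ⟨F, h1, h2, h3, h4, h5⟩ := Ffi_aux hA.oac K halg (NN q TK) hsep
  have hne : NN q TK ≠ 0 := hsep.ne_zero
  have hx : ∀ i, x i ∈ F := by
    intro i
    refine h1 ?_
    rw [Polynomial.mem_rootSet]
    refine ⟨hne, ?_⟩
    rw [Polynomial.aeval_def, Polynomial.eval₂_eq_eval_map, hmap, hA.rts.eq,
      Polynomial.eval_prod]
    refine Finset.prod_eq_zero (Finset.mem_univ i) ?_
    rw [eval_sub, eval_X, eval_C, sub_self]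
  have hTF : T ∈ F := h2 hTK
  -- automorphisms of `F` which fix `T` fix `K`
  have hfix : ∀ σ : F ≃ₐ[κ] F, σ ⟨T, hTF⟩ = ⟨T, hTF⟩ → ∀ k : F, (k : Ω) ∈ K → σ k = k := by
    intro σ hσ k hk
    rw [hK] at hk
    have e1 : IntermediateField.adjoin κ {T} =
        (IntermediateField.adjoin κ {(⟨T, hTF⟩ : F)}).map F.val := by
      rw [IntermediateField.adjoin_map, Set.image_singleton]
      rfl
    rw [e1, IntermediateField.mem_map] at hk
    obtain ⟨y', hy', he⟩ := hk
    have e2 : y' = k := Subtype.ext he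
    rw [e2] at hy'
    obtain ⟨f, g, rfl⟩ := (IntermediateField.mem_adjoin_simple_iff κ k).1 hy'
    rw [map_div₀, ← aeval_algHom_apply, ← aeval_algHom_apply, hσ]
  refine ⟨F, ⟨T, hTF⟩, fun i => ⟨x i, hx i⟩, rfl, fun i => rfl, ⟨?_, ?_, ?_⟩, ⟨?_, ?_⟩, ?_⟩
  · intro h
    exact hA.ttr (h.algebraMap (A := Ω))
  · refine Set.Finite.to_subtype (s := {σ : F ≃ₐ[κ] F | σ ⟨T, hTF⟩ = ⟨T, hTF⟩}) ?_
    exact h4.subset fun σ hσ => hfix σ hσ
  · intro z hz
    have e3 : (z : Ω) ∈ K := by
      refine h5 z fun σ hσ => hz σ ?_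
      exact hσ ⟨T, hTF⟩ hTK
    rw [hK] at e3
    have e1 : IntermediateField.adjoin κ {T} =
        (IntermediateField.adjoin κ {(⟨T, hTF⟩ : F)}).map F.val := by
      rw [IntermediateField.adjoin_map, Set.image_singleton]
      rfl
    rw [e1, IntermediateField.mem_map] at e3
    obtain ⟨y', hy', he⟩ := e3
    have e2 : y' = z := Subtype.ext he
    rwa [e2] at hy'
  · refine Polynomial.map_injective (algebraMap F Ω) (algebraMap F Ω).injective ?_
    rw [Ffi_map, Polynomial.map_prod]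
    simp only [Polynomial.map_sub, Polynomial.map_X, Polynomial.map_C]
    exact hA.rts.eq
  · intro i j hij
    exact hA.rts.inj (congrArg Subtype.val hij)
  · intro σ hσ
    exact h3 σ (hfix σ hσ)

end MP7A
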