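import Pool.Agent.Lib.MP_7f581e_A6.SpecD

/-!
# MP_7f581e_nt, a GA realization of `A_6` over `𝔽_p(X)`: the theorem
-/

set_option autoImplicit false

namespace MP7A

open Polynomial MP7Sh Equiv

open scoped Classical

/-- A GA realization of `A_6` over `𝔽_p(X)`. -/
theorem tFinA (h1 : S_Omb) (h2 : S_Lsx) (h3 : S_Fna) (h4 : S_Okp) : S_FinA := by
  intro p _ h5
  obtain ⟨κ, Ω, _, _, _, T, y, x, hA⟩ := h1 p (par p) (h4 p h5)
  obtain ⟨L, _, _, T', x', hOk, hS, hSt, hγ⟩ := h2 p (par p) κ Ω T y x hA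
  exact h3 p (par p) L T' x' hOk hS hSt hγ

end MP7A
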