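import Pool.Agent.Lib.MP_7f581e_A6.SpecB
import Pool.Agent.Lib.MP_7f581e_Sh.Plx
import Pool.Agent.Lib.MP_7f581e_Sh.Plq
import Pool.Agent.Lib.MP_7f581e_Sh.Pla
import Pool.Agent.Lib.MP_7f581e_Sh.Val

/-!
# MP_7f581e_nt: an element of order five in the Galois group of the sextic
-/

set_option autoImplicit false

namespace MP7A

open Polynomial MP7Sh Equiv

open scoped Classical

/-- An element of order five. -/
theorem tFiv (h1 : S_Der) (h2 : S_Rho) : S_Fiv := by
  intro q κ F _ _ _ _ T x hOk hG hR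
  obtain ⟨v, hP⟩ := (tPlx tPla κ F T hG).2
  have hv : Ord v := hP.ord
  have hT0 : T ≠ 0 := by
    rintro rfl
    exact hP.ne inv_zero
  have hvT : v T⁻¹ = -v T := hv.inv hT0
  have hpos : 0 < v T⁻¹ := hP.pos
  have hT : Is v (v T) T := Is.of_ne hT0
  have hint : ∀ n : ℤ, Ge v 0 (n : F) := fun n => Ge.intCast hv n
  -- the roots
  have hroot : ∀ i, nn q T (x i) = 0 := by
    intro i
    rw [← (h1 q F hOk T (x i)).2.1, hR.eq, eval_prod]
    exact Finset.prod_eq_zero (Finset.mem_univ i) (by simp)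
  -- a root which is not integral
  obtain ⟨i, hi⟩ : ∃ i, ¬ Ge v 0 (x i) := by
    by_contra hc
    push Not at hc
    have e1 : Ge v 0 (nn q T 1) := by
      rw [← (h1 q F hOk T 1).2.1, hR.eq, eval_prod, ← hv.mem_ring]
      refine Subring.prod_mem _ fun i _ => ?_
      rw [eval_sub, eval_X, eval_C, hv.mem_ring]
      exact Ge.sub hv (Ge.one hv) (hc i)
    have e2 : Ge v 0 (cc q (1 : F)) := by
      rw [cc, one_pow, one_pow, mul_one, mul_one]
      exact Ge.add hv (Ge.add hv (Ge.add hv (Ge.one hv) (hint _)) (hint _)) (hint _)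
    have e3 : T = cc q (1 : F) ^ 2 + q.s - nn q T 1 := by
      rw [nn]
      ring
    have e4 : Ge v 0 T := by
      rw [e3]
      exact Ge.sub hv (Ge.add hv (Ge.pow0 hv e2 2) (hint _)) e1
    exact hT.not_ge (by omega) e4
  have hz0 : x i ≠ 0 := fun h => hi (Or.inl h)
  have hz1 : v (x i) < 0 := by
    by_contra h
    exact hi (Or.inr (by omega))
  have hz : Is v (v (x i)) (x i) := Is.of_ne hz0
  have hc : Is v (3 * v (x i)) (cc q (x i)) := by
    have e1 : Is v (3 * v (x i)) (x i ^ 3) := by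
      have := Is.pow hv hz 3
      exact_mod_cast this
    have e2 : Ge v (2 * v (x i)) (q.e * x i ^ 2 + q.g * x i + q.h) := by
      have f1 : Ge v (2 * v (x i)) (x i ^ 2) := by
        have := (Is.pow hv hz 2).ge
        exact_mod_cast this
      refine Ge.add hv (Ge.add hv (Ge.mul_left hv (hint _) f1) (Ge.mul_left hv (hint _)
        (hz.ge.mono (by omega)))) ((hint _).mono (by omega))
    have e3 : cc q (x i) = x i ^ 3 + (q.e * x i ^ 2 + q.g * x i + q.h) := by
      rw [cc]
      ring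
    rw [e3]
    exact Is.add_ge hv e1 e2 (by omega)
  have hTs : Is v (v T) (T - q.s) := Is.sub_ge hv hT (hint _) (by omega)
  have heq : cc q (x i) ^ 2 = (T - q.s) * x i := by
    have := hroot i
    rw [nn] at this
    linear_combination this
  have h6 : 2 * (3 * v (x i)) = v T + v (x i) := by
    have e1 := (Is.pow hv hc 2).2
    have e2 := (Is.mul hv hTs hz).2
    rw [heq, e2] at e1
    exact_mod_cast e1.symm
  obtain ⟨ρ, hρ⟩ := h2 q κ F T x hOk hR
  obtain ⟨σ, -, hσ⟩ := tPlq κ F T T⁻¹ v hP (Perm (Fin 6)) ρ (x i) 5 (-1) (by norm_num) hz0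
    (fun σ hσ => by rw [hρ, hσ]; rfl) (by rw [hvT]; push_cast; linarith) (by decide)
  exact ⟨σ, ρ σ, MulAction.mem_stabilizer_iff.1 σ.2, fun j => hρ σ j, hσ⟩

end MP7A
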