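import Pool.Agent.Lib.MP_7f581e_A6.SpecD

/-! The GA realization of `A_6` from the field `L`. -/

set_option autoImplicit false

namespace MP7A

open Polynomial MP7Sh Equiv

open scoped Classical

/-- The automorphisms with `σ T = T` or `σ T = - T`. -/
private def FnaG {L : Type} [Field L] (T : L) : Subgroup (L ≃+* L) where
  carrier := {σ | σ T = T ∨ σ T = -T}
  mul_mem' := by
    rintro a b ha hb
    change a (b T) = T ∨ a (b T) = -T
    rcases hb with hb | hb <;> rcases ha with ha | ha <;> rw [hb]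
    · exact Or.inl ha
    · exact Or.inr ha
    · right
      rw [map_neg, ha]
    · left
      rw [map_neg, ha, neg_neg]
  one_mem' := Or.inl rfl
  inv_mem' := by
    rintro a ha
    change a.symm T = T ∨ a.symm T = -T
    rcases ha with ha | ha
    · left
      rw [RingEquiv.symm_apply_eq, ha]
    · right
      rw [RingEquiv.symm_apply_eq, map_neg, ha, neg_neg]

theorem tFna (h1 : S_Fxe) (h2 : S_Cen) (h3 : S_AuG) (h4 : S_Gls) : S_Fna := by
  intro p _ q L _ _ T x hok hsix hsta hγ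
  obtain ⟨γ, hγ⟩ := hγ
  obtain ⟨j, hj⟩ := h1 p q L T x hok hsix
  obtain ⟨φ, hφ⟩ := h4 p q L T x hok hsix
  have hinj : Function.Injective x := hsix.inj
  have hT0 : T ≠ 0 := by
    intro h
    have ht := hsix.tra
    rw [h] at ht
    exact ht isAlgebraic_zero
  have hTT : T ≠ -T := by
    intro h
    have h5 : (2 : L) * T = 0 := by linear_combination h
    rcases mul_eq_zero.1 h5 with h6 | h6
    · exact hok.two h6
    · exact hT0 h6
  let Γ : Subgroup (L ≃+* L) := FnaG T
  have hmem : ∀ σ : L ≃+* L, σ ∈ Γ ↔ (σ T = T ∨ σ T = -T) := fun σ => Iff.rfl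
  have hst : ∀ σ : L ≃+* L, σ ∈ MulAction.stabilizer (L ≃+* L) T ↔ σ T = T := fun σ => Iff.rfl
  have hle : MulAction.stabilizer (L ≃+* L) T ≤ Γ := fun σ hσ => Or.inl hσ
  let G : Subgroup Γ := (MulAction.stabilizer (L ≃+* L) T).subgroupOf Γ
  have hG : ∀ σ : Γ, σ ∈ G ↔ (σ : L ≃+* L) T = T := fun σ => Iff.rfl
  let ψ : G ≃* Perm (Fin 6) := (Subgroup.subgroupOfEquivOfLe hle).trans φ
  have hψ : ∀ (g : G) (i : Fin 6), ((g : Γ) : L ≃+* L) (x i) = x (ψ g i) := by
    intro g i
    exact hφ (Subgroup.subgroupOfEquivOfLe hle g) i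
  have hsm : ∀ c : Γ, c ∉ G → (c : L ≃+* L) T = -T := by
    intro c hc
    rcases (hmem c.1).1 c.2 with h | h
    · exact absurd ((hG c).2 h) hc
    · exact h
  let γ' : Γ := ⟨γ, Or.inr hγ⟩
  obtain ⟨Θ, hΘ⟩ := h3 Γ G ψ γ' (by
      intro h
      have h5 : γ T = T := (hG γ').1 h
      rw [hγ] at h5
      exact hTT h5.symm) (by
      intro c
      by_cases hc : c ∈ G
      · exact Or.inl hc
      · right
        rw [hG]
        have h5 := hsm c hc
        change γ.symm ((c : L ≃+* L) T) = T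
        rw [h5, RingEquiv.symm_apply_eq, hγ]) (by
      intro c hc
      obtain ⟨σ, hσ, z, hz⟩ := h2 p q L T x hok hsix hsta (c : L ≃+* L) (hsm c hc)
      refine ⟨⟨σ, Or.inl hσ⟩, (hG _).2 hσ, ?_⟩
      intro h
      apply hz
      have h5 := congrArg Subtype.val h
      exact DFunLike.congr_fun h5 z)
  have hnc : ∃ a b : alternatingGroup (Fin 6), a * b ≠ b * a := by
    refine ⟨⟨swap 0 1 * swap 1 2, ?_⟩, ⟨swap 0 1 * swap 1 3, ?_⟩, ?_⟩
    · rw [Equiv.Perm.mem_alternatingGroup]
      decide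
    · rw [Equiv.Perm.mem_alternatingGroup]
      decide
    · intro h
      have h5 : (swap 0 1 * swap 1 2 : Perm (Fin 6)) * (swap 0 1 * swap 1 3) =
          (swap 0 1 * swap 1 3) * (swap 0 1 * swap 1 2) := congrArg Subtype.val h
      revert h5
      decide
  refine ⟨inferInstance, alternatingGroup.isSimpleGroup (by simp), hnc, ?_⟩
  refine ⟨L, inferInstance, j.toAlgebra, Γ.subtype.comp Θ.toMonoidHom, ?_, ?_⟩
  · exact (Subtype.val_injective).comp Θ.injective
  · intro y
    have hval : ∀ s : alternatingGroup (Fin 6), (Γ.subtype.comp Θ.toMonoidHom) (MulAut.conj s) =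
        (((ψ.symm (s : Perm (Fin 6)) : G) : Γ) : L ≃+* L) := by
      intro s
      change ((Θ (MulAut.conj s) : Γ) : L ≃+* L) = _
      rw [hΘ s]
    change _ ↔ ∃ w, j w = y
    rw [← hj y]
    constructor
    · intro hy σ π hσ hπ hs
      have h5 := hy ⟨π, Equiv.Perm.mem_alternatingGroup.2 hs⟩
      rw [hval] at h5
      have h6 : ψ.symm π = (⟨⟨σ, Or.inl hσ⟩, (hG _).2 hσ⟩ : G) := by
        rw [MulEquiv.symm_apply_eq]
        ext i
        have h7 := hψ (⟨⟨σ, Or.inl hσ⟩, (hG _).2 hσ⟩ : G) i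
        have h8 : x (π i) = x (ψ (⟨⟨σ, Or.inl hσ⟩, (hG _).2 hσ⟩ : G) i) := by
          rw [← h7, ← hπ i]
        rw [hinj h8]
      have h9 : (((ψ.symm π : G) : Γ) : L ≃+* L) y = y := h5
      rw [h6] at h9
      exact h9
    · intro hy s
      rw [hval]
      refine hy _ (s : Perm (Fin 6)) ((hG _).1 (ψ.symm (s : Perm (Fin 6))).2) ?_
        (Equiv.Perm.mem_alternatingGroup.1 s.2)
      intro i
      rw [hψ, MulEquiv.apply_symm_apply]

end MP7A
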