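import Pool.Agent.Lib.MP_7f581e_A6.SpecB

/-!
# Module Ful: the Galois group is `S_6`
-/

set_option autoImplicit false

namespace MP7A

open Polynomial MP7Sh Equiv

open scoped Classical

theorem tFul (h1 : S_Rho) (h2 : S_Nfx) (h3 : S_Fiv) (h4 : S_Swp) (h5 : S_Pm6) : S_Ful := by
  intro q κ F _ _ _ _ T x hκ hF hG hR π
  obtain ⟨ρ, hρ⟩ := h1 q κ F T x hF hR
  have hmem : ∀ (σ : F ≃ₐ[κ] F) (τ : Perm (Fin 6)), σ T = T → (∀ i, σ (x i) = x (τ i)) →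
      τ ∈ ρ.range := by
    intro σ τ hσ hτ
    refine ⟨⟨σ, hσ⟩, ?_⟩
    apply Equiv.ext
    intro i
    apply hR.inj
    rw [← hρ ⟨σ, hσ⟩ i]
    exact hτ i
  obtain ⟨σ, c, hσ, hc, hord⟩ := h3 q κ F T x hF hG hR
  obtain ⟨v, i, j, hij, -, ⟨δ, hδ, hδx⟩, -⟩ := h4 q κ F T x hκ hF hG hR
  have htop : ρ.range = ⊤ := by
    refine h5 ρ.range c i j (hmem σ c hσ hc) hord hij (hmem δ _ hδ hδx) ?_
    intro l
    obtain ⟨τ, hτ, hτx⟩ := h2 q κ F T x hF hG hR l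
    refine ⟨ρ ⟨τ, hτ⟩, ⟨_, rfl⟩, ?_⟩
    intro h
    apply hτx
    have h6 := hρ ⟨τ, hτ⟩ l
    rw [h] at h6
    exact h6
  have hπ : π ∈ ρ.range := by
    rw [htop]
    exact Subgroup.mem_top π
  obtain ⟨τ, hτ⟩ := hπ
  refine ⟨(τ : F ≃ₐ[κ] F), τ.2, ?_⟩
  intro i
  rw [hρ τ i, hτ]

end MP7A
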