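import Pool.Agent.Lib.MP_7f581e_A6.SpecD

/-!
# MP_7f581e_nt, a GA realization of `A_6` over `𝔽_p(X)`: the field of invariants of `A_6`
-/

set_option autoImplicit false

namespace MP7A

open Polynomial MP7Sh Equiv IntermediateField

open scoped Classical

/-- An automorphism which fixes `T` permutes the roots. -/
private theorem fxe_perm {q : Par} {L : Type} [Field L] {T : L} {x : Fin 6 → L}
    (hx : Rts q T x) (σ : L ≃+* L) (hσ : σ T = T) :
    ∃ π : Perm (Fin 6), ∀ i, σ (x i) = x (π i) := by
  have hmap : (NN q T).map (σ : L →+* L) = NN q T := by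
    unfold NN
    simp [Polynomial.map_add, Polynomial.map_mul, Polynomial.map_pow, hσ]
  have hroot : ∀ i, ∃ j, σ (x i) = x j := by
    intro i
    have h1 : (NN q T).eval (x i) = 0 := by
      rw [hx.eq, eval_prod]
      exact Finset.prod_eq_zero (Finset.mem_univ i) (by simp)
    have h2 : (NN q T).eval (σ (x i)) = 0 := by
      conv_lhs => rw [← hmap]
      rw [eval_map]
      have := eval₂_at_apply (p := NN q T) (σ : L →+* L) (x i)
      rw [h1, map_zero] at this
      exact this
    rw [hx.eq, eval_prod, Finset.prod_eq_zero_iff] at h2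
    obtain ⟨j, -, hj⟩ := h2
    refine ⟨j, ?_⟩
    rw [eval_sub, eval_X, eval_C, sub_eq_zero] at hj
    exact hj
  choose f hf using hroot
  have hinj : Function.Injective f := by
    intro i i' h
    have h1 : σ (x i) = σ (x i') := by rw [hf, hf, h]
    exact hx.inj (σ.injective h1)
  exact ⟨Equiv.ofBijective f (Finite.injective_iff_bijective.1 hinj), fun i => hf i⟩

private theorem fxe_fix {p : ℕ} [Fact p.Prime] {L : Type} [Field L] [Algebra (ZMod p) L]
    (σ : L ≃+* L) (m : L) (hm : σ m = m) (y : L) (hy : y ∈ (ZMod p)⟮m⟯) : σ y = y := by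
  have h0 : ∀ c : ZMod p, σ (algebraMap (ZMod p) L c) = algebraMap (ZMod p) L c := by
    intro c
    have : ((σ : L →+* L).comp (algebraMap (ZMod p) L)) = algebraMap (ZMod p) L :=
      Subsingleton.elim _ _
    exact congrArg (fun g : ZMod p →+* L => g c) this
  induction hy using adjoin_induction with
  | mem y hy => rw [Set.mem_singleton_iff.1 hy, hm]
  | algebraMap c => exact h0 c
  | add a b _ _ ha hb => rw [map_add, ha, hb]
  | inv a _ ha => rw [map_inv₀, ha]
  | mul a b _ _ ha hb => rw [map_mul, ha, hb]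

theorem tFxe (h1 : S_Dsc) (h2 : S_Fxs) : S_Fxe := by
  intro p _ q L _ _ T x hOk hS
  obtain ⟨z, c, hc, hz, hz2, hsg⟩ := h1 p q L T x hOk hS
  have hfs := h2 p q L T x hOk hS
  set cL : L := algebraMap (ZMod p) L c with hcL
  have hcL0 : cL ≠ 0 := by
    rw [hcL]
    exact (_root_.map_ne_zero _).2 hc
  have hz2' : cL * (T - q.s) * (T + q.s) ≠ 0 := by
    rw [← hz2]
    exact pow_ne_zero _ hz
  have hTs : T - q.s ≠ 0 := fun h => hz2' (by rw [h]; ring)
  -- the generator
  obtain ⟨m, hmdef⟩ : ∃ m : L, m = z / (cL * (T - q.s)) := ⟨_, rfl⟩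
  have hzm : z = cL * m * (T - q.s) := by
    rw [hmdef]
    field_simp
  have hm1 : cL * m ^ 2 * (T - q.s) = T + q.s := by
    have h3 : cL * (T - q.s) * (cL * m ^ 2 * (T - q.s)) = cL * (T - q.s) * (T + q.s) := by
      rw [← hz2, hzm]
      ring
    exact mul_left_cancel₀ (mul_ne_zero hcL0 hTs) h3
  have hm2 : cL * m ^ 2 - 1 ≠ 0 := by
    intro h
    have h3 : (2 : L) * q.s = 0 := by
      linear_combination (T - q.s) * h - hm1
    exact mul_ne_zero hOk.two hOk.s0 h3
  have hT : T = q.s * (cL * m ^ 2 + 1) / (cL * m ^ 2 - 1) := by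
    rw [eq_div_iff hm2]
    linear_combination hm1
  have hmt : Transcendental (ZMod p) m := by
    intro halg
    apply hS.tra
    have hs : IsAlgebraic (ZMod p) (q.s : L) := isAlgebraic_intCast q.s
    have hcal : IsAlgebraic (ZMod p) cL := isAlgebraic_algebraMap c
    have hone : IsAlgebraic (ZMod p) (1 : L) := isAlgebraic_one
    have hcm : IsAlgebraic (ZMod p) (cL * m ^ 2) := hcal.mul (halg.pow 2)
    rw [hT, div_eq_mul_inv]
    exact (hs.mul (hcm.add hone)).mul (hcm.sub hone).inv
  have hTm : T ∈ (ZMod p)⟮m⟯ := by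
    have hmm : m ∈ (ZMod p)⟮m⟯ := mem_adjoin_simple_self _ _
    have hcm : cL * m ^ 2 ∈ (ZMod p)⟮m⟯ :=
      mul_mem (_root_.algebraMap_mem _ c) (pow_mem hmm 2)
    rw [hT]
    exact div_mem (mul_mem (intCast_mem _ _) (add_mem hcm (one_mem _)))
      (sub_mem hcm (one_mem _))
  have hzmem : z ∈ (ZMod p)⟮m⟯ := by
    rw [hzm]
    exact mul_mem (mul_mem (_root_.algebraMap_mem _ c) (mem_adjoin_simple_self _ _))
      (sub_mem hTm (intCast_mem _ _))
  have hsub : ∀ a : L, a ∈ Subfield.closure ({T} : Set L) → a ∈ (ZMod p)⟮m⟯ := by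
    intro a ha
    have : Subfield.closure ({T} : Set L) ≤ ((ZMod p)⟮m⟯).toSubfield := by
      rw [Subfield.closure_le]
      intro b hb
      rw [Set.mem_singleton_iff.1 hb]
      exact hTm
    exact this ha
  refine ⟨(((ZMod p)⟮m⟯).val.toRingHom).comp
    (RatFunc.algEquivOfTranscendental m hmt).toAlgHom.toRingHom, fun y => ⟨fun hy => ?_, ?_⟩⟩
  · -- fixed elements are in the field
    have hmem : y ∈ (ZMod p)⟮m⟯ := by
      obtain ⟨τ, hτT, hτx⟩ := hS.full (swap 0 1)
      have hτi : ∀ i, τ.symm (x i) = x ((swap 0 1 : Perm (Fin 6)) i) := by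
        intro i
        rw [RingEquiv.symm_apply_eq, hτx, swap_apply_self]
      have hτT' : τ.symm T = T := by
        rw [RingEquiv.symm_apply_eq, hτT]
      have hs0 : Perm.sign (swap 0 1 : Perm (Fin 6)) = -1 := Perm.sign_swap (by decide)
      have hinv : ∀ σ : L ≃+* L, σ T = T →
          (σ y = y ∧ σ (τ y) = τ y ∧ σ z = z) ∨ (σ y = τ y ∧ σ (τ y) = y ∧ σ z = -z) := by
        intro σ hσ
        obtain ⟨π, hπ⟩ := fxe_perm hS.toRts σ hσ
        rcases Int.units_eq_one_or (Perm.sign π) with h | h
        · left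
          refine ⟨hy σ π hσ hπ h, ?_, ?_⟩
          · have h3 := hy ((τ.trans σ).trans τ.symm) (swap 0 1 * (π * swap 0 1)) (by
              simp [hτT, hσ, hτT']) (by
              intro i
              simp only [RingEquiv.trans_apply, hτx, hπ, hτi, Perm.mul_apply]) (by
              rw [Perm.sign_mul, Perm.sign_mul, hs0, h]
              decide)
            simp only [RingEquiv.trans_apply] at h3
            rw [RingEquiv.symm_apply_eq] at h3
            exact h3
          · have h3 := hsg σ π hσ hπ
            rw [if_pos h] at h3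
            exact h3
        · right
          refine ⟨?_, ?_, ?_⟩
          · have h3 := hy (σ.trans τ.symm) (swap 0 1 * π) (by
              simp [hσ, hτT']) (by
              intro i
              simp only [RingEquiv.trans_apply, hπ, hτi, Perm.mul_apply]) (by
              rw [Perm.sign_mul, hs0, h]
              decide)
            simp only [RingEquiv.trans_apply] at h3
            rw [RingEquiv.symm_apply_eq] at h3
            exact h3
          · have h3 := hy (τ.trans σ) (π * swap 0 1) (by
              simp [hσ, hτT]) (by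
              intro i
              simp only [RingEquiv.trans_apply, hπ, hτx, Perm.mul_apply]) (by
              rw [Perm.sign_mul, hs0, h]
              decide)
            simp only [RingEquiv.trans_apply] at h3
            exact h3
          · have h3 := hsg σ π hσ hπ
            rw [if_neg (by rw [h]; decide)] at h3
            exact h3
      have ha : y + τ y ∈ (ZMod p)⟮m⟯ := by
        apply hsub
        apply hfs
        intro σ hσ
        rcases hinv σ hσ with ⟨e1, e2, -⟩ | ⟨e1, e2, -⟩
        · rw [map_add, e1, e2]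
        · rw [map_add, e1, e2, add_comm]
      have hb : (y - τ y) * z ∈ (ZMod p)⟮m⟯ := by
        apply hsub
        apply hfs
        intro σ hσ
        rcases hinv σ hσ with ⟨e1, e2, e3⟩ | ⟨e1, e2, e3⟩
        · rw [map_mul, map_sub, e1, e2, e3]
        · rw [map_mul, map_sub, e1, e2, e3]
          ring
      have h2ne := hOk.two
      have hy2 : y = (y + τ y + (y - τ y) * z / z) / 2 := by
        rw [mul_div_cancel_right₀ _ hz]
        field_simp
        ring
      rw [hy2]
      have h2m : (2 : L) ∈ (ZMod p)⟮m⟯ := by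
        have := intCast_mem ((ZMod p)⟮m⟯) 2
        exact_mod_cast this
      exact div_mem (add_mem ha (div_mem hb hzmem)) h2m
    obtain ⟨w, hw⟩ := (RatFunc.algEquivOfTranscendental m hmt).surjective ⟨y, hmem⟩
    refine ⟨w, ?_⟩
    change (((RatFunc.algEquivOfTranscendental m hmt) w : (ZMod p)⟮m⟯) : L) = y
    rw [hw]
  · rintro ⟨w, rfl⟩ σ π hσ hπ hsign
    have hσz : σ z = z := by
      have h3 := hsg σ π hσ hπ
      rw [if_pos hsign] at h3
      exact h3
    have hσc : σ cL = cL := by
      have : ((σ : L →+* L).comp (algebraMap (ZMod p) L)) = algebraMap (ZMod p) L :=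
        Subsingleton.elim _ _
      exact congrArg (fun g : ZMod p →+* L => g c) this
    refine fxe_fix σ m ?_ _ (Subtype.property _)
    rw [hmdef, map_div₀, map_mul, map_sub, hσz, hσc, hσ, map_intCast]

end MP7A
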