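import Pool.Agent.Lib.MP_7f581e_A6.SpecD

/-!
# MP_7f581e_nt, a GA realization of `A_6` over `𝔽_p(X)`: the field of invariants of `S_6`
-/

set_option autoImplicit false

namespace MP7A

open Polynomial MP7Sh Equiv

open scoped Classical

/-- The sextic over a subfield. -/
private theorem Fxs_map (q : Par) {L : Type} [Field L] (K : Subfield L) (T : K) :
    (NN q T).map (algebraMap K L) = NN q (T : L) := by
  have h1 : ∀ n : ℤ, algebraMap K L (n : K) = (n : L) := fun n => map_intCast _ n
  have h2 : algebraMap K L T = (T : L) := rfl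
  unfold NN
  simp only [Polynomial.map_add, Polynomial.map_mul, Polynomial.map_pow, Polynomial.map_X,
    Polynomial.map_C, map_sub, Polynomial.map_sub, h1, h2]

/-- **Fxs**. -/
theorem tFxs : S_Fxs := by
  intro p _ q L _ _ T x hq h6 y hy
  obtain ⟨K, hK⟩ : ∃ K, K = Subfield.closure ({T} : Set L) := ⟨_, rfl⟩
  rw [← hK]
  have hTK : T ∈ K := by
    rw [hK]
    exact Subfield.subset_closure rfl
  obtain ⟨P, hP⟩ : ∃ P : K[X], P = NN q (⟨T, hTK⟩ : K) := ⟨_, rfl⟩
  have hmap : P.map (algebraMap K L) = ∏ i, (X - C (x i)) := by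
    rw [hP, Fxs_map, ← h6.eq]
  have hne : P ≠ 0 := by
    intro h0
    rw [h0, Polynomial.map_zero] at hmap
    exact (Finset.prod_ne_zero_iff.2 fun i _ => X_sub_C_ne_zero (x i)) hmap.symm
  have hsep : P.Separable := by
    rw [← Polynomial.separable_map (algebraMap K L), hmap]
    exact separable_prod_X_sub_C_iff.2 h6.inj
  have hroot : P.rootSet L = Set.range x := by
    ext z
    rw [mem_rootSet_of_ne hne, aeval_def, ← eval_map, hmap, eval_prod, Finset.prod_eq_zero_iff]
    constructor
    · rintro ⟨i, -, hi⟩
      rw [eval_sub, eval_X, eval_C, sub_eq_zero] at hi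
      exact ⟨i, hi.symm⟩
    · rintro ⟨i, rfl⟩
      exact ⟨i, Finset.mem_univ i, by rw [eval_sub, eval_X, eval_C, sub_self]⟩
  have hspl : P.IsSplittingField K L := by
    rw [isSplittingField_iff_intermediateField, hmap, hroot]
    refine ⟨?_, ?_⟩
    · exact Splits.prod fun i _ => Splits.X_sub_C (x i)
    · rw [eq_top_iff]
      intro z _
      have h1 : Subfield.closure (insert T (Set.range x)) ≤
          (IntermediateField.adjoin K (Set.range x)).toSubfield := by
        rw [Subfield.closure_le]
        rintro w (rfl | hw)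
        · exact (IntermediateField.adjoin K (Set.range x)).algebraMap_mem ⟨w, hTK⟩
        · exact IntermediateField.subset_adjoin K _ hw
      rw [h6.gen] at h1
      exact h1 (Subfield.mem_top z)
  have hG : IsGalois K L := IsGalois.of_separable_splitting_field hsep
  have hF : FiniteDimensional K L := IsSplittingField.finiteDimensional L P
  have h2 : y ∈ Set.range (algebraMap K L) := by
    rw [IsGalois.mem_range_algebraMap_iff_fixed]
    intro f
    have h3 := hy f.toRingEquiv (f.commutes ⟨T, hTK⟩)
    exact h3
  obtain ⟨k, rfl⟩ := h2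
  exact k.2

end MP7A
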