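import Pool.Agent.Lib.MP_7f581e_A6.SpecC

/-!
# MP_7f581e_nt, a GA realization of `A_6`: all the permutations are realized
-/

set_option autoImplicit false

namespace MP7A

open Polynomial MP7Sh Equiv

open scoped Classical

theorem tGeo (h1 : S_Ful) (h2 : S_Swp) (h3 : S_Ffi) : S_Geo := by
  intro p q κ Ω _ _ _ T y x hA
  obtain ⟨F, T₁, x₁, hT, hx, hG, hR, hL⟩ := h3 p q κ Ω T y x hA
  have := hA.kac
  have := hA.chp
  have : CharP F p := charP_of_injective_algebraMap (algebraMap κ F).injective p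
  have okκ : Ok q κ := hA.oka κ
  have okF : Ok q F := hA.oka F
  refine ⟨?_, ?_⟩
  · intro π
    obtain ⟨σ, hσT, hσ⟩ := h1 q κ F T₁ x₁ okκ okF hG hR π
    obtain ⟨τ, hτ⟩ := hL σ hσT
    refine ⟨τ, ?_, fun i => ?_⟩
    · rw [← hT, hτ, hσT]
    · rw [← hx, hτ, hσ, hx]
  · obtain ⟨v, i, j, hij, hP, -, hD⟩ := h2 q κ F T₁ x₁ okκ okF hG hR
    refine ⟨F, T₁, v, i, j, hT, fun l => hx l ▸ (x₁ l).2, hij, hP.ord, hP.ne, hP.pos, ?_⟩
    intro z hz hz'
    apply hP.dec z hz
    intro δ hδT hδ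
    obtain ⟨τ, hτ⟩ := hL δ hδT
    have e1 : τ T = T := by rw [← hT, hτ, hδT]
    have e2 : τ z = (z : Ω) := by
      apply hz' τ e1
      rcases hD δ hδT hδ with h | h
      · left
        intro l
        rw [← hx, hτ, h]
      · right
        intro l
        rw [← hx, hτ, h, hx]
    rw [hτ] at e2
    exact Subtype.ext e2

end MP7A
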