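import Pool.Agent.Lib.MP_7f581e_A6.SpecD

/-!
# The group over `𝔽_p(T)` is the symmetric group
-/

set_option autoImplicit false

namespace MP7A

open Polynomial MP7Sh Equiv

open scoped Classical

namespace GlsAux

private theorem root_iff {L : Type} [Field L] {q : Par} {T : L} {x : Fin 6 → L}
    (h : Rts q T x) (z : L) : nn q T z = 0 ↔ ∃ i, z = x i := by
  have e : (NN q T).eval z = nn q T z := by
    simp [NN, nn, cc]
  rw [← e, h.eq, eval_prod, Finset.prod_eq_zero_iff]
  simp [sub_eq_zero]

private theorem nn_map {L : Type} [Field L] (q : Par) (T z : L) (σ : L ≃+* L) (hT : σ T = T) :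
    nn q T (σ z) = σ (nn q T z) := by
  simp [nn, cc, hT]

private theorem ex {L : Type} [Field L] {q : Par} {T : L} {x : Fin 6 → L} (h : Rts q T x)
    (σ : L ≃+* L) (hT : σ T = T) (i : Fin 6) : ∃ j, σ (x i) = x j := by
  rw [← root_iff h, nn_map q T _ σ hT, (root_iff h (x i)).2 ⟨i, rfl⟩, map_zero]

end GlsAux

theorem tGls : S_Gls := by
  intro p _ q L _ _ T x _ h
  have hst : ∀ σ : MulAction.stabilizer (L ≃+* L) T, (σ : L ≃+* L) T = T := fun σ => σ.2
  choose f hf using fun (σ : MulAction.stabilizer (L ≃+* L) T) =>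
    GlsAux.ex h.toRts (σ : L ≃+* L) (hst σ)
  have hone : ∀ i, f 1 i = i := fun i => h.inj (by rw [← hf 1 i]; rfl)
  have hmul : ∀ σ τ i, f (σ * τ) i = f σ (f τ i) := fun σ τ i => h.inj (by
    rw [← hf, ← hf, ← hf]
    rfl)
  let ρ : MulAction.stabilizer (L ≃+* L) T →* Perm (Fin 6) :=
    { toFun := fun σ =>
        { toFun := f σ
          invFun := f σ⁻¹
          left_inv := fun i => by rw [← hmul, inv_mul_cancel, hone]
          right_inv := fun i => by rw [← hmul, mul_inv_cancel, hone] }
      map_one' := Equiv.ext hone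
      map_mul' := fun σ τ => Equiv.ext (hmul σ τ) }
  have hinj : Function.Injective ρ := by
    rw [injective_iff_map_eq_one]
    intro σ hσ
    have h1 : ∀ i, (σ : L ≃+* L) (x i) = x i := fun i => by
      rw [hf]
      exact congrArg x (Equiv.congr_fun hσ i)
    have h2 : ∀ z : L, (σ : L ≃+* L) z = z := by
      intro z
      have hz : z ∈ Subfield.closure (insert T (Set.range x)) := by
        rw [h.gen]
        exact Subfield.mem_top z
      induction hz using Subfield.closure_induction with
      | mem a ha =>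
        rcases Set.mem_insert_iff.1 ha with rfl | ⟨i, rfl⟩
        · exact hst σ
        · exact h1 i
      | one => exact map_one _
      | add a b _ _ ha hb => rw [map_add, ha, hb]
      | neg a _ ha => rw [map_neg, ha]
      | inv a _ ha => rw [map_inv₀, ha]
      | mul a b _ _ ha hb => rw [map_mul, ha, hb]
    exact Subtype.ext (RingEquiv.ext h2)
  have hsur : Function.Surjective ρ := by
    intro π
    obtain ⟨σ, hT, hσ⟩ := h.full π
    refine ⟨⟨σ, hT⟩, Equiv.ext fun i => h.inj ?_⟩
    rw [← hσ i]
    exact (hf ⟨σ, hT⟩ i).symm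
  exact ⟨MulEquiv.ofBijective ρ ⟨hinj, hsur⟩, fun σ i => hf σ i⟩

end MP7A
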