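import Pool.Agent.Lib.MP_7f581e_A6.SpecB

/-!
# MP_7f581e_nt, `A_6`: transcendental `y`
-/

set_option autoImplicit false

namespace MP7A

open Polynomial MP7Sh Equiv

open scoped Classical

/-- A polynomial with a nonzero coefficient does not vanish at a transcendental element. -/
private theorem gtyNv {κ E : Type} [Field κ] [Field E] [Algebra κ E] {y : E}
    (hy : Transcendental κ y) (P : κ[X]) (n : ℕ) (hP : P.coeff n ≠ 0) : aeval y P ≠ 0 := by
  intro h
  apply hP
  have h1 : P = 0 := by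
    by_contra h0
    exact hy ⟨P, h0, h⟩
  rw [h1, coeff_zero]

/-- The same for polynomials of degree four. -/
private theorem gtyNv5 {κ E : Type} [Field κ] [Field E] [Algebra κ E] {y : E}
    (hy : Transcendental κ y) (c0 c1 c2 c3 c4 : κ) (h : c2 ≠ 0 ∨ c3 ≠ 0) :
    algebraMap κ E c0 + algebraMap κ E c1 * y + algebraMap κ E c2 * y ^ 2 +
      algebraMap κ E c3 * y ^ 3 + algebraMap κ E c4 * y ^ 4 ≠ 0 := by
  have hP : aeval y (C c0 + C c1 * X + C c2 * X ^ 2 + C c3 * X ^ 3 + C c4 * X ^ 4) =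
      algebraMap κ E c0 + algebraMap κ E c1 * y + algebraMap κ E c2 * y ^ 2 +
      algebraMap κ E c3 * y ^ 3 + algebraMap κ E c4 * y ^ 4 := by
    simp
  rw [← hP]
  rcases h with h | h
  · apply gtyNv hy _ 2
    simpa using h
  · apply gtyNv hy _ 3
    simpa using h

/-- The same with integers. -/
private theorem gtyNv4 {κ E : Type} [Field κ] [Field E] [Algebra κ E] {y : E}
    (hy : Transcendental κ y) (c0 c1 c2 c3 c4 : ℤ)
    (h : (c2 : E) ≠ 0 ∨ (c3 : E) ≠ 0) :
    (c0 : E) + c1 * y + c2 * y ^ 2 + c3 * y ^ 3 + c4 * y ^ 4 ≠ 0 := by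
  have h1 : ∀ c : ℤ, (c : E) ≠ 0 → (c : κ) ≠ 0 := by
    intro c hc h0
    apply hc
    rw [← map_intCast (algebraMap κ E) c, h0, map_zero]
  have h2 := gtyNv5 hy (c0 : κ) c1 c2 c3 c4 (h.imp (h1 c2) (h1 c3))
  simp only [map_intCast] at h2
  exact h2

theorem tGty : S_Gty := by
  intro q κ E _ _ _ hq y hy
  have h1E : ((-1 : ℤ) : E) ≠ 0 := by
    push_cast
    exact neg_ne_zero.2 one_ne_zero
  -- `t ≠ 0`
  have ht : tt q y ≠ 0 := by
    have h := gtyNv4 hy q.b 0 (-1) 0 0 (Or.inl h1E)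
    intro h0
    apply h
    unfold tt at h0
    push_cast
    linear_combination h0
  -- `α ≠ 0`
  have hal : al q y ≠ 0 := by
    have h4 : ((-4 * q.a : ℤ) : E) ≠ 0 := by
      push_cast
      have h22 : (4 : E) ≠ 0 := by
        have h5 : (4 : E) = 2 * 2 := by norm_num
        rw [h5]
        exact mul_ne_zero hq.two hq.two
      exact mul_ne_zero (neg_ne_zero.2 h22) hq.a0
    have h := gtyNv4 hy (9 * q.a ^ 2 - 2 * q.e * q.a * q.b + (q.e ^ 2 - 4 * q.g) * q.b ^ 2)
      (4 * (q.r * q.a + q.b) * q.a) (2 * q.e * q.a - 2 * (q.e ^ 2 - 4 * q.g) * q.b)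
      (-4 * q.a) (q.e ^ 2 - 4 * q.g) (Or.inr h4)
    intro h0
    apply h
    have h2 := hq.two
    have hkey : ∀ t : E, t ≠ 0 → t = q.b - y ^ 2 →
        (q.a / t) ^ 2 / 2 - q.e * (q.a / t) + (q.e : E) ^ 2 / 2 - 2 * q.g +
          4 * ((q.a / t) ^ 2 + (q.r * (q.a / t) + 1) * (y * (q.a / t)) / 2) = 0 →
        9 * (q.a : E) ^ 2 - 2 * q.e * q.a * t + (q.e ^ 2 - 4 * q.g) * t ^ 2 +
          4 * (q.r * q.a + t) * q.a * y = 0 := by
      intro t ht0 _ h6
      have h7 : 9 * (q.a : E) ^ 2 - 2 * q.e * q.a * t + (q.e ^ 2 - 4 * q.g) * t ^ 2 +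
          4 * (q.r * q.a + t) * q.a * y = 2 * t ^ 2 * ((q.a / t) ^ 2 / 2 - q.e * (q.a / t) +
            (q.e : E) ^ 2 / 2 - 2 * q.g +
          4 * ((q.a / t) ^ 2 + (q.r * (q.a / t) + 1) * (y * (q.a / t)) / 2)) := by
        field_simp
        ring
      rw [h7, h6, mul_zero]
    have h8 := hkey (tt q y) ht rfl (by
      have h9 := h0
      unfold al q0 ww at h9
      exact h9)
    unfold tt at h8
    push_cast
    linear_combination h8
  -- `r w + 1 ≠ 0`
  have hrw : (q.r : E) * ww q y + 1 ≠ 0 := by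
    have h := gtyNv4 hy (q.r * q.a + q.b) 0 (-1) 0 0 (Or.inl h1E)
    intro h0
    apply h
    have h1 : (q.r : E) * ww q y * tt q y + tt q y = 0 := by
      linear_combination tt q y * h0
    have h2 : ww q y * tt q y = q.a := by
      unfold ww
      exact div_mul_cancel₀ _ ht
    have h3 : (q.r : E) * q.a + tt q y = 0 := by
      linear_combination h1 - q.r * h2
    unfold tt at h3
    push_cast
    linear_combination h3
  -- `k y - m ≠ 0`
  have hk : (q.k : E) * y - q.m ≠ 0 := by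
    by_cases hk0 : (q.k : E) = 0
    · rw [hk0, zero_mul, zero_sub]
      intro h0
      apply hq.m0
      rw [hk0, neg_eq_zero.1 h0]
      ring
    · intro h0
      have h1 : y = (q.m : E) / q.k := by
        field_simp
        linear_combination h0
      apply hy
      rw [h1, div_eq_mul_inv]
      exact (isAlgebraic_intCast q.m).mul (isAlgebraic_intCast q.k).inv
  have hmm : mu q (mu q y) = y := by
    have h0 : mu q y * (q.k * y - q.m) = q.m * y + q.n := div_mul_cancel₀ _ hk
    have h1 : (q.k : E) * mu q y - q.m = (q.m ^ 2 + q.n * q.k) / (q.k * y - q.m) := by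
      rw [eq_div_iff hk]
      linear_combination q.k * h0
    have h2 : (q.m : E) * mu q y + q.n = (q.m ^ 2 + q.n * q.k) * y / (q.k * y - q.m) := by
      rw [eq_div_iff hk]
      linear_combination q.m * h0
    have h3 : mu q (mu q y) = ((q.m : E) * mu q y + q.n) / (q.k * mu q y - q.m) := rfl
    rw [h3, h1, h2]
    have hm0 := hq.m0
    field_simp
  refine ⟨ht, hal, hrw, hk, ?_, hmm⟩
  intro halg
  apply hy
  rw [← hmm]
  have h3 : mu q (mu q y) = ((q.m : E) * mu q y + q.n) / (q.k * mu q y - q.m) := rfl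
  rw [h3, div_eq_mul_inv]
  exact (((isAlgebraic_intCast q.m).mul halg).add (isAlgebraic_intCast q.n)).mul
    ((((isAlgebraic_intCast q.k).mul halg).sub (isAlgebraic_intCast q.m)).inv)

end MP7A
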