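import Pool.Agent.Lib.MP_7f581e_A6.SpecC

/-!
# MP_7f581e_nt, a GA realization of `A_6` over `𝔽_p(X)`: the field `L`
-/

set_option autoImplicit false

namespace MP7A

open Polynomial MP7Sh Equiv

open scoped Classical

/-- The sextic over a subfield. -/
private theorem Lsx_map (q : Par) {Ω : Type} [Field Ω] (K : Subfield Ω) (T : K) :
    (NN q T).map K.subtype = NN q (T : Ω) := by
  have h1 : ∀ n : ℤ, K.subtype (n : K) = (n : Ω) := fun n => map_intCast _ n
  have h2 : K.subtype T = (T : Ω) := rfl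
  unfold NN
  simp only [Polynomial.map_add, Polynomial.map_mul, Polynomial.map_pow, Polynomial.map_X,
    Polynomial.map_C, map_sub, Polynomial.map_sub, h1, h2]

/-- Restriction of an automorphism to a stable subfield. -/
private theorem Lsx_res {Ω : Type} [Field Ω] (E : Subfield Ω) (τ : Ω ≃+* Ω)
    (h1 : ∀ z ∈ E, τ z ∈ E) (h2 : ∀ z ∈ E, τ.symm z ∈ E) :
    ∃ σ : E ≃+* E, ∀ z : E, ((σ z : E) : Ω) = τ z :=
  ⟨{ toFun := fun y => ⟨τ y, h1 y y.2⟩
     invFun := fun y => ⟨τ.symm y, h2 y y.2⟩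
     left_inv := fun y => Subtype.ext (τ.symm_apply_apply y)
     right_inv := fun y => Subtype.ext (τ.apply_symm_apply y)
     map_mul' := fun y z => Subtype.ext (map_mul τ _ _)
     map_add' := fun y z => Subtype.ext (map_add τ _ _) }, fun _ => rfl⟩

/-- An automorphism which maps the generators into `Lf` maps `Lf` into itself. -/
private theorem Lsx_sta {Ω : Type} [Field Ω] (T : Ω) (x : Fin 6 → Ω) (τ : Ω ≃+* Ω)
    (hT : τ T ∈ Lf T x) (hx : ∀ i, τ (x i) ∈ Lf T x) : ∀ z ∈ Lf T x, τ z ∈ Lf T x := by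
  have h1 : Lf T x ≤ (Lf T x).comap (τ : Ω →+* Ω) := by
    unfold Lf
    rw [Subfield.closure_le]
    rintro w (rfl | ⟨i, rfl⟩)
    · exact hT
    · exact hx i
  exact fun z hz => h1 hz

/-- An automorphism which permutes the roots and fixes `T` restricts to `Lf`. -/
private theorem Lsx_per {Ω : Type} [Field Ω] (T : Ω) (x : Fin 6 → Ω) (τ : Ω ≃+* Ω)
    (π : Perm (Fin 6)) (hT : τ T = T) (hx : ∀ i, τ (x i) = x (π i)) :
    ∃ σ : Lf T x ≃+* Lf T x, ∀ z : Lf T x, ((σ z : Lf T x) : Ω) = τ z := by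
  have hTm : T ∈ Lf T x := Subfield.subset_closure (Set.mem_insert _ _)
  have hxm : ∀ i, x i ∈ Lf T x := fun i =>
    Subfield.subset_closure (Set.mem_insert_of_mem _ (Set.mem_range_self i))
  refine Lsx_res _ τ (Lsx_sta T x τ ?_ fun i => ?_) (Lsx_sta T x τ.symm ?_ fun i => ?_)
  · rw [hT]
    exact hTm
  · rw [hx]
    exact hxm _
  · have h1 : τ.symm T = T := by
      rw [RingEquiv.symm_apply_eq, hT]
    rw [h1]
    exact hTm
  · have h1 : τ.symm (x i) = x (π.symm i) := by
      rw [RingEquiv.symm_apply_eq, hx, Equiv.apply_symm_apply]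
    rw [h1]
    exact hxm _

/-- Transcendental over the prime field. -/
private theorem Lsx_tra (p : ℕ) [Fact p.Prime] (κ Ω : Type) [Field κ] [Field Ω] [Algebra κ Ω]
    [CharP κ p] (T : Ω) (hT : Transcendental κ T) (L : Subfield Ω) [Algebra (ZMod p) L]
    (T₁ : L) (h1 : (T₁ : Ω) = T) : Transcendental (ZMod p) T₁ := by
  have : CharP Ω p := charP_of_injective_algebraMap (algebraMap κ Ω).injective p
  let _ : Algebra (ZMod p) κ := ZMod.algebra κ p
  let _ : Algebra (ZMod p) Ω := ZMod.algebra Ω p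
  have : IsScalarTower (ZMod p) κ Ω := IsScalarTower.of_algebraMap_eq' (Subsingleton.elim _ _)
  have h2 : Transcendental (ZMod p) T := Transcendental.restrictScalars
    (algebraMap (ZMod p) κ).injective hT
  intro h3
  apply h2
  obtain ⟨f, hf, hf0⟩ := h3
  refine ⟨f, hf, ?_⟩
  have h4 : L.subtype.comp (algebraMap (ZMod p) L) = algebraMap (ZMod p) Ω :=
    Subsingleton.elim _ _
  have h5 := congrArg L.subtype hf0
  rw [map_zero, aeval_def, hom_eval₂, h4] at h5
  rw [aeval_def, ← h1]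
  exact h5

/-- **Lsx**. -/
theorem tLsx (h1 : S_Geo) (h2 : S_Tau) : S_Lsx := by
  intro p _ q κ Ω _ _ _ T y x hA
  obtain ⟨hg1, F, T₂, v, i, j, hT₂, hxF, hij, hv, hne, hpos, hdiv⟩ := h1 p q κ Ω T y x hA
  obtain ⟨τ₀, hτ₀, hs1, hs2⟩ := h2 p q κ Ω T y x hA
  have := hA.chp
  have : CharP Ω p := charP_of_injective_algebraMap (algebraMap κ Ω).injective p
  have : CharP (Lf T x) p := RingHom.charP (Lf T x).subtype Subtype.coe_injective p
  let _ : Algebra (ZMod p) (Lf T x) := ZMod.algebra _ p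
  have hTm : T ∈ Lf T x := Subfield.subset_closure (Set.mem_insert _ _)
  have hxm : ∀ i, x i ∈ Lf T x := fun i =>
    Subfield.subset_closure (Set.mem_insert_of_mem _ (Set.mem_range_self i))
  have hTneg : ∃ γ : Lf T x ≃+* Lf T x, γ ⟨T, hTm⟩ = -⟨T, hTm⟩ := by
    obtain ⟨σ, hσ⟩ := Lsx_res (Lf T x) τ₀.toRingEquiv hs1 hs2
    refine ⟨σ, Subtype.ext ?_⟩
    rw [hσ]
    exact hτ₀
  refine ⟨Lf T x, inferInstance, inferInstance, ⟨T, hTm⟩, fun i => ⟨x i, hxm i⟩, hA.oka _,
    ⟨⟨?_, ?_⟩, ?_, ?_, ?_⟩, ?_, hTneg⟩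
  · apply Polynomial.map_injective (Lf T x).subtype Subtype.coe_injective
    rw [Lsx_map, hA.rts.eq, Polynomial.map_prod]
    refine Finset.prod_congr rfl fun k _ => ?_
    rw [Polynomial.map_sub, Polynomial.map_X, Polynomial.map_C]
    rfl
  · intro k l hkl
    exact hA.rts.inj (congrArg Subtype.val hkl)
  · rw [eq_top_iff]
    intro z _
    have h3 := RingHom.map_field_closure (Lf T x).subtype
      (insert (⟨T, hTm⟩ : Lf T x) (Set.range fun i => (⟨x i, hxm i⟩ : Lf T x)))
    have h4 : (z : Ω) ∈ Subfield.closure ((Lf T x).subtype ''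
        (insert (⟨T, hTm⟩ : Lf T x) (Set.range fun i => (⟨x i, hxm i⟩ : Lf T x)))) := by
      have h5 : (Lf T x).subtype ''
          (insert (⟨T, hTm⟩ : Lf T x) (Set.range fun i => (⟨x i, hxm i⟩ : Lf T x))) =
          insert T (Set.range x) := by
        rw [Set.image_insert_eq, ← Set.range_comp]
        rfl
      rw [h5]
      exact z.2
    rw [← h3] at h4
    obtain ⟨w, hw, hwz⟩ := h4
    have h6 : w = z := Subtype.ext hwz
    rw [← h6]
    exact hw
  · exact Lsx_tra p κ Ω T hA.ttr (Lf T x) ⟨T, hTm⟩ rfl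
  · intro π
    obtain ⟨τ, hτ, hτx⟩ := hg1 π
    obtain ⟨σ, hσ⟩ := Lsx_per T x τ.toRingEquiv π hτ hτx
    refine ⟨σ, Subtype.ext ?_, fun k => Subtype.ext ?_⟩
    · rw [hσ]
      exact hτ
    · rw [hσ]
      exact hτx k
  · have hLF : ∀ z ∈ Lf T x, z ∈ F := by
      have h3 : Lf T x ≤ F.toSubfield := by
        unfold Lf
        rw [Subfield.closure_le]
        rintro w (rfl | ⟨k, rfl⟩)
        · rw [← hT₂]
          exact T₂.2
        · exact hxF k
      exact fun z hz => h3 hz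
    obtain ⟨f, hf⟩ : ∃ f : Lf T x →+* F, ∀ z, ((f z : F) : Ω) = z :=
      ⟨{ toFun := fun z => ⟨z, hLF z z.2⟩
         map_one' := rfl
         map_mul' := fun _ _ => rfl
         map_zero' := rfl
         map_add' := fun _ _ => rfl }, fun _ => rfl⟩
    have hf0 : ∀ z, z ≠ 0 → f z ≠ 0 := fun z hz => (map_ne_zero f).2 hz
    have hfT : f (⟨T, hTm⟩ + q.s) = T₂ + q.s := by
      rw [map_add, map_intCast]
      have h3 : f ⟨T, hTm⟩ = T₂ := Subtype.ext ((hf _).trans hT₂.symm)
      rw [h3]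
    refine ⟨fun z => v (f z), i, j, hij, ⟨fun a b ha hb => ?_, fun a b ha hb hab => ?_⟩, ?_, ?_,
      fun z hz hzf => ?_⟩ <;> beta_reduce
    · rw [map_mul]
      exact hv.mul _ _ (hf0 a ha) (hf0 b hb)
    · rw [map_add]
      refine hv.add _ _ (hf0 a ha) (hf0 b hb) ?_
      rw [← map_add]
      exact hf0 _ hab
    · intro h3
      apply hne
      rw [← hfT, h3, map_zero]
    · rw [hfT]
      exact hpos
    · rw [hfT]
      refine hdiv (f z) (hf0 z hz) fun τ hτ hor => ?_
      rw [hf]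
      rcases hor with hor | hor
      · have h3 : Set.EqOn (τ.toRingEquiv : Ω →+* Ω) (RingHom.id Ω) (insert T (Set.range x)) := by
          rintro w (rfl | ⟨k, rfl⟩)
          · exact hτ
          · exact hor k
        exact RingHom.eqOn_field_closure h3 z.2
      · obtain ⟨σ, hσ⟩ := Lsx_per T x τ.toRingEquiv (swap i j) hτ hor
        have h3 := hzf σ (Subtype.ext (by rw [hσ]; exact hτ))
          (fun l => Subtype.ext (by rw [hσ]; exact hor l))
        have h4 := congrArg Subtype.val h3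
        rw [hσ] at h4
        exact h4

end MP7A
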