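import Pool.Agent.Lib.MP_7f581e_A6.SpecB
import Pool.Agent.Lib.MP_7f581e_Sh.Pla
import Pool.Agent.Lib.MP_7f581e_Sh.Plx
import Pool.Agent.Lib.MP_7f581e_Sh.Cst
import Pool.Agent.Lib.MP_7f581e_Sh.Val

/-!
# MP_7f581e_nt, a GA realization of `A_6` over `𝔽_p(X)`: no root is in `κ(T)`
-/

set_option autoImplicit false

namespace MP7A

open Polynomial MP7Sh Equiv

open scoped Classical

private theorem ne_cst {κ F : Type} [Field κ] [Field F] [Algebra κ F] {T : F}
    (hT : Transcendental κ T) (c : κ) : T ≠ algebraMap κ F c := by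
  intro h
  exact hT (h ▸ isAlgebraic_algebraMap c)

private theorem int_is {κ F : Type} [Field κ] [Field F] [Algebra κ F] {v : F → ℤ}
    (hv : Kr κ v) (n : ℤ) (hn : (n : F) ≠ 0) : Is v 0 (n : F) := by
  refine ⟨hn, ?_⟩
  have h1 : (n : F) = algebraMap κ F (n : κ) := (map_intCast (algebraMap κ F) n).symm
  have h2 : (n : κ) ≠ 0 := by
    intro h
    rw [h1, h, map_zero] at hn
    exact hn rfl
  rw [h1]
  exact hv.cst _ h2

/-- The valuation of a root at a place where `T` is integral. -/
private theorem root_val {κ F : Type} [Field κ] [Field F] [Algebra κ F] {v : F → ℤ}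
    (hv : Kr κ v) (q : Par) {T z : F} (hh : (q.h : F) ≠ 0) (hT : Ge v 0 T)
    (hn : nn q T z = 0) (hz : z ≠ 0) : v z = 0 := by
  have ho := hv.ord
  have hrel : cc q z ^ 2 = (T - q.s) * z := by
    unfold nn at hn
    linear_combination hn
  have hTs : Ge v 0 (T - q.s) := hT.sub ho (Ge.intCast ho _)
  have hzI : Is v (v z) z := ⟨hz, rfl⟩
  have hr : Ge v (v z) ((T - q.s) * z) := hTs.mul_left ho hzI.ge
  have hz2 : Ge v (2 * v z) (z ^ 2) := by
    have := hzI.ge.pow ho 2
    exact_mod_cast this
  rcases lt_trichotomy (v z) 0 with h | h | h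
  · exfalso
    have h3 : Is v (3 * v z) (z ^ 3) := by
      have := hzI.pow ho 3
      exact_mod_cast this
    have hrest : Ge v (2 * v z) (q.e * z ^ 2 + q.g * z + q.h) := by
      refine ((Ge.mul_left ho (Ge.intCast ho _) hz2).add ho ?_).add ho ?_
      · exact (Ge.mul_left ho (Ge.intCast ho _) hzI.ge).mono (by omega)
      · exact (Ge.intCast ho _).mono (by omega)
    have hc : Is v (3 * v z) (cc q z) := by
      have : cc q z = z ^ 3 + (q.e * z ^ 2 + q.g * z + q.h) := by
        unfold cc
        ring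
      rw [this]
      exact h3.add_ge ho hrest (by omega)
    have hc2 := hc.pow ho 2
    rw [hrel] at hc2
    exact hc2.not_ge (by push_cast; omega) hr
  · exact h
  · exfalso
    have hrest : Ge v 1 (z ^ 3 + q.e * z ^ 2 + q.g * z) := by
      have hz1 : Ge v 1 z := hzI.ge.mono (by omega)
      have hz0 : Ge v 0 z := hzI.ge.mono (by omega)
      have e : z ^ 3 + q.e * z ^ 2 + q.g * z = (z ^ 2 + q.e * z + q.g) * z := by ring
      rw [e]
      refine Ge.mul_left ho ?_ hz1
      exact ((hz0.pow0 ho 2).add ho (Ge.mul_left ho (Ge.intCast ho _) hz0)).add ho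
        (Ge.intCast ho _)
    have hc : Is v 0 (cc q z) := by
      have : cc q z = q.h + (z ^ 3 + q.e * z ^ 2 + q.g * z) := by
        unfold cc
        ring
      rw [this]
      exact (int_is hv q.h hh).add_ge ho hrest (by omega)
    have hc2 := hc.pow ho 2
    rw [hrel] at hc2
    exact hc2.not_ge (by push_cast; omega) hr

/-- **Nfx**. -/
theorem tNfx (h1 : S_Der) : S_Nfx := by
  intro q κ F _ _ _ _ T x hq hG hR i
  by_contra hcon
  have hfix : ∀ σ : F ≃ₐ[κ] F, σ T = T → σ (x i) = x i := by
    intro σ hσ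
    by_contra h
    exact hcon ⟨σ, hσ, h⟩
  obtain ⟨-, hev, hz0, -, -, -⟩ := h1 q F hq T (x i)
  have hn : nn q T (x i) = 0 := by
    rw [← hev, hR.eq, eval_prod]
    exact Finset.prod_eq_zero (Finset.mem_univ i) (by simp)
  have hz := hz0 hn
  obtain ⟨c, hc⟩ := tCst κ F T (x i) hG hz hfix (by
    intro c
    obtain ⟨v, hv⟩ := (tPlx tPla κ F T hG).1 c
    refine ⟨v, hv, ?_⟩
    have ho := hv.ord
    have hT : Ge v 0 T := by
      have e : T = (T - algebraMap κ F c) + algebraMap κ F c := by ring
      rw [e]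
      refine Ge.add ho (Or.inr hv.pos.le) ?_
      by_cases hc : c = 0
      · left
        rw [hc, map_zero]
      · right
        rw [hv.cst c hc]
    exact root_val hv.toKr q hq.h0 hT hn hz)
  have hc0 : c ≠ 0 := by
    rintro rfl
    rw [map_zero] at hc
    exact hz hc
  apply ne_cst hG.tra ((cc q c ^ 2 + q.s * c) / c)
  have hrel : cc q (x i) ^ 2 + q.s * (x i) = T * x i := by
    unfold nn at hn
    linear_combination hn
  rw [map_div₀, ← hc, eq_div_iff hz, ← hrel]
  simp only [cc, map_add, map_mul, map_pow, map_intCast, ← hc]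

end MP7A
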