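import Pool.Agent.Lib.MP_7f581e_A6.SpecD

/-!
# MP_7f581e_nt, a GA realization of `A_6` over `𝔽_p(X)`: the parameters satisfy the conditions
-/

set_option autoImplicit false

namespace MP7A

open Polynomial MP7Sh Equiv

open scoped Classical

private theorem okp_g5 (E : Type) [Field E] (h2 : (2 : E) ≠ 0) (h5 : (5 : E) = 0) (y : E)
    (ht : tt (⟨0, 1, 1, 3, 1, 0, 1, 1, 0, 1, 1, 0, 0⟩ : Par) y ≠ 0) :
    GG (⟨0, 1, 1, 3, 1, 0, 1, 1, 0, 1, 1, 0, 0⟩ : Par) y * (1 - y ^ 2) ^ 5 =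
      3 + y + y ^ 2 + y ^ 3 + 4 * y ^ 4 + y ^ 5 + 4 * y ^ 6 + y ^ 7 + y ^ 8 + y ^ 9 +
        3 * y ^ 10 := by
  have ht' : (1 : E) - y ^ 2 ≠ 0 := by
    simpa [tt] using ht
  have h1 : GG (⟨0, 1, 1, 3, 1, 0, 1, 1, 0, 1, 1, 0, 0⟩ : Par) y * (1 - y ^ 2) ^ 5 * 2 =
      -29 + -43 * y + -88 * y ^ 2 + 27 * y ^ 3 + 108 * y ^ 4 + 12 * y ^ 5 + -102 * y ^ 6 +
        12 * y ^ 7 + 62 * y ^ 8 + -8 * y ^ 9 + -14 * y ^ 10 := by
    simp only [GG, al, be, q0, q1, ww, tt, Int.cast_zero, Int.cast_one, Int.cast_ofNat]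
    field_simp
    ring
  refine mul_right_cancel₀ h2 ?_
  rw [h1]
  linear_combination (-7 + -9 * y + -18 * y ^ 2 + 5 * y ^ 3 + 20 * y ^ 4 + 2 * y ^ 5 +
    -22 * y ^ 6 + 2 * y ^ 7 + 12 * y ^ 8 + -2 * y ^ 9 + -4 * y ^ 10) * h5

private theorem okp5 (E : Type) [Field E] (h2 : (2 : E) ≠ 0) (h5 : (5 : E) = 0) :
    Ok (⟨0, 1, 1, 3, 1, 0, 1, 1, 0, 1, 1, 0, 0⟩ : Par) E where
  two := h2
  h0 := by simp
  s0 := by
    intro h
    apply h2
    have h3 : (3 : E) = 0 := by simpa using h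
    linear_combination h5 - h3
  x0 := by simp
  a0 := by simp
  b0 := by simp
  e1 := by simp [h5]
  e2 := by simp
  e3 := by
    simp
    linear_combination -h5
  e4 := by
    simp
    linear_combination h5
  d0 := by
    simp
    exact h5
  c0 := by
    simp [cc]
    linear_combination 3 * h5
  ff := Or.inl ⟨h5, by simp⟩
  m0 := by simp
  gm := by
    intro y hy hk hm
    have hy0 : y ≠ 0 := by simpa using hk
    have e1 := okp_g5 E h2 h5 y hy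
    have e2 := okp_g5 E h2 h5 _ hm
    set μ := mu (⟨0, 1, 1, 3, 1, 0, 1, 1, 0, 1, 1, 0, 0⟩ : Par) y with hμ
    have hμy : μ * y = 1 := by
      rw [hμ, mu]
      simp [hy0]
    have ht' : (1 : E) - y ^ 2 ≠ 0 := by simpa [tt] using hy
    have e3 : (3 + μ + μ ^ 2 + μ ^ 3 + 4 * μ ^ 4 + μ ^ 5 + 4 * μ ^ 6 + μ ^ 7 + μ ^ 8 + μ ^ 9 +
        3 * μ ^ 10) * y ^ 10 = 3 * y ^ 10 + (μ * y) * y ^ 9 + (μ * y) ^ 2 * y ^ 8 +
          (μ * y) ^ 3 * y ^ 7 + 4 * (μ * y) ^ 4 * y ^ 6 + (μ * y) ^ 5 * y ^ 5 +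
          4 * (μ * y) ^ 6 * y ^ 4 + (μ * y) ^ 7 * y ^ 3 + (μ * y) ^ 8 * y ^ 2 +
          (μ * y) ^ 9 * y + 3 * (μ * y) ^ 10 := by ring
    rw [hμy] at e3
    have e4 : (1 - μ ^ 2) ^ 5 * y ^ 10 = -(1 - y ^ 2) ^ 5 := by
      have : (1 - μ ^ 2) * y ^ 2 = -(1 - y ^ 2) := by
        have : (1 - μ ^ 2) * y ^ 2 = y ^ 2 - (μ * y) ^ 2 := by ring
        rw [this, hμy]
        ring
      calc (1 - μ ^ 2) ^ 5 * y ^ 10 = ((1 - μ ^ 2) * y ^ 2) ^ 5 := by ring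
        _ = _ := by rw [this]; ring
    have e5 : GG (⟨0, 1, 1, 3, 1, 0, 1, 1, 0, 1, 1, 0, 0⟩ : Par) μ * -(1 - y ^ 2) ^ 5 =
        GG (⟨0, 1, 1, 3, 1, 0, 1, 1, 0, 1, 1, 0, 0⟩ : Par) y * (1 - y ^ 2) ^ 5 := by
      rw [← e4, ← mul_assoc, e2, e3, e1]
      ring
    have e6 : (1 - y ^ 2) ^ 5 ≠ 0 := pow_ne_zero _ ht'
    apply mul_right_cancel₀ e6
    linear_combination -e5

private theorem okp_g7 (E : Type) [Field E] (h2 : (2 : E) ≠ 0) (y : E)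
    (ht : tt (⟨15, 75, -10, 2916, -2, 1, 40, 5, -5, -15, 3, 16, 100⟩ : Par) y ≠ 0) :
    GG (⟨15, 75, -10, 2916, -2, 1, 40, 5, -5, -15, 3, 16, 100⟩ : Par) y * (5 - y ^ 2) ^ 5 =
      -(2166 * y ^ 10 + 20900 * y ^ 9 - 106650 * y ^ 8 - 1674000 * y ^ 7 - 3280500 * y ^ 6 +
        23895000 * y ^ 5 + 153697500 * y ^ 4 + 400950000 * y ^ 3 + 560418750 * y ^ 2 +
        410062500 * y + 123018750) := by
  have ht' : (5 : E) - y ^ 2 ≠ 0 := by
    simpa [tt] using ht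
  simp only [GG, al, be, q0, q1, ww, tt, Int.cast_one, Int.cast_ofNat, Int.cast_neg]
  field_simp
  ring

private theorem okp7 (E : Type) [Field E] (h2 : (2 : E) ≠ 0) (h3 : (3 : E) ≠ 0)
    (h5 : (5 : E) ≠ 0) :
    Ok (⟨15, 75, -10, 2916, -2, 1, 40, 5, -5, -15, 3, 16, 100⟩ : Par) E where
  two := h2
  h0 := by
    have : (((-10 : ℤ) : E)) = -(2 * 5) := by push_cast; norm_num
    rw [this]
    exact neg_ne_zero.2 (mul_ne_zero h2 h5)
  s0 := by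
    have : (((2916 : ℤ) : E)) = 2 ^ 2 * 3 ^ 6 := by push_cast; norm_num
    rw [this]
    exact mul_ne_zero (pow_ne_zero _ h2) (pow_ne_zero _ h3)
  x0 := by
    have : (((-2 : ℤ) : E)) = -2 := by push_cast; norm_num
    rw [this]
    exact neg_ne_zero.2 h2
  a0 := by
    have : (((40 : ℤ) : E)) = 2 ^ 3 * 5 := by push_cast; norm_num
    rw [this]
    exact mul_ne_zero (pow_ne_zero _ h2) h5
  b0 := by
    have : (((5 : ℤ) : E)) = 5 := by push_cast; norm_num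
    rw [this]
    exact h5
  e1 := by push_cast; norm_num
  e2 := by push_cast; norm_num
  e3 := by push_cast; norm_num
  e4 := by push_cast; norm_num
  d0 := by push_cast; norm_num
  c0 := by simp only [cc]; push_cast; norm_num
  ff := Or.inr ⟨h5, fun z => by simp only [cc, rr]; push_cast; ring⟩
  m0 := by
    have : (((-5 : ℤ) : E)) ^ 2 + ((-15 : ℤ) : E) * ((3 : ℤ) : E) = -(2 ^ 2 * 5) := by
      push_cast; norm_num
    rw [this]
    exact neg_ne_zero.2 (mul_ne_zero (pow_ne_zero _ h2) h5)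
  gm := by
    intro y hy hk hm
    have hD : 3 * y + 5 ≠ 0 := by
      intro h
      apply hk
      push_cast
      linear_combination h
    have e1 := okp_g7 E h2 y hy
    have e2 := okp_g7 E h2 _ hm
    set μ := mu (⟨15, 75, -10, 2916, -2, 1, 40, 5, -5, -15, 3, 16, 100⟩ : Par) y with hμ
    have hμy : μ * (3 * y + 5) = -5 * y - 15 := by
      rw [hμ, mu]
      have h0 : (((3 : ℤ) : E)) * y - ((-5 : ℤ) : E) = 3 * y + 5 := by push_cast; ring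
      have h1 : (((-5 : ℤ) : E)) * y + ((-15 : ℤ) : E) = -5 * y - 15 := by push_cast; ring
      show (((-5 : ℤ) : E) * y + ((-15 : ℤ) : E)) / (((3 : ℤ) : E) * y - ((-5 : ℤ) : E)) *
        (3 * y + 5) = _
      rw [h0, h1, div_mul_cancel₀ _ hD]
    have ht' : (5 : E) - y ^ 2 ≠ 0 := by simpa [tt] using hy
    have e3 : (-(2166 * μ ^ 10 + 20900 * μ ^ 9 - 106650 * μ ^ 8 - 1674000 * μ ^ 7 -
        3280500 * μ ^ 6 + 23895000 * μ ^ 5 + 153697500 * μ ^ 4 + 400950000 * μ ^ 3 +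
        560418750 * μ ^ 2 + 410062500 * μ + 123018750)) * (3 * y + 5) ^ 10 =
        -(2166 * (μ * (3 * y + 5)) ^ 10 + 20900 * (μ * (3 * y + 5)) ^ 9 * (3 * y + 5) -
        106650 * (μ * (3 * y + 5)) ^ 8 * (3 * y + 5) ^ 2 -
        1674000 * (μ * (3 * y + 5)) ^ 7 * (3 * y + 5) ^ 3 -
        3280500 * (μ * (3 * y + 5)) ^ 6 * (3 * y + 5) ^ 4 +
        23895000 * (μ * (3 * y + 5)) ^ 5 * (3 * y + 5) ^ 5 +
        153697500 * (μ * (3 * y + 5)) ^ 4 * (3 * y + 5) ^ 6 +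
        400950000 * (μ * (3 * y + 5)) ^ 3 * (3 * y + 5) ^ 7 +
        560418750 * (μ * (3 * y + 5)) ^ 2 * (3 * y + 5) ^ 8 +
        410062500 * (μ * (3 * y + 5)) * (3 * y + 5) ^ 9 + 123018750 * (3 * y + 5) ^ 10) := by
      generalize 3 * y + 5 = D
      ring
    rw [hμy] at e3
    have e4 : (5 - μ ^ 2) ^ 5 * (3 * y + 5) ^ 10 = -(20 ^ 5) * (5 - y ^ 2) ^ 5 := by
      have : (5 - μ ^ 2) * (3 * y + 5) ^ 2 = -20 * (5 - y ^ 2) := by
        have : (5 - μ ^ 2) * (3 * y + 5) ^ 2 = 5 * (3 * y + 5) ^ 2 - (μ * (3 * y + 5)) ^ 2 := by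
          ring
        rw [this, hμy]
        ring
      calc (5 - μ ^ 2) ^ 5 * (3 * y + 5) ^ 10 = ((5 - μ ^ 2) * (3 * y + 5) ^ 2) ^ 5 := by ring
        _ = _ := by rw [this]; ring
    have e5 : GG (⟨15, 75, -10, 2916, -2, 1, 40, 5, -5, -15, 3, 16, 100⟩ : Par) μ *
        (-(20 ^ 5) * (5 - y ^ 2) ^ 5) =
        20 ^ 5 * (GG (⟨15, 75, -10, 2916, -2, 1, 40, 5, -5, -15, 3, 16, 100⟩ : Par) y *
          (5 - y ^ 2) ^ 5) := by
      rw [← e4, ← mul_assoc, e2, e3, e1]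
      ring
    have h20 : (20 : E) ^ 5 ≠ 0 := by
      have : (20 : E) = 2 ^ 2 * 5 := by norm_num
      rw [this]
      exact pow_ne_zero _ (mul_ne_zero (pow_ne_zero _ h2) h5)
    have e6 : 20 ^ 5 * (5 - y ^ 2) ^ 5 ≠ 0 := mul_ne_zero h20 (pow_ne_zero _ ht')
    apply mul_right_cancel₀ e6
    linear_combination -e5

theorem tOkp : S_Okp := by
  intro p hp h5p E _ _
  have hpp : p.Prime := hp.out
  have hne : ∀ n : ℕ, n.Prime → n ≠ p → (n : E) ≠ 0 := by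
    intro n hn hnp h
    rw [CharP.cast_eq_zero_iff E p] at h
    exact hnp ((Nat.prime_dvd_prime_iff_eq hpp hn).1 h).symm
  have h2 : (2 : E) ≠ 0 := by
    have := hne 2 Nat.prime_two (by omega)
    exact_mod_cast this
  have h3 : (3 : E) ≠ 0 := by
    have := hne 3 Nat.prime_three (by omega)
    exact_mod_cast this
  by_cases h : p = 5
  · have h5 : (5 : E) = 0 := by
      have := CharP.cast_eq_zero E p
      rw [h] at this
      exact_mod_cast this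
    rw [par, if_pos h]
    exact okp5 E h2 h5
  · have h5 : (5 : E) ≠ 0 := by
      have := hne 5 (by norm_num) (fun h' => h h'.symm)
      exact_mod_cast this
    rw [par, if_neg h]
    exact okp7 E h2 h3 h5

end MP7A
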