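import Pool.Agent.Lib.MP_7f581e_A6.SpecB

/-!
# Module Pm6: subgroups of `S_6`
-/

set_option autoImplicit false

namespace MP7A

open Polynomial MP7Sh Equiv

open scoped Classical

/-- An element of order five fixes one point and permutes the other ones transitively. -/
private theorem orb (c : Perm (Fin 6)) (hc : orderOf c = 5) :
    ∃ i₀ : Fin 6, c i₀ = i₀ ∧ ∃ i, i ≠ i₀ ∧ ∀ j, j ≠ i₀ → ∃ n : ℕ, n < 5 ∧ j = (c ^ n) i := by
  have h5 : c ^ 5 = 1 := by rw [← hc]; exact pow_orderOf_eq_one c
  obtain ⟨i, hi⟩ : ∃ i, c i ≠ i := by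
    by_contra hcon
    push Not at hcon
    have h1 : c = 1 := Equiv.ext hcon
    rw [h1, orderOf_one] at hc
    omega
  have hfix : ∀ d : ℕ, 0 < d → d < 5 → (c ^ d) i ≠ i := by
    intro d hd0 hd5 hd
    have hst : c ^ d ∈ MulAction.stabilizer (Perm (Fin 6)) i := hd
    apply hi
    have h1 : c ∈ MulAction.stabilizer (Perm (Fin 6)) i := by
      have key : ∀ e : ℕ, c ^ (d * e) ∈ MulAction.stabilizer (Perm (Fin 6)) i := by
        intro e
        rw [pow_mul]
        exact Subgroup.pow_mem _ hst e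
      have hd' : d = 1 ∨ d = 2 ∨ d = 3 ∨ d = 4 := by omega
      rcases hd' with rfl | rfl | rfl | rfl
      · have := key 1
        rwa [mul_one, pow_one] at this
      · have h2 := key 3
        have h3 : c ^ (2 * 3) = c := by
          rw [show 2 * 3 = 5 + 1 by norm_num, pow_add, h5, one_mul, pow_one]
        rwa [h3] at h2
      · have h2 := key 2
        have h3 : c ^ (3 * 2) = c := by
          rw [show 3 * 2 = 5 + 1 by norm_num, pow_add, h5, one_mul, pow_one]
        rwa [h3] at h2
      · have h2 := key 4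
        have h3 : c ^ (4 * 4) = c := by
          rw [show 4 * 4 = 5 * 3 + 1 by norm_num, pow_add, pow_mul, h5, one_pow, one_mul, pow_one]
        rwa [h3] at h2
    exact h1
  have hlt : ∀ n m : ℕ, n < m → m < 5 → (c ^ n) i ≠ (c ^ m) i := by
    intro n m hnm hm h
    apply hfix (m - n) (by omega) (by omega)
    have h1 : c ^ m = c ^ n * c ^ (m - n) := by
      rw [← pow_add]
      congr 1
      omega
    rw [h1, Perm.mul_apply] at h
    exact ((c ^ n).injective h).symm
  let O : Finset (Fin 6) := (Finset.range 5).image fun n => (c ^ n) i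
  have hOc : O.card = 5 := by
    rw [Finset.card_image_of_injOn, Finset.card_range]
    intro n hn m hm h
    rw [Finset.mem_coe, Finset.mem_range] at hn hm
    rcases lt_trichotomy n m with h1 | h1 | h1
    · exact absurd h (hlt n m h1 hm)
    · exact h1
    · exact absurd h.symm (hlt m n h1 hn)
  have hmemO : ∀ m : ℕ, (c ^ m) i ∈ O := by
    intro m
    refine Finset.mem_image.2 ⟨m % 5, Finset.mem_range.2 (Nat.mod_lt _ (by norm_num)), ?_⟩
    have h1 : c ^ m = c ^ (m % 5) := by
      rw [← hc, pow_mod_orderOf]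
    rw [h1]
  have hcompl : (Oᶜ).card = 1 := by
    rw [Finset.card_compl, hOc, Fintype.card_fin]
  obtain ⟨i₀, hi₀⟩ := Finset.card_eq_one.1 hcompl
  have hmem : ∀ j, j ∉ O ↔ j = i₀ := by
    intro j
    rw [← Finset.mem_compl, hi₀, Finset.mem_singleton]
  have hi0 : i₀ ∉ O := (hmem i₀).2 rfl
  refine ⟨i₀, ?_, i, ?_, ?_⟩
  · rw [← hmem]
    intro h
    obtain ⟨n, hn, h1⟩ := Finset.mem_image.1 h
    apply hi0
    have h2 : i₀ = (c ^ (n + 4)) i := by
      apply c.injective
      rw [← h1]
      change (c ^ n) i = c ((c ^ (n + 4)) i)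
      rw [← Perm.mul_apply, ← pow_succ', show n + 4 + 1 = n + 5 by omega, pow_add, h5, mul_one]
    rw [h2]
    exact hmemO _
  · intro h
    apply hi0
    rw [← h]
    have := hmemO 0
    rwa [pow_zero] at this
  · intro j hj
    have h1 : j ∈ O := by
      by_contra h
      exact hj ((hmem j).1 h)
    obtain ⟨n, hn, h2⟩ := Finset.mem_image.1 h1
    exact ⟨n, Finset.mem_range.1 hn, h2.symm⟩

theorem tPm6 : S_Pm6 := by
  intro H c i j hc hord hij hsw hfix
  have h5 : c ^ 5 = 1 := by rw [← hord]; exact pow_orderOf_eq_one c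
  obtain ⟨i₀, hci₀, a, ha, hall⟩ := orb c hord
  have hcn : ∀ n : ℕ, (c ^ n) i₀ = i₀ := by
    intro n
    induction n with
    | zero => rfl
    | succ n ih => rw [pow_succ, Perm.mul_apply, hci₀, ih]
  have hcH : ∀ n : ℕ, c ^ n ∈ H := fun n => H.pow_mem hc n
  have htr : ∀ k l m : Fin 6, swap k l ∈ H → swap l m ∈ H → swap k m ∈ H := by
    intro k l m h1 h2
    exact SubmonoidClass.swap_mem_trans H h1 h2
  have hco : ∀ h ∈ H, ∀ k l : Fin 6, swap k l ∈ H → swap (h k) (h l) ∈ H := by
    intro h hh k l h1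
    rw [Equiv.swap_apply_apply]
    exact H.mul_mem (H.mul_mem hh h1) (H.inv_mem hh)
  -- some transposition moves `i₀`
  have key : ∃ k, k ≠ i₀ ∧ swap i₀ k ∈ H := by
    by_cases hi : i = i₀
    · exact ⟨j, fun h => hij (hi.trans h.symm), by rw [← hi]; exact hsw⟩
    by_cases hj : j = i₀
    · exact ⟨i, hi, by rw [← hj, swap_comm]; exact hsw⟩
    obtain ⟨n, hn, hin⟩ := hall i hi
    obtain ⟨m, hm, hjm⟩ := hall j hj
    -- `j = c ^ d i`
    obtain ⟨d, hd⟩ : ∃ d : ℕ, j = (c ^ d) i := by
      refine ⟨m + (5 - n), ?_⟩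
      rw [hin, ← Perm.mul_apply, ← pow_add, show m + (5 - n) + n = m + 5 by omega, pow_add, h5,
        mul_one]
      exact hjm
    have hd5 : d % 5 ≠ 0 := by
      intro h
      apply hij
      have h1 : c ^ d = 1 := by
        rw [← orderOf_dvd_iff_pow_eq_one, hord]
        exact Nat.dvd_of_mod_eq_zero h
      rw [hd, h1]
      rfl
    have hmul : ∀ e : ℕ, swap i ((c ^ (e * d)) i) ∈ H := by
      intro e
      induction e with
      | zero =>
        rw [zero_mul, pow_zero]
        change swap i i ∈ H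
        rw [swap_self]
        exact H.one_mem
      | succ e ih =>
        refine htr _ _ _ ih ?_
        have h1 := hco (c ^ (e * d)) (hcH _) i j hsw
        rw [hd, ← Perm.mul_apply, ← pow_add] at h1
        rw [show (e + 1) * d = e * d + d by ring]
        exact h1
    have hiall : ∀ l, l ≠ i₀ → swap i l ∈ H := by
      intro l hl
      obtain ⟨s, hs, hls⟩ := hall l hl
      -- `l = c ^ (s + 5 - n) i`
      have h1 : l = (c ^ (s + (5 - n))) i := by
        rw [hin, ← Perm.mul_apply, ← pow_add, show s + (5 - n) + n = s + 5 by omega, pow_add, h5,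
          mul_one]
        exact hls
      obtain ⟨e, he⟩ : ∃ e : ℕ, (e * d) % 5 = (s + (5 - n)) % 5 := by
        have hfin : ∀ x y : Fin 5, x ≠ 0 → ∃ z : Fin 5, z * x = y := by decide
        obtain ⟨z, hz⟩ := hfin ⟨d % 5, Nat.mod_lt _ (by norm_num)⟩
          ⟨(s + (5 - n)) % 5, Nat.mod_lt _ (by norm_num)⟩ (by
            intro h
            exact hd5 (congrArg Fin.val h))
        refine ⟨z, ?_⟩
        have h2 := congrArg Fin.val hz
        rw [Fin.val_mul] at h2
        change ((z : ℕ) * (d % 5)) % 5 = (s + (5 - n)) % 5 at h2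
        rw [← h2]
        exact (Nat.mul_mod_mod (z : ℕ) d 5).symm
      have h3 : c ^ (s + (5 - n)) = c ^ (e * d) := by
        rw [← pow_mod_orderOf c (s + (5 - n)), ← pow_mod_orderOf c (e * d), hord, he]
      rw [h1, h3]
      exact hmul e
    obtain ⟨h, hh, hhi⟩ := hfix i₀
    set p : Fin 6 := h⁻¹ i₀ with hp
    have hhp : h p = i₀ := by
      rw [hp, ← Perm.mul_apply, mul_inv_cancel]
      rfl
    have hpi : p ≠ i₀ := by
      intro h1
      rw [h1] at hhp
      exact hhi hhp
    obtain ⟨l, hl1, hl2⟩ : ∃ l : Fin 6, l ≠ i₀ ∧ l ≠ p := by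
      have : ∀ x y : Fin 6, ∃ l : Fin 6, l ≠ x ∧ l ≠ y := by decide
      exact this i₀ p
    have h1 : swap p l ∈ H := by
      refine htr p i l ?_ (hiall l hl1)
      rw [swap_comm]
      exact hiall p hpi
    have h2 := hco h hh p l h1
    rw [hhp] at h2
    refine ⟨h l, ?_, h2⟩
    intro h3
    apply hl2
    apply h.injective
    rw [h3, hhp]
  obtain ⟨k, hk, hsk⟩ := key
  obtain ⟨n, hn, hkn⟩ := hall k hk
  have hstar : ∀ l, swap i₀ l ∈ H := by
    intro l
    by_cases hl : l = i₀
    · rw [hl, swap_self]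
      exact H.one_mem
    · obtain ⟨s, hs, hls⟩ := hall l hl
      have h1 : l = (c ^ (s + (5 - n))) k := by
        rw [hkn, ← Perm.mul_apply, ← pow_add, show s + (5 - n) + n = s + 5 by omega, pow_add, h5,
          mul_one]
        exact hls
      have h2 := hco (c ^ (s + (5 - n))) (hcH _) i₀ k hsk
      rw [hcn, ← h1] at h2
      exact h2
  rw [eq_top_iff, ← Equiv.Perm.closure_isSwap, Subgroup.closure_le]
  rintro σ ⟨x, y, hxy, rfl⟩
  refine htr x i₀ y ?_ (hstar y)
  rw [swap_comm]
  exact hstar x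

end MP7A
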