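import Pool.Agent.Lib.MP_7f581e_A6.SpecD

/-!
# MP_7f581e_nt, a GA realization of `A_6`: the discriminant of the sextic (`S_Prj`)
-/

set_option autoImplicit false

namespace MP7A

open Polynomial MP7Sh Equiv

open scoped Classical

/-- Value of the derivative of a product at a root. -/
private theorem der_root {E : Type} [Field E] (x : Fin 6 → E) (i : Fin 6) :
    (derivative (∏ j, (X - C (x j)))).eval (x i) = ∏ j ∈ {i}ᶜ, (x i - x j) := by
  rw [derivative_prod_finset, eval_finsetSum, Finset.sum_eq_single i]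
  · rw [eval_mul, eval_prod]
    simp only [derivative_sub, derivative_X, derivative_C, sub_zero, eval_one, mul_one, eval_sub,
      eval_X, eval_C]
    apply Finset.prod_congr _ (fun _ _ => rfl)
    ext j
    simp
  · intro j _ hj
    rw [eval_mul, eval_prod]
    have : ∏ k ∈ Finset.univ.erase j, eval (x i) (X - C (x k)) = 0 := by
      apply Finset.prod_eq_zero (i := i)
      · simp [Ne.symm hj]
      · simp
    rw [this, zero_mul]
  · intro h
    exact absurd (Finset.mem_univ i) h

private theorem vdm {E : Type} [Field E] (x : Fin 6 → E) :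
    ∏ i, ∏ j ∈ ({i}ᶜ : Finset (Fin 6)), (x i - x j) =
      -(∏ i : Fin 6, ∏ j ∈ Finset.Ioi i, (x j - x i)) ^ 2 := by
  rw [← Finset.prod_prod_Ioi_mul_eq_prod_prod_off_diag (fun j i => x i - x j)]
  have h1 : ∀ i j : Fin 6, (x i - x j) * (x j - x i) = (-1) * (x j - x i) ^ 2 := by
    intro i j; ring
  simp only [h1]
  simp only [Finset.prod_mul_distrib, Finset.prod_pow, Finset.prod_const]
  have h2 : (∏ i : Fin 6, (-1 : E) ^ (Finset.Ioi i).card) = -1 := by
    simp [Fin.prod_univ_succ]
    norm_num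
  rw [h2]
  ring

/-- `N_T(z) = ∏ (x i - z)`. -/
private theorem nn_prod (q : Par) {E : Type} [Field E] (T : E) (x : Fin 6 → E)
    (hx : NN q T = ∏ i, (X - C (x i))) (z : E) : ∏ i, (x i - z) = nn q T z := by
  have h1 : (NN q T).eval z = nn q T z := by
    simp [NN, nn, cc]
  rw [← h1, hx, eval_prod]
  simp only [eval_sub, eval_X, eval_C, Fin.prod_univ_six]
  ring

/-- A root of a monic cubic polynomial. -/
private theorem root3 {K : Type} [Field K] [IsAlgClosed K] (e g h : K) :
    ∃ z : K, z ^ 3 + e * z ^ 2 + g * z + h = 0 := by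
  have hd : (X ^ 3 + C e * X ^ 2 + C g * X + C h : K[X]).natDegree = 3 := by
    compute_degree!
  have hd2 : (X ^ 3 + C e * X ^ 2 + C g * X + C h : K[X]).degree ≠ 0 := by
    intro h0
    have := natDegree_eq_zero_iff_degree_le_zero.2 h0.le
    omega
  obtain ⟨z, hz⟩ := IsAlgClosed.exists_root _ hd2
  refine ⟨z, ?_⟩
  simpa [IsRoot] using hz

private theorem root2 {K : Type} [Field K] [IsAlgClosed K] (a b c : K) (ha : a ≠ 0) :
    ∃ z : K, a * z ^ 2 + b * z + c = 0 := by
  have hd : (C a * X ^ 2 + C b * X + C c : K[X]).natDegree = 2 := by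
    compute_degree!
  have hd2 : (C a * X ^ 2 + C b * X + C c : K[X]).degree ≠ 0 := by
    intro h0
    have := natDegree_eq_zero_iff_degree_le_zero.2 h0.le
    omega
  obtain ⟨z, hz⟩ := IsAlgClosed.exists_root _ hd2
  refine ⟨z, ?_⟩
  simpa [IsRoot] using hz

/-- A monic cubic splits. -/
private theorem split3 {K : Type} [Field K] [IsAlgClosed K] (e g h : K) :
    ∃ a b c : K, ∀ z : K, z ^ 3 + e * z ^ 2 + g * z + h = (z - a) * (z - b) * (z - c) := by
  obtain ⟨a, ha⟩ := root3 e g h
  obtain ⟨b, hb⟩ := root2 1 (e + a) (g + (e + a) * a) one_ne_zero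
  refine ⟨a, b, -(e + a) - b, fun z => ?_⟩
  linear_combination ha - (a - z) * hb

private theorem split2 {K : Type} [Field K] [IsAlgClosed K] (a b c : K) (ha : a ≠ 0) :
    ∃ u v : K, ∀ z : K, a * z ^ 2 + b * z + c = a * ((z - u) * (z - v)) := by
  obtain ⟨u, hu⟩ := root2 a b c ha
  refine ⟨u, -(b / a) - u, fun z => ?_⟩
  field_simp
  linear_combination hu

section map

variable (q : Par) {E K : Type} [Field E] [Field K] (f : E →+* K)

private theorem map_cc (z : E) : f (cc q z) = cc q (f z) := by simp [cc]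

private theorem map_rr (z : E) : f (rr q z) = rr q (f z) := by
  simp [rr, map_ofNat]

private theorem map_NN (T : E) : (NN q T).map f = NN q (f T) := by
  simp [NN, Polynomial.map_add, Polynomial.map_mul, Polynomial.map_pow]

private theorem map_eq (T : E) (x : Fin 6 → E) (hx : NN q T = ∏ i, (X - C (x i))) :
    NN q (f T) = ∏ i, (X - C (f (x i))) := by
  rw [← map_NN, hx, Polynomial.map_prod]
  simp

end map

/-- The product of the `C(x i)`. -/
private theorem prod_cc (q : Par) {E : Type} [Field E] (T : E) (x : Fin 6 → E)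
    (hx : NN q T = ∏ i, (X - C (x i))) : ∏ i, cc q (x i) = (q.s - T) ^ 3 * (-q.h) := by
  let K := AlgebraicClosure E
  let f : E →+* K := algebraMap E K
  have hf : Function.Injective f := f.injective
  apply hf
  obtain ⟨a, b, c, h⟩ := split3 (K := K) (q.e : K) (q.g : K) (q.h : K)
  have hcc : ∀ z : K, cc q z = (z - a) * (z - b) * (z - c) := fun z => h z
  have hP := nn_prod q (f T) (fun i => f (x i)) (map_eq q f T x hx)
  rw [map_prod]
  simp only [map_cc, hcc, Finset.prod_mul_distrib, hP]
  simp only [nn, hcc, map_mul, map_pow, map_sub, map_neg, map_intCast]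
  have h0 := h 0
  simp only [ne_eq, OfNat.ofNat_ne_zero, not_false_eq_true, zero_pow, mul_zero, add_zero,
    zero_add] at h0
  linear_combination ((q.s : K) - f T) ^ 3 * h0

/-- The product of the `R(x i)`. -/
private theorem prod_rr (q : Par) {E : Type} [Field E] (hq : Ok q E) (T : E) (x : Fin 6 → E)
    (hx : NN q T = ∏ i, (X - C (x i))) (hi : Function.Injective x) :
    ∏ i, rr q (x i) = if (5 : E) = 0 then (q.g : E) ^ 6
      else 5 ^ 5 * T ^ 2 * (q.g + (3 * q.e + 5 * q.x) * q.x) := by
  rcases hq.ff with ⟨h5, h3⟩ | ⟨h5, hff⟩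
  · rw [if_pos h5]
    have h : ∀ z : E, rr q z = q.g := by
      intro z
      unfold rr
      linear_combination (z ^ 2 + q.x * z + q.x * q.x) * h5 + (z + q.x) * h3
    simp only [h, Finset.prod_const, Finset.card_univ, Fintype.card_fin]
  · rw [if_neg h5]
    let K := AlgebraicClosure E
    let f : E →+* K := algebraMap E K
    have hf : Function.Injective f := f.injective
    have h5K : (5 : K) ≠ 0 := by
      intro h
      apply h5
      apply hf
      rw [map_zero, map_ofNat, h]
    -- the polynomial identity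
    let D : E[X] := C 25 * ((X ^ 3 + C (q.e : E) * X ^ 2 + C (q.g : E) * X + C (q.h : E)) ^ 2 +
      C (q.s : E) * X) - (C 5 * X ^ 2 + C (3 * q.e + 5 * q.x : E) * X +
        C (q.g + (3 * q.e + 5 * q.x) * q.x : E)) ^ 2 * (X ^ 2 + C (q.u : E) * X + C (q.w : E))
    have hD0 : ∀ z : E, D.eval z = 0 := by
      intro z
      have := hff z
      simp only [cc, rr] at this
      simp only [D, eval_sub, eval_mul, eval_add, eval_pow, eval_X, eval_C]
      linear_combination this
    have hDd : D.natDegree < 6 := by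
      have : D = C (50 * q.e - (25 * q.u + 10 * (3 * q.e + 5 * q.x)) : E) * X ^ 5 +
          C (25 * (q.e ^ 2 + 2 * q.g) - (25 * q.w + 10 * (3 * q.e + 5 * q.x) * q.u +
            ((3 * q.e + 5 * q.x) ^ 2 + 10 * (q.g + (3 * q.e + 5 * q.x) * q.x))) : E) * X ^ 4 +
          C (25 * (2 * q.h + 2 * q.e * q.g) - (10 * (3 * q.e + 5 * q.x) * q.w +
            ((3 * q.e + 5 * q.x) ^ 2 + 10 * (q.g + (3 * q.e + 5 * q.x) * q.x)) * q.u +
            2 * (3 * q.e + 5 * q.x) * (q.g + (3 * q.e + 5 * q.x) * q.x)) : E) * X ^ 3 +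
          C (25 * (q.g ^ 2 + 2 * q.e * q.h) -
            (((3 * q.e + 5 * q.x) ^ 2 + 10 * (q.g + (3 * q.e + 5 * q.x) * q.x)) * q.w +
            2 * (3 * q.e + 5 * q.x) * (q.g + (3 * q.e + 5 * q.x) * q.x) * q.u +
            (q.g + (3 * q.e + 5 * q.x) * q.x) ^ 2) : E) * X ^ 2 +
          C (25 * (2 * q.g * q.h + q.s) -
            (2 * (3 * q.e + 5 * q.x) * (q.g + (3 * q.e + 5 * q.x) * q.x) * q.w +
            (q.g + (3 * q.e + 5 * q.x) * q.x) ^ 2 * q.u) : E) * X +
          C (25 * q.h ^ 2 - (q.g + (3 * q.e + 5 * q.x) * q.x) ^ 2 * q.w : E) := by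
        simp only [D, map_sub, map_add, map_mul, map_pow, map_ofNat, map_intCast]
        ring
      rw [this]
      compute_degree!
    have hDz : D = 0 := by
      apply eq_zero_of_natDegree_lt_card_of_eval_eq_zero D hi (fun i => hD0 _)
      simpa using hDd
    have hffK : ∀ z : K, 25 * (cc q z ^ 2 + q.s * z) = rr q z ^ 2 * (z ^ 2 + q.u * z + q.w) := by
      intro z
      have h1 : (D.map f).eval z = 0 := by rw [hDz]; simp
      simp only [D, Polynomial.map_sub, Polynomial.map_mul, Polynomial.map_add,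
        Polynomial.map_pow, Polynomial.map_X, Polynomial.map_C, eval_sub, eval_mul, eval_add,
        eval_pow, eval_X, eval_C] at h1
      simp only [map_add, map_mul, map_ofNat, map_intCast] at h1
      simp only [cc, rr]
      linear_combination h1
    obtain ⟨u, v, huv⟩ := split2 (K := K) 5 (3 * q.e + 5 * q.x)
      (q.g + (3 * q.e + 5 * q.x) * q.x) h5K
    have hrr : ∀ z : K, rr q z = 5 * ((z - u) * (z - v)) := fun z => huv z
    have hP := nn_prod q (f T) (fun i => f (x i)) (map_eq q f T x hx)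
    have h25 : (25 : K) ≠ 0 := by
      have : (25 : K) = 5 ^ 2 := by norm_num
      rw [this]
      exact pow_ne_zero _ h5K
    have key : ∀ z : K, rr q z = 0 → nn q (f T) z = -(f T) * z := by
      intro z hz
      have h1 := hffK z
      rw [hz] at h1
      have h2 : cc q z ^ 2 + q.s * z = 0 := by
        have : (25 : K) * (cc q z ^ 2 + q.s * z) = 0 := by rw [h1]; ring
        exact (mul_eq_zero.1 this).resolve_left h25
      unfold nn
      linear_combination h2
    have hu : nn q (f T) u = -(f T) * u := key u (by rw [hrr]; ring)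
    have hv : nn q (f T) v = -(f T) * v := key v (by rw [hrr]; ring)
    apply hf
    rw [map_prod]
    simp only [map_rr, hrr, Finset.prod_mul_distrib, hP, Finset.prod_const, Finset.card_univ,
      Fintype.card_fin, hu, hv]
    simp only [map_mul, map_pow, map_add, map_ofNat, map_intCast]
    have h0 := huv 0
    linear_combination (-(5 : K) ^ 5 * f T ^ 2) * h0

theorem tPrj (h1 : S_Der) : S_Prj := by
  intro q E _ hq T x hx
  have hP := nn_prod q T x hx.eq
  have hroot : ∀ i, nn q T (x i) = 0 := by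
    intro i
    rw [← hP (x i)]
    exact Finset.prod_eq_zero (Finset.mem_univ i) (sub_self _)
  set V := ∏ i : Fin 6, ∏ j ∈ Finset.Ioi i, (x j - x i) with hV
  have e1 : ∏ i, (derivative (NN q T)).eval (x i) = -V ^ 2 := by
    rw [hx.eq]
    simp only [der_root]
    exact vdm x
  have e2 : (∏ i, (derivative (NN q T)).eval (x i)) * ∏ i, x i =
      (∏ i, cc q (x i)) * ((∏ i, (x i - q.x)) * ∏ i, rr q (x i)) := by
    rw [← Finset.prod_mul_distrib, ← Finset.prod_mul_distrib, ← Finset.prod_mul_distrib]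
    exact Finset.prod_congr rfl fun i _ => (h1 q E hq T (x i)).2.2.2.1 (hroot i)
  have e3 : ∏ i, x i = (q.h : E) ^ 2 := by
    have := hP 0
    simp only [sub_zero] at this
    rw [this]
    simp [nn, cc]
  have e4 := hP (q.x : E)
  have e5 := prod_cc q T x hx.eq
  have e6 := prod_rr q hq T x hx.eq hx.inj
  rw [e1, e3, e4, e5, e6] at e2
  have e7 : nn q T (q.x : E) = -(q.s + T) * q.x := by
    unfold nn
    linear_combination hq.c0
  rw [e7] at e2
  have hh : (q.h : E) ^ 2 ≠ 0 := pow_ne_zero _ hq.h0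
  apply mul_right_cancel₀ hh
  have d0 := hq.d0
  by_cases h5 : (5 : E) = 0
  · rw [if_pos h5] at e2 ⊢
    rcases hq.ff with ⟨_, h3⟩ | ⟨h5', _⟩
    · have d1 : (q.x : E) * q.g = q.h := by
        linear_combination d0 - (q.x * q.x * q.x) * h5 - (q.x * q.x) * h3
      linear_combination (-1 : E) * e2 +
        ((q.g : E) ^ 5 * (T - q.s) ^ 3 * (T + q.s) * q.h) * d1
    · exact absurd h5 h5'
  · rw [if_neg h5] at e2 ⊢
    linear_combination (-1 : E) * e2 +
      (5 ^ 5 * (T - q.s) ^ 3 * (T + q.s) * T ^ 2 * q.h) * d0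

end MP7A
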