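import Pool.Agent.Lib.MP_7f581e_A6.SpecB

/-!
# MP_7f581e_nt, a GA realization of `A_6`: `y` is a rational function of `α` and `β`
-/

set_option autoImplicit false

namespace MP7A

open Polynomial MP7Sh Equiv

open scoped Classical

theorem tRcv : S_Rcv := by
  intro q E _ hok y hy hal hrw K hA hB
  have h2 := hok.two
  have h4 : (4 : E) ≠ 0 := by
    have : (4 : E) = 2 * 2 := by norm_num
    rw [this]
    exact mul_ne_zero h2 h2
  have hw0 : ww q y ≠ 0 := div_ne_zero hok.a0 hy
  -- the integers are in `K`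
  have hint : ∀ n : ℤ, (n : E) ∈ K := fun n => intCast_mem K n
  have hw : ww q y ∈ K := by
    have h1 : ww q y = be q y / al q y := by
      unfold be
      field_simp
    rw [h1]
    exact K.div_mem hB hA
  have m2 : (2 : E) ∈ K := by simp
  have m4 : (4 : E) ∈ K := by simp
  have hq : q0 q y ∈ K := by
    have h1 : q0 q y = (al q y - ww q y ^ 2 / 2 + q.e * ww q y - (q.e : E) ^ 2 / 2 + 2 * q.g) / 4 := by
      rw [eq_div_iff h4]
      unfold al
      ring
    rw [h1]
    exact K.div_mem (K.add_mem (K.sub_mem (K.add_mem (K.sub_mem hA (K.div_mem (K.pow_mem hw 2) m2))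
      (K.mul_mem (hint _) hw)) (K.div_mem (K.pow_mem (hint _) 2) m2)) (K.mul_mem m2 (hint _))) m4
  have hyy : y = 2 * (q0 q y - ww q y ^ 2) / (((q.r : E) * ww q y + 1) * ww q y) := by
    rw [eq_div_iff (mul_ne_zero hrw hw0)]
    have h1 : q0 q y = ww q y ^ 2 + (q.r * ww q y + 1) * (y * ww q y) / 2 := rfl
    rw [h1]
    field_simp
    ring
  rw [hyy]
  exact K.div_mem (K.mul_mem m2 (K.sub_mem hq (K.pow_mem hw 2)))
    (K.mul_mem (K.add_mem (K.mul_mem (hint _) hw) K.one_mem) hw)

end MP7A
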