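import Pool.Agent.Lib.MP_7f581e_A6.SpecB

/-!
# MP_7f581e_nt, a GA realization of `A_6`: `S_Rho`
-/

set_option autoImplicit false

namespace MP7A

open Polynomial MP7Sh Equiv

open scoped Classical

private theorem Rho_map (q : Par) {κ F : Type} [Field κ] [Field F] [Algebra κ F] (T : F)
    (σ : F ≃ₐ[κ] F) (hσ : σ T = T) (z : F) : nn q T (σ z) = σ (nn q T z) := by
  unfold nn cc
  simp only [map_add, map_sub, map_mul, map_pow, map_intCast, hσ]

theorem tRho (h1 : S_Der) : S_Rho := by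
  intro q κ F _ _ _ T x hq hx
  have hroot : ∀ z : F, nn q T z = 0 → ∃ j, z = x j := by
    intro z hz
    have h2 := (h1 q F hq T z).2.1
    rw [hz, hx.eq, eval_prod] at h2
    obtain ⟨j, -, hj⟩ := Finset.prod_eq_zero_iff.1 h2
    refine ⟨j, ?_⟩
    rw [eval_sub, eval_X, eval_C] at hj
    exact sub_eq_zero.1 hj
  have hx0 : ∀ i, nn q T (x i) = 0 := by
    intro i
    rw [← (h1 q F hq T (x i)).2.1, hx.eq, eval_prod]
    refine Finset.prod_eq_zero (Finset.mem_univ i) ?_
    rw [eval_sub, eval_X, eval_C, sub_self]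
  have hex : ∀ (σ : MulAction.stabilizer (F ≃ₐ[κ] F) T) (i : Fin 6),
      ∃ j, (σ : F ≃ₐ[κ] F) (x i) = x j := by
    intro σ i
    apply hroot
    rw [Rho_map q T _ σ.2, hx0, map_zero]
  choose e he using hex
  have hinj : ∀ σ, Function.Injective (e σ) := by
    intro σ i j hij
    apply hx.inj
    apply (σ : F ≃ₐ[κ] F).injective
    rw [he, he, hij]
  refine ⟨MonoidHom.mk' (fun σ => Equiv.ofBijective (e σ)
    (Finite.injective_iff_bijective.1 (hinj σ))) ?_, ?_⟩
  · intro σ τ
    ext i : 1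
    apply hx.inj
    change x (e (σ * τ) i) = x (e σ (e τ i))
    rw [← he, ← he, ← he]
    rfl
  · intro σ i
    exact he σ i

end MP7A
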