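import Pool.Agent.Lib.MP_7f581e_A6.SpecB
import Pool.Agent.Lib.MP_7f581e_Sh.Val
import Pool.Agent.Lib.MP_7f581e_Sh.Plx
import Pool.Agent.Lib.MP_7f581e_Sh.Pla

/-!
# Module Swp: the place over `T = - σ`
-/

set_option autoImplicit false

namespace MP7A

open Polynomial MP7Sh Equiv

open scoped Classical

/-- The polynomial identity `X N' - N = C (X - ξ) R`. -/
private theorem swp_pid (q : Par) (κ : Type) [Field κ] (hκ : Ok q κ) :
    X * derivative (NN q (-(q.s : κ))) - NN q (-(q.s : κ)) =
      (X - C (q.x : κ)) * ((X ^ 3 + C (q.e : κ) * X ^ 2 + C (q.g : κ) * X + C (q.h : κ)) *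
        (5 * X ^ 2 + (3 * C (q.e : κ) + 5 * C (q.x : κ)) * X +
          (C (q.g : κ) + (3 * C (q.e : κ) + 5 * C (q.x : κ)) * C (q.x : κ)))) := by
  have d0' : C (q.x : κ) * (C (q.g : κ) + (3 * C (q.e : κ) + 5 * C (q.x : κ)) * C (q.x : κ)) =
      C (q.h : κ) := by
    rw [← hκ.d0]
    simp only [map_mul, map_add, map_ofNat]
  have hd : derivative (X ^ 3 + C (q.e : κ) * X ^ 2 + C (q.g : κ) * X + C (q.h : κ)) =
      3 * X ^ 2 + 2 * C (q.e : κ) * X + C (q.g : κ) := by
    have e3 : (C (((3 : ℕ) : κ)) : κ[X]) = 3 := by rw [Nat.cast_ofNat, C_ofNat]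
    have e2 : (C (((2 : ℕ) : κ)) : κ[X]) = 2 := by rw [Nat.cast_ofNat, C_ofNat]
    rw [derivative_add, derivative_add, derivative_add, derivative_mul, derivative_mul,
      derivative_C, derivative_C, derivative_C, derivative_X_pow, derivative_X_pow, derivative_X,
      e3, e2]
    ring
  have hN : derivative (NN q (-(q.s : κ))) =
      2 * (X ^ 3 + C (q.e : κ) * X ^ 2 + C (q.g : κ) * X + C (q.h : κ)) *
        (3 * X ^ 2 + 2 * C (q.e : κ) * X + C (q.g : κ)) + C (q.s - -(q.s : κ)) := by
    rw [NN, derivative_add, pow_two, derivative_mul, hd, derivative_mul, derivative_C,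
      derivative_X]
    ring
  rw [hN, NN]
  linear_combination
    (X ^ 3 + C (q.e : κ) * X ^ 2 + C (q.g : κ) * X + C (q.h : κ)) * d0'

/-- The roots of `N_{-σ}`. -/
private theorem swp_nf (h1 : S_Der) (q : Par) (κ : Type) [Field κ] (hκ : Ok q κ) (b : Fin 6 → κ)
    (hP : NN q (-(q.s : κ)) = ∏ i, (X - C (b i))) :
    ∃ i j : Fin 6, i ≠ j ∧ b i = q.x ∧ b j = q.x ∧ (∀ l, l ≠ i → l ≠ j → b l ≠ q.x) ∧
      ∀ l m, b l = b m → l ≠ m → b l = q.x := by
  have hD := h1 q κ hκ (-(q.s : κ))
  have hbad : ∀ z : κ, nn q (-(q.s : κ)) z = 0 → cc q z ≠ 0 ∧ rr q z ≠ 0 := by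
    intro z hz
    have hz0 := (hD z).2.2.1 hz
    constructor
    · intro hc
      have h2 : 2 * (q.s : κ) * z = 0 := by
        have : nn q (-(q.s : κ)) z = cc q z ^ 2 + (q.s - -(q.s : κ)) * z := rfl
        rw [this, hc] at hz
        linear_combination hz
      exact mul_ne_zero (mul_ne_zero hκ.two hκ.s0) hz0 h2
    · intro hr
      have h2 := (hD z).2.2.2.2.1 hr
      have h3 : nn q (-(q.s : κ)) z = cc q z ^ 2 + (q.s - -(q.s : κ)) * z := rfl
      rw [h3] at hz
      have h4 : (q.s : κ) * z = 0 := by linear_combination hz - h2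
      exact mul_ne_zero hκ.s0 hz0 h4
  have hroot : ∀ l, nn q (-(q.s : κ)) (b l) = 0 := by
    intro l
    rw [← (hD (b l)).2.1, hP, eval_prod]
    apply Finset.prod_eq_zero (Finset.mem_univ l)
    rw [eval_sub, eval_X, eval_C, sub_self]
  have hdbl : ∀ l m, b l = b m → l ≠ m → b l = q.x := by
    intro l m hlm hne
    have h2 : (X - C (b l)) ^ 2 ∣ NN q (-(q.s : κ)) := by
      rw [hP]
      have h3 : (X - C (b l)) ^ 2 = ∏ i ∈ ({l, m} : Finset (Fin 6)), (X - C (b i)) := by
        rw [Finset.prod_pair hne, hlm, pow_two]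
      rw [h3]
      exact Finset.prod_dvd_prod_of_subset _ _ _ (Finset.subset_univ _)
    have h4 := pow_sub_one_dvd_derivative_of_pow_dvd h2
    rw [show 2 - 1 = 1 by norm_num, pow_one, dvd_iff_isRoot, IsRoot.def] at h4
    have h5 := (hD (b l)).2.2.2.1 (hroot l)
    rw [h4, zero_mul] at h5
    obtain ⟨hc, hr⟩ := hbad (b l) (hroot l)
    have h6 : b l - q.x = 0 := by
      rcases mul_eq_zero.1 h5.symm with h | h
      · exact absurd h hc
      · rcases mul_eq_zero.1 h with h | h
        · exact h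
        · exact absurd h hr
    exact sub_eq_zero.1 h6
  have hx : nn q (-(q.s : κ)) (q.x : κ) = 0 := by
    have : nn q (-(q.s : κ)) (q.x : κ) = cc q (q.x : κ) ^ 2 + (q.s - -(q.s : κ)) * q.x := rfl
    rw [this, hκ.c0]
    ring
  have hx' : (derivative (NN q (-(q.s : κ)))).eval (q.x : κ) = 0 := by
    have h2 := (hD (q.x : κ)).2.2.2.1 hx
    rw [sub_self, zero_mul, mul_zero] at h2
    exact (mul_eq_zero.1 h2).resolve_right hκ.x0
  obtain ⟨i, hi⟩ : ∃ i, b i = q.x := by
    rw [← (hD (q.x : κ)).2.1, hP, eval_prod] at hx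
    obtain ⟨i, -, hi⟩ := Finset.prod_eq_zero_iff.1 hx
    rw [eval_sub, eval_X, eval_C] at hi
    exact ⟨i, (sub_eq_zero.1 hi).symm⟩
  obtain ⟨j, hij, hj⟩ : ∃ j, j ≠ i ∧ b j = q.x := by
    rw [hP, ← Finset.mul_prod_erase _ _ (Finset.mem_univ i), derivative_mul, derivative_sub,
      derivative_X, derivative_C, sub_zero, one_mul, eval_add, eval_mul, eval_sub, eval_X, eval_C,
      hi, sub_self, zero_mul, add_zero, eval_prod] at hx'
    obtain ⟨j, hj, hj'⟩ := Finset.prod_eq_zero_iff.1 hx'
    rw [eval_sub, eval_X, eval_C] at hj'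
    exact ⟨j, Finset.ne_of_mem_erase hj, (sub_eq_zero.1 hj').symm⟩
  refine ⟨i, j, hij.symm, hi, hj, ?_, hdbl⟩
  intro l hli hlj hl
  have h3 : (X - C (q.x : κ)) ^ 3 ∣ NN q (-(q.s : κ)) := by
    rw [hP]
    have h4 : (X - C (q.x : κ)) ^ 3 = ∏ m ∈ ({i, j, l} : Finset (Fin 6)), (X - C (b m)) := by
      rw [Finset.prod_insert, Finset.prod_pair, hi, hj, hl]
      · ring
      · exact hlj.symm
      · rw [Finset.mem_insert, Finset.mem_singleton]
        rintro (h | h)
        · exact hij h.symm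
        · exact hli h.symm
    rw [h4]
    exact Finset.prod_dvd_prod_of_subset _ _ _ (Finset.subset_univ _)
  have h5 := pow_sub_one_dvd_derivative_of_pow_dvd h3
  rw [show 3 - 1 = 2 by norm_num] at h5
  have h6 : (X - C (q.x : κ)) ^ 2 ∣ NN q (-(q.s : κ)) :=
    (pow_dvd_pow _ (by norm_num)).trans h3
  have h7 := dvd_sub (h5.mul_left X) h6
  rw [swp_pid q κ hκ, pow_two] at h7
  have h8 := (mul_dvd_mul_iff_left (X_sub_C_ne_zero (q.x : κ))).1 h7
  rw [dvd_iff_isRoot, IsRoot.def, eval_mul] at h8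
  obtain ⟨hc, hr⟩ := hbad _ hx
  rcases mul_eq_zero.1 h8 with h | h
  · apply hc
    rw [← h]
    simp [cc]
  · apply hr
    rw [← h]
    simp [rr]

/-- The roots are units. -/
private theorem swp_unit (q : Par) {F : Type} [Field F] (v : F → ℤ) (hv : Ord v) (T z : F)
    (hT : Ge v 0 (q.s - T)) (hh : Is v 0 (q.h : F)) (hz0 : z ≠ 0) (hz : nn q T z = 0) :
    Is v 0 z := by
  have he : cc q z ^ 2 = -((q.s - T) * z) := by
    have : nn q T z = cc q z ^ 2 + (q.s - T) * z := rfl
    rw [this] at hz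
    linear_combination hz
  have hzv : Is v (v z) z := Is.of_ne hz0
  rcases lt_trichotomy (v z) 0 with hneg | h0 | hpos
  · exfalso
    have g3 : Is v (((3 : ℕ) : ℤ) * v z) (z ^ 3) := hzv.pow hv 3
    have g2 : Ge v (2 * v z) (q.e * z ^ 2) := by
      have h1 : Is v (((2 : ℕ) : ℤ) * v z) (z ^ 2) := hzv.pow hv 2
      have h2 := (Ge.intCast hv q.e).mul_left hv h1.ge
      exact h2.mono (by push_cast; omega)
    have g1 : Ge v (2 * v z) (q.g * z) := by
      have h2 := (Ge.intCast hv q.g).mul_left hv hzv.ge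
      exact h2.mono (by omega)
    have g0 : Ge v (2 * v z) (q.h : F) := hh.ge.mono (by omega)
    have hc : Is v (((3 : ℕ) : ℤ) * v z) (cc q z) := by
      have h1 := ((g3.add_ge hv g2 (by push_cast; omega)).add_ge hv g1
        (by push_cast; omega)).add_ge hv g0 (by push_cast; omega)
      exact h1
    have hc2 := hc.pow hv 2
    rw [he] at hc2
    have h3 : Ge v (v z) (-((q.s - T) * z)) := (hT.mul_left hv hzv.ge).neg hv
    exact hc2.not_ge (by push_cast; omega) h3
  · rw [h0] at hzv
    exact hzv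
  · exfalso
    have hz1 : Ge v 1 z := hzv.ge.mono (by omega)
    have hz0' : Ge v 0 z := hz1.mono (by norm_num)
    have g : Ge v 1 (z ^ 3 + q.e * z ^ 2 + q.g * z) := by
      have h3 : Ge v 1 (z ^ 3) := by
        rw [pow_succ]
        exact (hz0'.pow0 hv 2).mul_left hv hz1
      have h2 : Ge v 1 (q.e * z ^ 2) := by
        rw [pow_two]
        exact (Ge.intCast hv q.e).mul_left hv (hz0'.mul_left hv hz1)
      have h4 : Ge v 1 (q.g * z) := (Ge.intCast hv q.g).mul_left hv hz1
      exact (h3.add hv h2).add hv h4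
    have hc : Is v 0 (cc q z) := Is.ge_add hv g hh one_pos
    have hc2 := hc.pow hv 2
    rw [he] at hc2
    have h3 : Ge v 1 (-((q.s - T) * z)) := (hT.mul_left hv hz1).neg hv
    exact hc2.not_ge (by norm_num) h3

/-- The residues of the roots are the roots of `N_{-σ}`. -/
private theorem swp_res (q : Par) {κ F : Type} [Field κ] [Field F] [Algebra κ F] (v : F → ℤ)
    (hK : Kr κ v) (T : F) (x : Fin 6 → F) (hx : NN q T = ∏ i, (X - C (x i)))
    (hT : Ge v 1 (T + q.s)) (hxi : ∀ i, Ge v 0 (x i)) :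
    ∃ b : Fin 6 → κ, (∀ i, Ge v 1 (x i - algebraMap κ F (b i))) ∧
      NN q (-(q.s : κ)) = ∏ i, (X - C (b i)) := by
  have hT0 : Ge v 0 T := by
    have h1 := (hT.mono (by norm_num : (0 : ℤ) ≤ 1)).sub hK.ord (Ge.intCast hK.ord q.s)
    rwa [add_sub_cancel_right] at h1
  let R := hK.ord.ring
  let T' : R := ⟨T, hT0⟩
  let x' : Fin 6 → R := fun i => ⟨x i, hxi i⟩
  have hR : ((X ^ 3 + C (q.e : R) * X ^ 2 + C (q.g : R) * X + C (q.h : R)) ^ 2 +
      C ((q.s : R) - T') * X : R[X]) = ∏ i, (X - C (x' i)) := by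
    apply Polynomial.map_injective R.subtype Subtype.val_injective
    rw [Polynomial.map_prod]
    have h1 : ∀ i, Polynomial.map R.subtype (X - C (x' i)) = X - C (x i) := by
      intro i
      rw [Polynomial.map_sub, Polynomial.map_X, Polynomial.map_C]
      rfl
    rw [Finset.prod_congr rfl (fun i _ => h1 i), ← hx]
    have hc : ∀ n : ℤ, Polynomial.map R.subtype (C (n : R)) = C (n : F) := by
      intro n
      rw [Polynomial.map_C]
      exact congrArg C (map_intCast R.subtype n)
    have h2 : Polynomial.map R.subtype (C ((q.s : R) - T')) = C (q.s - T) := by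
      rw [Polynomial.map_C]
      have h3 : R.subtype ((q.s : R) - T') = R.subtype (q.s : R) - R.subtype T' :=
        map_sub _ _ _
      rw [h3, map_intCast]
      rfl
    rw [Polynomial.map_add, Polynomial.map_pow, Polynomial.map_add, Polynomial.map_add,
      Polynomial.map_add, Polynomial.map_mul, Polynomial.map_mul, Polynomial.map_mul,
      Polynomial.map_pow, Polynomial.map_pow, Polynomial.map_X, hc, hc, hc, h2, NN]
  have hrT : hK.rs T' = -(q.s : κ) := by
    apply hK.uniq (hK.rs_spec T')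
    rw [map_neg, map_intCast, sub_neg_eq_add]
    exact hT
  refine ⟨fun i => hK.rs (x' i), fun i => hK.rs_spec (x' i), ?_⟩
  have h3 := congrArg (Polynomial.map hK.rs) hR
  rw [Polynomial.map_prod] at h3
  have h1 : ∀ i, Polynomial.map hK.rs (X - C (x' i)) = X - C (hK.rs (x' i)) := by
    intro i
    rw [Polynomial.map_sub, Polynomial.map_X, Polynomial.map_C]
  rw [Finset.prod_congr rfl (fun i _ => h1 i)] at h3
  have hc : ∀ n : ℤ, Polynomial.map hK.rs (C (n : R)) = C (n : κ) := by
    intro n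
    rw [Polynomial.map_C]
    exact congrArg C (map_intCast hK.rs n)
  have h2 : Polynomial.map hK.rs (C ((q.s : R) - T')) = C (q.s - -(q.s : κ)) := by
    rw [Polynomial.map_C]
    have h3 : hK.rs ((q.s : R) - T') = hK.rs (q.s : R) - hK.rs T' := map_sub _ _ _
    rw [h3, map_intCast, hrT]
  rw [← h3, Polynomial.map_add, Polynomial.map_pow, Polynomial.map_add, Polynomial.map_add,
    Polynomial.map_add, Polynomial.map_mul, Polynomial.map_mul, Polynomial.map_mul,
    Polynomial.map_pow, Polynomial.map_pow, Polynomial.map_X, hc, hc, hc, h2, NN]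

theorem tSwp (h1 : S_Der) (h2 : S_Rho) : S_Swp := by
  intro q κ F _ _ _ _ T x hκ hF hG hR
  obtain ⟨v, hP'⟩ := (tPlx tPla κ F T hG).1 (-(q.s : κ))
  have hTs : T - algebraMap κ F (-(q.s : κ)) = T + q.s := by
    rw [map_neg, map_intCast, sub_neg_eq_add]
  rw [hTs] at hP'
  have hP : Plc κ T (T + q.s) v := hP'
  have hK : Kr κ v := hP.toKr
  have hv := hK.ord
  have hT1 : Ge v 1 (T + q.s) := Or.inr (by have := hP.pos; omega)
  have hsT : Ge v 0 ((q.s : F) - T) := by
    have h3 := ((Ge.ofNat hv 2).mul_left hv (Ge.intCast hv q.s)).sub hv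
      (hT1.mono (by norm_num : (0 : ℤ) ≤ 1))
    have h4 : (2 : F) * q.s - (T + q.s) = q.s - T := by ring
    rwa [h4] at h3
  have hh : Is v 0 (q.h : F) := by
    have h3 := hK.isCst hκ.h0
    rwa [map_intCast] at h3
  have hD := h1 q F hF T
  have hroot : ∀ l, nn q T (x l) = 0 := by
    intro l
    rw [← (hD (x l)).2.1, hR.eq, eval_prod]
    apply Finset.prod_eq_zero (Finset.mem_univ l)
    rw [eval_sub, eval_X, eval_C, sub_self]
  have hx0 : ∀ l, x l ≠ 0 := fun l => (hD (x l)).2.2.1 (hroot l)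
  have hu : ∀ l, Is v 0 (x l) := fun l => swp_unit q v hv T (x l) hsT hh (hx0 l) (hroot l)
  obtain ⟨b, hb, hbP⟩ := swp_res q v hK T x hR.eq hT1 (fun l => (hu l).ge)
  obtain ⟨i, j, hij, hbi, hbj, hbl, hbd⟩ := swp_nf h1 q κ hκ b hbP
  -- the elements of the decomposition group
  have hdec : ∀ δ : F ≃ₐ[κ] F, δ T = T → Dv v δ →
      (∀ l, δ (x l) = x l) ∨ ∀ l, δ (x l) = x (swap i j l) := by
    intro δ hδ hDδ
    obtain ⟨ρ, hρ⟩ := h2 q κ F T x hF hR
    set π : Perm (Fin 6) := ρ ⟨δ, hδ⟩ with hπdef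
    have hπ : ∀ l, δ (x l) = x (π l) := fun l => hρ ⟨δ, hδ⟩ l
    have hbπ : ∀ l, b (π l) = b l := by
      intro l
      apply hK.uniq (hb (π l))
      have h3 := (hK.triv hDδ (hu l).ge).add hv (hb l)
      rw [hπ, sub_add_sub_cancel] at h3
      exact h3
    have hfix : ∀ l, l ≠ i → l ≠ j → π l = l := by
      intro l hli hlj
      by_contra hne
      exact hbl l hli hlj (by rw [← hbπ l]; exact hbd _ _ (hbπ l) hne)
    have hπi : π i = i ∨ π i = j := by
      by_contra hcon
      push Not at hcon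
      exact hbl (π i) hcon.1 hcon.2 ((hbπ i).trans hbi)
    have hπj : π j = i ∨ π j = j := by
      by_contra hcon
      push Not at hcon
      exact hbl (π j) hcon.1 hcon.2 ((hbπ j).trans hbj)
    rcases hπi with hi | hi
    · left
      have hj : π j = j := by
        rcases hπj with h | h
        · exact absurd (π.injective (hi.trans h.symm)) hij
        · exact h
      intro l
      rw [hπ]
      congr 1
      by_cases hli : l = i
      · rw [hli, hi]
      · by_cases hlj : l = j
        · rw [hlj, hj]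
        · exact hfix l hli hlj
    · right
      have hj : π j = i := by
        rcases hπj with h | h
        · exact h
        · exact absurd (π.injective (hi.trans h.symm)) hij
      intro l
      rw [hπ]
      congr 1
      by_cases hli : l = i
      · rw [hli, hi, swap_apply_left]
      · by_cases hlj : l = j
        · rw [hlj, hj, swap_apply_right]
        · rw [swap_apply_of_ne_of_ne hli hlj]
          exact hfix l hli hlj
  refine ⟨v, i, j, hij, hP, ?_, hdec⟩
  by_contra hcon
  have hall : ∀ δ : F ≃ₐ[κ] F, δ T = T → Dv v δ → ∀ l, δ (x l) = x l := by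
    intro δ hδ hDδ
    rcases hdec δ hδ hDδ with h | h
    · exact h
    · exact absurd ⟨δ, hδ, h⟩ hcon
  -- the formula
  set z : F := x i - algebraMap κ F (b i) with hz
  have hFP : NN q (-(q.s : F)) = ∏ l, (X - C (algebraMap κ F (b l))) := by
    have h3 := congrArg (Polynomial.map (algebraMap κ F)) hbP
    rw [Polynomial.map_prod] at h3
    have h4 : ∀ l, Polynomial.map (algebraMap κ F) (X - C (b l)) =
        X - C (algebraMap κ F (b l)) := by
      intro l
      rw [Polynomial.map_sub, Polynomial.map_X, Polynomial.map_C]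
    rw [Finset.prod_congr rfl (fun l _ => h4 l)] at h3
    have hc : ∀ n : ℤ, Polynomial.map (algebraMap κ F) (C (n : κ)) = C (n : F) := by
      intro n
      rw [Polynomial.map_C]
      exact congrArg C (map_intCast (algebraMap κ F) n)
    have h2 : Polynomial.map (algebraMap κ F) (C (q.s - -(q.s : κ))) = C (q.s - -(q.s : F)) := by
      rw [Polynomial.map_C, map_sub, map_neg, map_intCast]
    rw [← h3, NN, NN, Polynomial.map_add, Polynomial.map_pow, Polynomial.map_add,
      Polynomial.map_add, Polynomial.map_add, Polynomial.map_mul, Polynomial.map_mul,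
      Polynomial.map_mul, Polynomial.map_pow, Polynomial.map_pow, Polynomial.map_X, hc, hc, hc,
      h2]
  have hprod : (T + q.s) * x i = z * (z * ∏ l ∈ (Finset.univ.erase i).erase j,
      (x i - algebraMap κ F (b l))) := by
    have h3 : (NN q (-(q.s : F))).eval (x i) = (T + q.s) * x i := by
      rw [(h1 q F hF (-(q.s : F)) (x i)).2.1]
      have h4 := hroot i
      have h5 : nn q T (x i) = cc q (x i) ^ 2 + (q.s - T) * x i := rfl
      have h6 : nn q (-(q.s : F)) (x i) = cc q (x i) ^ 2 + (q.s - -(q.s : F)) * x i := rfl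
      rw [h5] at h4
      rw [h6]
      linear_combination h4
    rw [← h3, hFP, eval_prod, ← Finset.mul_prod_erase _ _ (Finset.mem_univ i),
      ← Finset.mul_prod_erase _ _ (Finset.mem_erase.2 ⟨hij.symm, Finset.mem_univ j⟩)]
    simp only [eval_sub, eval_X, eval_C]
    rw [hz, hbj, hbi]
  have hQ : Is v 0 (∏ l ∈ (Finset.univ.erase i).erase j, (x i - algebraMap κ F (b l))) := by
    apply Finset.prod_induction _ (fun y => Is v 0 y)
    · intro a c ha hc
      have := ha.mul hv hc
      rwa [add_zero] at this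
    · exact ⟨one_ne_zero, hv.one⟩
    · intro l hl
      have hlj := Finset.ne_of_mem_erase hl
      have hli := Finset.ne_of_mem_erase (Finset.mem_of_mem_erase hl)
      have hne : b i - b l ≠ 0 := by
        rw [sub_ne_zero, hbi]
        exact (hbl l hli hlj).symm
      have h3 := Is.ge_add hv (hb i) (hK.isCst hne) one_pos
      rw [map_sub, sub_add_sub_cancel] at h3
      exact h3
  have hTs0 : (T + q.s) * x i ≠ 0 := mul_ne_zero hP.ne (hx0 i)
  have hz0 : z ≠ 0 := by
    intro h
    rw [h, zero_mul] at hprod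
    exact hTs0 hprod
  have hvz : v (T + q.s) = 2 * v z := by
    have h3 := congrArg v hprod
    rw [hv.mul _ _ hP.ne (hx0 i), (hu i).2, hv.mul _ _ hz0 (mul_ne_zero hz0 hQ.1),
      hv.mul _ _ hz0 hQ.1, hQ.2] at h3
    omega
  have hzpos : 1 ≤ v z := (hb i).resolve_left hz0
  have hdvd : v (T + q.s) ∣ v z := by
    apply hP.dec z hz0
    intro δ hδ hDδ
    rw [hz, map_sub, AlgEquiv.commutes, hall δ hδ hDδ]
  rw [hvz] at hdvd
  obtain ⟨m, hm⟩ := hdvd
  have h5 : v z * (2 * m - 1) = 0 := by linear_combination -hm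
  rcases mul_eq_zero.1 h5 with h | h
  · omega
  · omega

end MP7A
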