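import Pool.Agent.Lib.MP_7f581e_A6.SpecC

/-!
# MP_7f581e_nt, Tau: the automorphism with `T ↦ - T` (helper79)
-/

set_option autoImplicit false

namespace MP7A

open Polynomial MP7Sh Equiv

open scoped Classical

/-- There is an automorphism of `Ω` with `T ↦ - T`. -/
private theorem tau_ext (κ Ω : Type) [Field κ] [Field Ω] [Algebra κ Ω] [IsAlgClosed Ω] (T : Ω)
    (hT : Transcendental κ T)
    (halg : ∀ z : Ω, IsAlgebraic (IntermediateField.adjoin κ {T}) z) :
    ∃ τ : Ω ≃ₐ[κ] Ω, τ T = -T := by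
  have hT' : Transcendental κ (-T) := by
    intro h
    apply hT
    have := h.neg
    rwa [neg_neg] at this
  have hK : IntermediateField.adjoin κ {-T} = IntermediateField.adjoin κ {T} := by
    apply le_antisymm
    · rw [IntermediateField.adjoin_simple_le_iff]
      exact neg_mem (IntermediateField.mem_adjoin_simple_self κ T)
    · rw [IntermediateField.adjoin_simple_le_iff]
      have := neg_mem (IntermediateField.mem_adjoin_simple_self κ (-T))
      rwa [neg_neg] at this
  have halg' : ∀ z : Ω, IsAlgebraic (IntermediateField.adjoin κ {-T}) z := by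
    rw [hK]
    exact halg
  have a1 : IsAlgClosure (IntermediateField.adjoin κ {T}) Ω :=
    ⟨inferInstance, ⟨halg⟩⟩
  have a2 : IsAlgClosure (IntermediateField.adjoin κ {-T}) Ω :=
    ⟨inferInstance, ⟨halg'⟩⟩
  let e1 := RatFunc.algEquivOfTranscendental T hT
  let e2 := RatFunc.algEquivOfTranscendental (-T) hT'
  let e : IntermediateField.adjoin κ {T} ≃ₐ[κ] IntermediateField.adjoin κ {-T} := e1.symm.trans e2
  let Φ : Ω ≃+* Ω := IsAlgClosure.equivOfEquiv Ω Ω e.toRingEquiv
  have hΦ : ∀ s : IntermediateField.adjoin κ {T}, Φ (s : Ω) = (e s : Ω) := fun s =>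
    IsAlgClosure.equivOfEquiv_algebraMap Ω Ω e.toRingEquiv s
  refine ⟨AlgEquiv.ofRingEquiv (f := Φ) ?_, ?_⟩
  · intro c
    have h := hΦ (algebraMap κ _ c)
    rw [AlgEquiv.commutes] at h
    exact h
  · change Φ T = -T
    have h := hΦ (e1 (RatFunc.X))
    have h1 : ((e1 RatFunc.X : IntermediateField.adjoin κ {T}) : Ω) = T :=
      RatFunc.algEquivOfTranscendental_X T hT
    have h2 : ((e2 RatFunc.X : IntermediateField.adjoin κ {-T}) : Ω) = -T :=
      RatFunc.algEquivOfTranscendental_X (-T) hT'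
    have h3 : e (e1 RatFunc.X) = e2 RatFunc.X := by
      simp only [e, AlgEquiv.trans_apply, AlgEquiv.symm_apply_apply]
    rw [h3, h1, h2] at h
    exact h

private theorem tau_GG (q : Par) {E E' : Type} [Field E] [Field E'] (f : E →+* E') (y : E) :
    f (GG q y) = GG q (f y) := by
  simp only [GG, al, be, q0, q1, ww, tt, map_add, map_sub, map_mul, map_div₀, map_pow,
    map_intCast, map_ofNat, map_one]

private theorem tau_mu_mem (q : Par) {E : Type} [Field E] (K : Subfield E) {y : E} (hy : y ∈ K) :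
    mu q y ∈ K := by
  unfold mu
  have h1 : ∀ z : ℤ, (z : E) ∈ K := fun z => intCast_mem K z
  exact div_mem (add_mem (mul_mem (h1 _) hy) (h1 _)) (sub_mem (mul_mem (h1 _) hy) (h1 _))

/-- An automorphism with `T ↦ - T` maps `L` into itself. -/
private theorem tau_map (h1 : S_Gty) (h2 : S_Vin) (h3 : S_Vgn) (p : ℕ) (q : Par) (κ Ω : Type)
    [Field κ] [Field Ω] [Algebra κ Ω] (T y : Ω) (x : Fin 6 → Ω) (h : Amb p q κ Ω T y x)
    (τ : Ω ≃ₐ[κ] Ω) (hτ : τ T = -T) : ∀ z ∈ Lf T x, τ z ∈ Lf T x := by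
  have hTL : T ∈ Lf T x := Subfield.subset_closure (Set.mem_insert _ _)
  have hV : ∀ y' ∈ Vv κ q T, τ y' ∈ Lf T x := by
    rintro y' ⟨hy1, hy2⟩
    have ht : Transcendental κ (τ y') := by
      intro ha
      apply hy1
      have := ha.algHom τ.symm.toAlgHom
      simpa using this
    have hG : GG q (τ y') = -T := by
      have := tau_GG q (τ : Ω →+* Ω) y'
      rw [hy2] at this
      exact this.symm.trans hτ
    obtain ⟨a1, -, -, a4, a5, a6⟩ := h1 q κ Ω h.ok (τ y') ht
    obtain ⟨b1, -⟩ := h1 q κ Ω h.ok (mu q (τ y')) a5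
    have hG2 : GG q (mu q (τ y')) = T := by
      rw [h.ok.gm (τ y') a1 a4 b1, hG, neg_neg]
    have hmem := (h2 p q κ Ω T y x h (mu q (τ y')) ⟨a5, hG2⟩).2
    rw [← a6]
    exact tau_mu_mem q _ hmem
  have hle : Subfield.closure (insert T (Vv κ q T)) ≤ (Lf T x).comap (τ : Ω →+* Ω) := by
    rw [Subfield.closure_le]
    rintro z (rfl | hz)
    · change τ z ∈ Lf z x
      rw [hτ]
      exact neg_mem hTL
    · exact hV z hz
  have hle2 : Lf T x ≤ (Lf T x).comap (τ : Ω →+* Ω) := by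
    unfold Lf
    rw [Subfield.closure_le]
    rintro z (rfl | ⟨i, rfl⟩)
    · change τ z ∈ Lf z x
      rw [hτ]
      exact neg_mem hTL
    · exact hle (h3 p q κ Ω T y x h i)
  intro z hz
  exact hle2 hz

theorem tTau (h1 : S_Gty) (h2 : S_Vin) (h3 : S_Vgn) : S_Tau := by
  intro p q κ Ω _ _ _ T y x h
  have hac := h.oac
  obtain ⟨τ, hτ⟩ := tau_ext κ Ω T h.ttr h.alg
  refine ⟨τ, hτ, tau_map h1 h2 h3 p q κ Ω T y x h τ hτ,
    tau_map h1 h2 h3 p q κ Ω T y x h τ.symm ?_⟩
  rw [AlgEquiv.symm_apply_eq, map_neg, hτ, neg_neg]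

end MP7A
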