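import Pool.Agent.Lib.MP_7f581e_A6.SpecB

/-!
# MP_7f581e_nt, a GA realization of `A_6`: `S_Tra`
-/

set_option autoImplicit false

namespace MP7A

open Polynomial MP7Sh Equiv

open scoped Classical

private theorem Tra_coeff {E : Type} [Field E] (a b c : E) :
    (X ^ 3 + C a * X ^ 2 + C b * X + C c : E[X]).coeff 1 = b ∧
    (X ^ 3 + C a * X ^ 2 + C b * X + C c : E[X]).coeff 0 = c ∧
    (X ^ 3 + C a * X ^ 2 + C b * X + C c : E[X]).Monic := by
  refine ⟨?_, ?_, ?_⟩
  · simp [coeff_X, coeff_C, coeff_X_pow]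
  · simp [coeff_C, coeff_X_pow]
  · monicity!

private theorem Tra_NN_map (q : Par) {κ E : Type} [Field κ] [Field E] [Algebra κ E] (c : κ) :
    NN q (algebraMap κ E c) = (NN q c).map (algebraMap κ E) := by
  simp [NN]

private theorem Tra_NN_monic (q : Par) {κ : Type} [Field κ] (c : κ) : (NN q c).Monic := by
  have h1 : (X ^ 3 + C (q.e : κ) * X ^ 2 + C (q.g : κ) * X + C (q.h : κ)).Monic :=
    (Tra_coeff _ _ _).2.2
  have h2 : (X ^ 3 + C (q.e : κ) * X ^ 2 + C (q.g : κ) * X + C (q.h : κ)).natDegree = 3 := by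
    compute_degree!
  refine Monic.add_of_left (h1.pow 2) ?_
  apply degree_lt_degree
  rw [h1.natDegree_pow, h2]
  exact lt_of_le_of_lt ((natDegree_C_mul_le _ _).trans natDegree_X_le) (by norm_num)

/-- `α` and `β` are integral over `κ` if `G(y)` is in `κ`. -/
private theorem Tra_int (h1 : S_Fac) (q : Par) {κ E : Type} [Field κ] [Field E] [IsAlgClosed E]
    [Algebra κ E] (hq : Ok q E) (y : E) (hy : tt q y ≠ 0) (c : κ)
    (hc : GG q y = algebraMap κ E c) : IsIntegral κ (al q y) ∧ IsIntegral κ (be q y) := by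
  obtain ⟨d, hd⟩ := IsAlgClosed.exists_pow_nat_eq (2 * al q y) (n := 2) (by norm_num)
  have h2 := h1 q E hq y hy
  rw [hc, Tra_NN_map, ← hd] at h2
  have hA : (X ^ 3 + C ((q.e : E) - d) * X ^ 2 + C ((q.g : E) + al q y - d * q1 q y) * X +
      C ((q.h : E) + be q y - d * q0 q y) : E[X]) ∣ (NN q c).map (algebraMap κ E) := by
    refine ⟨X ^ 3 + C ((q.e : E) + d) * X ^ 2 + C ((q.g : E) + al q y + d * q1 q y) * X +
      C ((q.h : E) + be q y + d * q0 q y), ?_⟩
    simp only [C_add, C_sub, C_mul, C_pow] at h2 ⊢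
    linear_combination -h2
  have hB : (X ^ 3 + C ((q.e : E) + d) * X ^ 2 + C ((q.g : E) + al q y + d * q1 q y) * X +
      C ((q.h : E) + be q y + d * q0 q y) : E[X]) ∣ (NN q c).map (algebraMap κ E) := by
    refine ⟨X ^ 3 + C ((q.e : E) - d) * X ^ 2 + C ((q.g : E) + al q y - d * q1 q y) * X +
      C ((q.h : E) + be q y - d * q0 q y), ?_⟩
    simp only [C_add, C_sub, C_mul, C_pow] at h2 ⊢
    linear_combination -h2
  obtain ⟨a1, a0, am⟩ := Tra_coeff ((q.e : E) - d) ((q.g : E) + al q y - d * q1 q y)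
    ((q.h : E) + be q y - d * q0 q y)
  obtain ⟨b1, b0, bm⟩ := Tra_coeff ((q.e : E) + d) ((q.g : E) + al q y + d * q1 q y)
    ((q.h : E) + be q y + d * q0 q y)
  have i1 := isIntegral_coeff_of_dvd _ _ (Tra_NN_monic q c) am hA 1
  have i0 := isIntegral_coeff_of_dvd _ _ (Tra_NN_monic q c) am hA 0
  have j1 := isIntegral_coeff_of_dvd _ _ (Tra_NN_monic q c) bm hB 1
  have j0 := isIntegral_coeff_of_dvd _ _ (Tra_NN_monic q c) bm hB 0
  rw [a1] at i1
  rw [a0] at i0
  rw [b1] at j1
  rw [b0] at j0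
  have hint : ∀ n : ℤ, IsIntegral κ (n : E) := by
    intro n
    have : (n : E) = algebraMap κ E (n : κ) := (map_intCast _ _).symm
    rw [this]
    exact isIntegral_algebraMap
  have hhalf : IsIntegral κ ((2 : E)⁻¹) := by
    have : (2 : E)⁻¹ = algebraMap κ E (2 : κ)⁻¹ := by rw [map_inv₀, map_ofNat]
    rw [this]
    exact isIntegral_algebraMap
  have h20 := hq.two
  constructor
  · have e1 : al q y = (2 : E)⁻¹ * (((q.g : E) + al q y - d * q1 q y) +
        ((q.g : E) + al q y + d * q1 q y)) - q.g := by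
      field_simp
      ring
    rw [e1]
    exact (hhalf.mul (i1.add j1)).sub (hint _)
  · have e1 : be q y = (2 : E)⁻¹ * (((q.h : E) + be q y - d * q0 q y) +
        ((q.h : E) + be q y + d * q0 q y)) - q.h := by
      field_simp
      ring
    rw [e1]
    exact (hhalf.mul (i0.add j0)).sub (hint _)

private theorem Tra_one (h1 : S_Fac) (h2 : S_Gty) (q : Par) {κ E : Type} [Field κ]
    [IsAlgClosed κ] [Field E] [IsAlgClosed E] [Algebra κ E] (hq : Ok q E) (y : E)
    (hy : Transcendental κ y) : Transcendental κ (GG q y) := by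
  obtain ⟨ht, ha, -⟩ := h2 q κ E hq y hy
  intro halg
  obtain ⟨c, hc⟩ : ∃ c : κ, algebraMap κ E c = GG q y :=
    minpoly.mem_range_of_degree_eq_one κ _
      (IsAlgClosed.degree_eq_one_of_irreducible κ (minpoly.irreducible halg.isIntegral))
  obtain ⟨i1, i2⟩ := Tra_int h1 q hq y ht c hc.symm
  have hw : IsAlgebraic κ (ww q y) := by
    have e1 : ww q y = be q y * (al q y)⁻¹ := by
      rw [be]
      field_simp
    rw [e1]
    exact i2.isAlgebraic.mul i1.isAlgebraic.inv
  have hint : ∀ n : ℤ, IsAlgebraic κ (n : E) := by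
    intro n
    have : (n : E) = algebraMap κ E (n : κ) := (map_intCast _ _).symm
    rw [this]
    exact isAlgebraic_algebraMap _
  have hy2 : IsAlgebraic κ (y ^ 2) := by
    have hw0 : ww q y ≠ 0 := div_ne_zero hq.a0 ht
    have e1 : y ^ 2 = (q.b : E) - q.a * (ww q y)⁻¹ := by
      have e2 : (q.a : E) * (ww q y)⁻¹ = tt q y := by
        rw [ww, inv_div, mul_div_cancel₀ _ hq.a0]
      rw [e2, tt]
      ring
    rw [e1]
    exact (hint _).sub ((hint _).mul hw.inv)
  exact hy (IsAlgebraic.of_pow (by norm_num) hy2)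

private theorem Tra_mem (q : Par) {E : Type} [Field E] (K : Subfield E) (y : E) (hy : y ∈ K) :
    GG q y ∈ K := by
  have hi : ∀ n : ℤ, (n : E) ∈ K := fun n => intCast_mem K n
  have h2 : (2 : E) ∈ K := ofNat_mem K 2
  have h4 : (4 : E) ∈ K := ofNat_mem K 4
  have htt : tt q y ∈ K := sub_mem (hi _) (pow_mem hy _)
  have hww : ww q y ∈ K := div_mem (hi _) htt
  have hq0 : q0 q y ∈ K :=
    add_mem (pow_mem hww _) (div_mem (mul_mem (add_mem (mul_mem (hi _) hww) (one_mem K))
      (mul_mem hy hww)) h2)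
  have hq1 : q1 q y ∈ K := div_mem (add_mem hww (hi _)) h2
  have hal : al q y ∈ K :=
    add_mem (sub_mem (add_mem (sub_mem (div_mem (pow_mem hww _) h2) (mul_mem (hi _) hww))
      (div_mem (pow_mem (hi _) _) h2)) (mul_mem h2 (hi _))) (mul_mem h4 hq0)
  have hbe : be q y ∈ K := mul_mem hww hal
  exact sub_mem (sub_mem (add_mem (hi _) (mul_mem (mul_mem (mul_mem h4 hal) hq1) hq0))
    (mul_mem h2 (add_mem (mul_mem hal (hi _)) (mul_mem hbe (hi _)))))
    (mul_mem (mul_mem h2 hal) hbe)

theorem tTra (h1 : S_Fac) (h2 : S_Gty) : S_Tra := by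
  intro q κ E _ _ _ _ _ hq y hy
  have hG := Tra_one h1 h2 q hq y hy
  refine ⟨hG, ?_⟩
  have hmem : GG q y ∈ IntermediateField.adjoin κ {y} :=
    Tra_mem q (IntermediateField.adjoin κ {y}).toSubfield y
      (IntermediateField.mem_adjoin_simple_self κ y)
  obtain ⟨r, s, hrs⟩ := (IntermediateField.mem_adjoin_simple_iff κ (GG q y)).1 hmem
  have hs : aeval y s ≠ 0 := by
    intro h0
    rw [h0, div_zero] at hrs
    apply hG
    rw [hrs]
    exact isAlgebraic_zero
  have hs0 : s ≠ 0 := by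
    rintro rfl
    exact hs (map_zero _)
  let g : IntermediateField.adjoin κ {GG q y} :=
    ⟨GG q y, IntermediateField.mem_adjoin_simple_self κ _⟩
  refine ⟨r.map (algebraMap κ _) - C g * s.map (algebraMap κ _), ?_, ?_⟩
  · intro h0
    obtain ⟨i, hi⟩ : ∃ i, s.coeff i ≠ 0 := by
      by_contra hcon
      push Not at hcon
      exact hs0 (Polynomial.ext fun i => by rw [hcon i, coeff_zero])
    have h3 := congrArg (fun P => ((P.coeff i : IntermediateField.adjoin κ {GG q y}) : E)) h0
    simp only [coeff_sub, coeff_map, coeff_C_mul, coeff_zero] at h3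
    have h4 : algebraMap κ E (r.coeff i) - GG q y * algebraMap κ E (s.coeff i) = 0 := h3
    apply hG
    have h5 : GG q y = algebraMap κ E (r.coeff i / s.coeff i) := by
      have h6 : algebraMap κ E (s.coeff i) ≠ 0 := by
        rw [Ne, map_eq_zero_iff _ (algebraMap κ E).injective]
        exact hi
      rw [map_div₀, eq_div_iff h6]
      linear_combination -h4
    rw [h5]
    exact isAlgebraic_algebraMap _
  · rw [map_sub, map_mul, aeval_C, aeval_map_algebraMap, aeval_map_algebraMap]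
    change aeval y r - GG q y * aeval y s = 0
    rw [hrs, div_mul_cancel₀ _ hs, sub_self]

end MP7A
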