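import Pool.Agent.Lib.MP_7f581e_A6.SpecC

/-!
# MP_7f581e_nt, a GA realization of `A_6`: the field is generated by `T` and the solutions of `G(y) = T`
-/

set_option autoImplicit false

namespace MP7A

open Polynomial MP7Sh Equiv

open scoped Classical

section maps

variable (q : Par) {E E' : Type} [Field E] [Field E'] (f : E →+* E')

private theorem map_tt (y : E) : f (tt q y) = tt q (f y) := by simp [tt]

private theorem map_ww (y : E) : f (ww q y) = ww q (f y) := by simp [ww, map_tt]

private theorem map_q0 (y : E) : f (q0 q y) = q0 q (f y) := by simp [q0, map_ww, map_ofNat]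

private theorem map_q1 (y : E) : f (q1 q y) = q1 q (f y) := by simp [q1, map_ww, map_ofNat]

private theorem map_al (y : E) : f (al q y) = al q (f y) := by
  simp [al, map_ww, map_q0, map_ofNat]

private theorem map_be (y : E) : f (be q y) = be q (f y) := by simp [be, map_ww, map_al]

private theorem map_GG (y : E) : f (GG q y) = GG q (f y) := by
  simp [GG, map_al, map_be, map_q0, map_q1, map_ofNat]

private noncomputable def AJ (x : Fin 6 → E) (J : Finset (Fin 6)) : E[X] := ∏ i ∈ J, (X - C (x i))

private noncomputable def PP (y : E) : E[X] :=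
  2 * (X ^ 3 + C (q.e : E) * X ^ 2 + C (q.g : E) * X + C (q.h : E) + C (al q y) * X +
        C (be q y))

private theorem map_AJ (x : Fin 6 → E) (J : Finset (Fin 6)) :
    (AJ x J).map f = AJ (fun i => f (x i)) J := by
  unfold AJ
  rw [Polynomial.map_prod]
  simp

private theorem map_PP (y : E) : (PP q y).map f = PP q (f y) := by
  unfold PP
  simp [map_al, map_be]

private theorem map_NN (T : E) : (NN q T).map f = NN q (f T) := by
  unfold NN
  simp

end maps

private theorem AJ_mul {E : Type} [Field E] (x : Fin 6 → E) (J : Finset (Fin 6)) :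
    AJ x J * AJ x Jᶜ = ∏ i, (X - C (x i)) := by
  unfold AJ
  exact Finset.prod_mul_prod_compl J _

private theorem mem_of_root {E : Type} [Field E] {x : Fin 6 → E} (hx : Function.Injective x)
    (J : Finset (Fin 6)) (i : Fin 6) : i ∈ J ↔ (AJ x J).eval (x i) = 0 := by
  unfold AJ
  rw [Polynomial.eval_prod, Finset.prod_eq_zero_iff]
  constructor
  · intro h
    exact ⟨i, h, by simp⟩
  · rintro ⟨j, hj, h⟩
    simp only [eval_sub, eval_X, eval_C, sub_eq_zero] at h
    rw [hx h]
    exact hj

private theorem AJ_inj {E : Type} [Field E] {x : Fin 6 → E} (hx : Function.Injective x)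
    {J I : Finset (Fin 6)} (h : AJ x J = AJ x I) : J = I := by
  ext i
  rw [mem_of_root hx, mem_of_root hx, h]

private theorem comb {E : Type} [Field E] {x : Fin 6 → E} (hx : Function.Injective x)
    {J I : Finset (Fin 6)} (h : AJ x J + AJ x Jᶜ = AJ x I + AJ x Iᶜ) : J = I ∨ J = Iᶜ := by
  have h1 := AJ_mul x J
  have h2 := AJ_mul x I
  have h3 : (AJ x J - AJ x I) * (AJ x J - AJ x Iᶜ) = 0 := by
    have e : AJ x J * AJ x Jᶜ = AJ x I * AJ x Iᶜ := by rw [h1, h2]
    have : (AJ x J - AJ x I) * (AJ x J - AJ x Iᶜ) =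
        AJ x J * AJ x J - AJ x J * (AJ x I + AJ x Iᶜ) + AJ x I * AJ x Iᶜ := by ring
    rw [this, ← h, ← e]
    ring
  rcases mul_eq_zero.mp h3 with h4 | h4
  · exact Or.inl (AJ_inj hx (sub_eq_zero.mp h4))
  · exact Or.inr (AJ_inj hx (sub_eq_zero.mp h4))

private theorem exists_perm {I₀ I : Finset (Fin 6)} (h : I₀.card = I.card) :
    ∃ π : Perm (Fin 6), I₀.map π.toEmbedding = I := by
  have e : {x // x ∈ I₀} ≃ {x // x ∈ I} := Finset.equivOfCardEq h
  refine ⟨e.extendSubtype, ?_⟩
  apply Finset.eq_of_subset_of_card_le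
  · intro i hi
    rw [Finset.mem_map] at hi
    obtain ⟨j, hj, rfl⟩ := hi
    exact e.extendSubtype_mem j hj
  · rw [Finset.card_map, h]

private theorem AJ_map {E : Type} [Field E] (x : Fin 6 → E) (π : Perm (Fin 6))
    (J : Finset (Fin 6)) : AJ (fun i => x (π i)) J = AJ x (J.map π.toEmbedding) := by
  unfold AJ
  rw [Finset.prod_map]
  rfl

private theorem map_compl (π : Perm (Fin 6)) (J : Finset (Fin 6)) :
    (Jᶜ).map π.toEmbedding = (J.map π.toEmbedding)ᶜ := by
  ext i
  simp only [Finset.mem_map, Finset.mem_compl, Equiv.coe_toEmbedding]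
  constructor
  · rintro ⟨j, hj, rfl⟩ ⟨k, hk, hkj⟩
    exact hj (π.injective hkj ▸ hk)
  · intro h
    exact ⟨π.symm i, fun hj => h ⟨_, hj, by simp⟩, by simp⟩

theorem tVgn (h2 : S_Geo) (h3 : S_Vin) (h4 : S_Cmb) : S_Vgn := by
  intro p q κ Ω _ _ _ T y x hA i
  set M : Subfield Ω := Subfield.closure (insert T (Vv κ q T)) with hM
  have hTM : T ∈ M := Subfield.subset_closure (Set.mem_insert _ _)
  have hVM : ∀ y' ∈ Vv κ q T, y' ∈ M := fun y' hy' =>
    Subfield.subset_closure (Set.mem_insert_of_mem _ hy')
  have hR := hA.rts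
  -- the identities for all the splittings
  obtain ⟨hP, -⟩ := h2 p q κ Ω T y x hA
  obtain ⟨⟨I₀, hI₀, hid⟩, -⟩ := h3 p q κ Ω T y x hA y ⟨hA.ytr, hA.eq⟩
  have hall : ∀ I : Finset (Fin 6), I.card = 3 → ∃ y' ∈ M, PP q y' = AJ x I + AJ x Iᶜ := by
    intro I hI
    obtain ⟨π, hπ⟩ := exists_perm (hI₀.trans hI.symm)
    obtain ⟨τ, hτT, hτ⟩ := hP π
    refine ⟨τ y, hVM _ ⟨?_, ?_⟩, ?_⟩
    · intro h
      exact hA.ytr ((isAlgebraic_algHom_iff (τ : Ω →ₐ[κ] Ω) τ.injective).mp h)
    · have := map_GG q (τ : Ω →+* Ω) y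
      simp only [RingHom.coe_coe] at this
      rw [← this, hA.eq, hτT]
    · have h5 : PP q y = AJ x I₀ + AJ x I₀ᶜ := hid
      have h6 := congrArg (Polynomial.map (τ : Ω →+* Ω)) h5
      rw [Polynomial.map_add, map_PP, map_AJ, map_AJ] at h6
      simp only [RingHom.coe_coe, hτ] at h6
      rw [AJ_map, AJ_map, map_compl, hπ] at h6
      exact h6
  -- the splitting field
  let TM : M := ⟨T, hTM⟩
  have hmap : (NN q TM).map (algebraMap M Ω) = ∏ i, (X - C (x i)) := by
    rw [map_NN]
    exact hR.eq
  have hne : NN q TM ≠ 0 := by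
    intro h
    rw [h, Polynomial.map_zero] at hmap
    exact Finset.prod_ne_zero_iff.mpr (fun i _ => X_sub_C_ne_zero (x i)) hmap.symm
  have hsplit : ((NN q TM).map (algebraMap M Ω)).Splits := by
    rw [hmap]
    exact Splits.prod fun i _ => Splits.X_sub_C _
  have hsep : (NN q TM).Separable := by
    rw [← Polynomial.separable_map (algebraMap M Ω), hmap]
    exact separable_prod_X_sub_C_iff.mpr hR.inj
  have hspl := IntermediateField.adjoin_rootSet_isSplittingField hsplit
  set F := IntermediateField.adjoin M ((NN q TM).rootSet Ω) with hF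
  have hfin : FiniteDimensional M F := IsSplittingField.finiteDimensional F (NN q TM)
  have hgal : IsGalois M F := IsGalois.of_separable_splitting_field hsep
  have hxF : ∀ l, x l ∈ F := by
    intro l
    apply IntermediateField.subset_adjoin
    rw [mem_rootSet]
    refine ⟨hne, ?_⟩
    rw [Polynomial.aeval_def, ← Polynomial.eval_map, hmap, Polynomial.eval_prod]
    exact Finset.prod_eq_zero (Finset.mem_univ l) (by simp)
  let xF : Fin 6 → F := fun l => ⟨x l, hxF l⟩
  have hinjF : Function.Injective xF := fun a b hab => hR.inj (congrArg Subtype.val hab)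
  have hbot : xF i ∈ (⊥ : IntermediateField M F) := by
    rw [IsGalois.mem_bot_iff_fixed]
    intro σ
    -- the polynomial over `F`
    have hNF : NN q (algebraMap M F TM) = ∏ l, (X - C (xF l)) := by
      apply Polynomial.map_injective (algebraMap F Ω) (algebraMap F Ω).injective
      rw [map_NN, Polynomial.map_prod]
      simp only [Polynomial.map_sub, map_X, map_C]
      exact hR.eq
    have hσN : ∏ l, (X - C (σ (xF l))) = ∏ l, (X - C (xF l)) := by
      rw [← hNF]
      have := congrArg (Polynomial.map (σ : F →+* F)) hNF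
      rw [map_NN, Polynomial.map_prod] at this
      simp only [Polynomial.map_sub, map_X, map_C, RingHom.coe_coe] at this
      rw [← this]
      congr 1
      exact AlgEquiv.commutes σ TM
    have hex : ∀ l, ∃ k, σ (xF l) = xF k := by
      intro l
      have h5 := congrArg (Polynomial.eval (σ (xF l))) hσN
      rw [Polynomial.eval_prod, Polynomial.eval_prod,
        Finset.prod_eq_zero (Finset.mem_univ l) (by simp)] at h5
      obtain ⟨k, -, hk⟩ := Finset.prod_eq_zero_iff.mp h5.symm
      refine ⟨k, ?_⟩
      simpa [sub_eq_zero] using hk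
    choose g hg using hex
    have hginj : Function.Injective g := by
      intro a b hab
      have h5 := hg a
      rw [hab, ← hg b] at h5
      exact hinjF (σ.injective h5)
    let π : Perm (Fin 6) := Equiv.ofBijective g (Finite.injective_iff_bijective.mp hginj)
    have hπ : ∀ l, σ (xF l) = xF (π l) := hg
    have hπ1 : π = 1 := by
      apply h4
      intro I hI
      obtain ⟨y', hy', hid'⟩ := hall I hI
      let yM : M := ⟨y', hy'⟩
      have hidF : PP q (algebraMap M F yM) = AJ xF I + AJ xF Iᶜ := by
        apply Polynomial.map_injective (algebraMap F Ω) (algebraMap F Ω).injective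
        rw [map_PP, Polynomial.map_add, map_AJ, map_AJ]
        exact hid'
      have h5 := congrArg (Polynomial.map (σ : F →+* F)) hidF
      rw [map_PP, Polynomial.map_add, map_AJ, map_AJ] at h5
      simp only [RingHom.coe_coe, hπ] at h5
      have h6 : σ (algebraMap M F yM) = algebraMap M F yM := AlgEquiv.commutes σ yM
      rw [h6, hidF, AJ_map, AJ_map, map_compl] at h5
      exact comb hinjF h5.symm
    rw [hπ, hπ1]
    rfl
  rw [IntermediateField.mem_bot] at hbot
  obtain ⟨z, hz⟩ := hbot
  have h7 : x i = (z : Ω) := by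
    have := congrArg (Subtype.val) hz
    exact this.symm
  rw [h7]
  exact z.2

end MP7A
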