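import Pool.Agent.Lib.MP_7f581e_A6.SpecC

/-!
# The splitting of the roots given by `y'`
-/

set_option autoImplicit false

namespace MP7A

open Polynomial MP7Sh Equiv

open scoped Classical

namespace VinAux

/-- A factorization into monic factors of a product of distinct linear factors. -/
private theorem split {Ω : Type} [Field Ω] (x : Fin 6 → Ω) (hx : Function.Injective x)
    (A B : Polynomial Ω) (hA : A.Monic) (hAB : A * B = ∏ i, (X - C (x i))) :
    ∃ I : Finset (Fin 6), A = ∏ i ∈ I, (X - C (x i)) ∧ B = ∏ i ∈ Iᶜ, (X - C (x i)) := by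
  have hcop : ∀ J : Finset (Fin 6), ∀ D : Polynomial Ω, (∀ i ∈ J, D.eval (x i) = 0) →
      (∏ i ∈ J, (X - C (x i))) ∣ D := by
    intro J D hD
    refine Finset.prod_dvd_of_coprime ?_ ?_
    · intro i _ j _ hij
      exact pairwise_coprime_X_sub_C hx hij
    · intro i hi
      exact dvd_iff_isRoot.2 (hD i hi)
  refine ⟨Finset.univ.filter fun i => A.eval (x i) = 0, ?_⟩
  set I := Finset.univ.filter fun i => A.eval (x i) = 0 with hI
  obtain ⟨A', hA'⟩ := hcop I A fun i hi => (Finset.mem_filter.1 hi).2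
  obtain ⟨B', hB'⟩ := hcop Iᶜ B fun i hi => by
    have h1 : A.eval (x i) ≠ 0 := fun h =>
      (Finset.mem_compl.1 hi) (Finset.mem_filter.2 ⟨Finset.mem_univ _, h⟩)
    have h2 : (A * B).eval (x i) = 0 := by
      rw [hAB, eval_prod]
      exact Finset.prod_eq_zero (Finset.mem_univ i) (by simp)
    rw [eval_mul] at h2
    exact (mul_eq_zero.1 h2).resolve_left h1
  have hmon : ∀ J : Finset (Fin 6), (∏ i ∈ J, (X - C (x i))).Monic := fun J =>
    monic_prod_of_monic _ _ fun i _ => monic_X_sub_C (x i)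
  have h3 : (∏ i ∈ I, (X - C (x i))) * (∏ i ∈ Iᶜ, (X - C (x i))) = ∏ i, (X - C (x i)) :=
    Finset.prod_mul_prod_compl I _
  have h4 : A' * B' = 1 := by
    have h5 : (∏ i, (X - C (x i))) * (A' * B') = (∏ i, (X - C (x i))) * 1 := by
      rw [mul_one, ← h3]
      calc (∏ i ∈ I, (X - C (x i))) * (∏ i ∈ Iᶜ, (X - C (x i))) * (A' * B') =
          ((∏ i ∈ I, (X - C (x i))) * A') * ((∏ i ∈ Iᶜ, (X - C (x i))) * B') := by ring
        _ = _ := by rw [← hA', ← hB', hAB, h3]
    exact mul_left_cancel₀ (hmon Finset.univ).ne_zero h5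
  have hA1 : A' = 1 := by
    have : A'.Monic := (hmon I).of_mul_monic_left (hA' ▸ hA)
    exact this.isUnit_iff.1 (IsUnit.of_mul_eq_one _ h4)
  have hB1 : B' = 1 := by
    rw [hA1, one_mul] at h4
    exact h4
  rw [hA1, mul_one] at hA'
  rw [hB1, mul_one] at hB'
  exact ⟨hA', hB'⟩

private theorem coef {Ω : Type} [Field Ω] (K : Subfield Ω) (x : Fin 6 → Ω) (hx : ∀ i, x i ∈ K)
    (J : Finset (Fin 6)) (n : ℕ) : (∏ i ∈ J, (X - C (x i))).coeff n ∈ K := by
  have h1 : (∏ i ∈ J, (X - C (x i))) =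
      (∏ i ∈ J, (X - C (⟨x i, hx i⟩ : K))).map K.subtype := by
    rw [Polynomial.map_prod]
    refine Finset.prod_congr rfl fun i _ => ?_
    rw [Polynomial.map_sub, map_X, map_C]
    rfl
  rw [h1, coeff_map]
  exact SetLike.coe_mem _

private theorem ncub {Ω : Type} [Field Ω] (a b c : Ω) :
    (X ^ 3 + C a * X ^ 2 + C b * X + C c).Monic ∧
      (X ^ 3 + C a * X ^ 2 + C b * X + C c).natDegree = 3 := by
  have h := leadingCoeff_cubic (a := (1 : Ω)) (b := a) (c := b) (d := c) one_ne_zero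
  have h2 := natDegree_cubic (a := (1 : Ω)) (b := a) (c := b) (d := c) one_ne_zero
  rw [C_1, one_mul] at h h2
  exact ⟨h, h2⟩

end VinAux

theorem tVin (h1 : S_Fac) (h2 : S_Rcv) (h4 : S_Gty) : S_Vin := by
  intro p q κ Ω _ _ _ T y x hA y' hy'
  obtain ⟨hyt, hyT⟩ := hy'
  obtain ⟨ht, hal, hr, -, -, -⟩ := h4 q κ Ω hA.ok y' hyt
  have hfac := h1 q Ω hA.ok y' ht
  rw [hyT] at hfac
  have := hA.oac
  obtain ⟨d, hd⟩ := IsAlgClosed.exists_pow_nat_eq (2 * al q y') (n := 2) (by norm_num)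
  set P : Polynomial Ω := X ^ 3 + C (q.e : Ω) * X ^ 2 + C (q.g : Ω) * X + C (q.h : Ω) +
    C (al q y') * X + C (be q y') with hP
  set Q : Polynomial Ω := X ^ 2 + C (q1 q y') * X + C (q0 q y') with hQ
  have hAB : (P - C d * Q) * (P + C d * Q) = ∏ i, (X - C (x i)) := by
    rw [← hA.rts.eq]
    have e1 : (P - C d * Q) * (P + C d * Q) = P ^ 2 - C (d ^ 2) * Q ^ 2 := by
      rw [C_pow]
      ring
    rw [e1, hd, ← hfac]
    ring
  have eA : P - C d * Q = X ^ 3 + C (q.e - d) * X ^ 2 + C (q.g + al q y' - d * q1 q y') * X +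
      C (q.h + be q y' - d * q0 q y') := by
    rw [hP, hQ]
    simp only [C_sub, C_add, C_mul]
    ring
  obtain ⟨I, hI, hI'⟩ := VinAux.split x hA.rts.inj (P - C d * Q) (P + C d * Q)
    (by rw [eA]; exact (VinAux.ncub _ _ _).1) hAB
  have hsum : 2 * P = ∏ i ∈ I, (X - C (x i)) + ∏ i ∈ Iᶜ, (X - C (x i)) := by
    rw [← hI, ← hI']
    ring
  refine ⟨⟨I, ?_, hsum⟩, ?_⟩
  · have e2 := congrArg natDegree hI
    rw [natDegree_finsetProd_X_sub_C_eq_card, eA, (VinAux.ncub _ _ _).2] at e2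
    exact e2.symm
  · have hxK : ∀ i, x i ∈ Lf T x := fun i =>
      Subfield.subset_closure (Set.mem_insert_of_mem _ ⟨i, rfl⟩)
    have h20 : (2 : Ω) ≠ 0 := hA.ok.two
    have hc : ∀ n, 2 * P.coeff n ∈ Lf T x := by
      intro n
      have e3 : 2 * P.coeff n = (2 * P).coeff n := by
        rw [show (2 : Polynomial Ω) = C 2 from rfl, coeff_C_mul]
      rw [e3, hsum, coeff_add]
      exact add_mem (VinAux.coef _ x hxK _ _) (VinAux.coef _ x hxK _ _)
    have hc' : ∀ n, P.coeff n ∈ Lf T x := by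
      intro n
      have e4 : P.coeff n = (2 : Ω)⁻¹ * (2 * P.coeff n) := by
        rw [← mul_assoc, inv_mul_cancel₀ h20, one_mul]
      rw [e4]
      exact mul_mem (inv_mem (by exact_mod_cast natCast_mem (Lf T x) 2)) (hc n)
    have c1 : P.coeff 1 = q.g + al q y' := by
      rw [hP]
      simp only [coeff_add, coeff_C_mul, coeff_X_pow, coeff_X, coeff_C]
      norm_num
    have c0 : P.coeff 0 = q.h + be q y' := by
      rw [hP]
      simp only [coeff_add, coeff_C_mul, coeff_X_pow, coeff_X, coeff_C]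
      norm_num
    refine h2 q Ω hA.ok y' ht hal hr (Lf T x) ?_ ?_
    · have := sub_mem (hc' 1) (intCast_mem (Lf T x) q.g)
      rwa [c1, add_sub_cancel_left] at this
    · have := sub_mem (hc' 0) (intCast_mem (Lf T x) q.h)
      rwa [c0, add_sub_cancel_left] at this

end MP7A
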