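import Pool.Agent.Lib.MP_7f581e_A6.Fac
import Pool.Agent.Lib.MP_7f581e_A6.Rcv
import Pool.Agent.Lib.MP_7f581e_A6.Der
import Pool.Agent.Lib.MP_7f581e_A6.Gty
import Pool.Agent.Lib.MP_7f581e_A6.Tra
import Pool.Agent.Lib.MP_7f581e_A6.Rho
import Pool.Agent.Lib.MP_7f581e_A6.Nfx
import Pool.Agent.Lib.MP_7f581e_A6.Fiv
import Pool.Agent.Lib.MP_7f581e_A6.Swp
import Pool.Agent.Lib.MP_7f581e_A6.Pm6
import Pool.Agent.Lib.MP_7f581e_A6.Ful
import Pool.Agent.Lib.MP_7f581e_A6.Omb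
import Pool.Agent.Lib.MP_7f581e_A6.Ffi
import Pool.Agent.Lib.MP_7f581e_A6.Geo
import Pool.Agent.Lib.MP_7f581e_A6.Vin
import Pool.Agent.Lib.MP_7f581e_A6.Cmb
import Pool.Agent.Lib.MP_7f581e_A6.Vgn
import Pool.Agent.Lib.MP_7f581e_A6.Tau
import Pool.Agent.Lib.MP_7f581e_A6.Lsx
import Pool.Agent.Lib.MP_7f581e_A6.Prj
import Pool.Agent.Lib.MP_7f581e_A6.Dsc
import Pool.Agent.Lib.MP_7f581e_A6.Fxs
import Pool.Agent.Lib.MP_7f581e_A6.Fxe
import Pool.Agent.Lib.MP_7f581e_A6.Cen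
import Pool.Agent.Lib.MP_7f581e_A6.AuG
import Pool.Agent.Lib.MP_7f581e_A6.Gls
import Pool.Agent.Lib.MP_7f581e_A6.Fna
import Pool.Agent.Lib.MP_7f581e_A6.Okp
import Pool.Agent.Lib.MP_7f581e_A6.FinA

set_option autoImplicit false

namespace MP7A

theorem aFac : S_Fac := tFac

theorem aRcv : S_Rcv := tRcv

theorem aDer : S_Der := tDer

theorem aGty : S_Gty := tGty

theorem aTra : S_Tra := tTra aFac aGty

theorem aRho : S_Rho := tRho aDer

theorem aNfx : S_Nfx := tNfx aDer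

theorem aFiv : S_Fiv := tFiv aDer aRho

theorem aSwp : S_Swp := tSwp aDer aRho

theorem aPm6 : S_Pm6 := tPm6

theorem aFul : S_Ful := tFul aRho aNfx aFiv aSwp aPm6

theorem aOmb : S_Omb := tOmb aDer aTra

theorem aFfi : S_Ffi := tFfi

theorem aGeo : S_Geo := tGeo aFul aSwp aFfi

theorem aVin : S_Vin := tVin aFac aRcv aGty

theorem aCmb : S_Cmb := tCmb

theorem aVgn : S_Vgn := tVgn aGeo aVin aCmb

theorem aTau : S_Tau := tTau aGty aVin aVgn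

theorem aLsx : S_Lsx := tLsx aGeo aTau

theorem aPrj : S_Prj := tPrj aDer

theorem aDsc : S_Dsc := tDsc aPrj

theorem aFxs : S_Fxs := tFxs

theorem aFxe : S_Fxe := tFxe aDsc aFxs

theorem aCen : S_Cen := tCen

theorem aAuG : S_AuG := tAuG

theorem aGls : S_Gls := tGls

theorem aFna : S_Fna := tFna aFxe aCen aAuG aGls

theorem aOkp : S_Okp := tOkp

theorem aFinA : S_FinA := tFinA aOmb aLsx aFna aOkp

end MP7A
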