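import Pool.Agent.Lib.MP_7f581e_A6.SpecD
import Pool.Agent.Lib.MP_7f581e_Sh.Val

/-!
# The automorphism `γ` does not centralize the symmetric group
-/

set_option autoImplicit false

namespace MP7A

open Polynomial MP7Sh Equiv

open scoped Classical

namespace CenAux

private theorem root {L : Type} [Field L] {q : Par} {T : L} {x : Fin 6 → L}
    (h : Rts q T x) (i : Fin 6) : nn q T (x i) = 0 := by
  have e : (NN q T).eval (x i) = nn q T (x i) := by
    simp [NN, nn, cc]
  rw [← e, h.eq, eval_prod]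
  exact Finset.prod_eq_zero (Finset.mem_univ i) (by simp)

/-- Nonzero integers are units for all valuations. -/
private theorem int_val {p : ℕ} [Fact p.Prime] {L : Type} [Field L] [Algebra (ZMod p) L]
    {v : L → ℤ} (hv : Ord v) {n : ℤ} (hn : (n : L) ≠ 0) : Is v 0 (n : L) := by
  refine ⟨hn, ?_⟩
  have h1 : (n : ZMod p) ≠ 0 := by
    intro h
    apply hn
    rw [← map_intCast (algebraMap (ZMod p) L) n, h, map_zero]
  have h2 : (n : L) ^ (p - 1) = 1 := by
    rw [← map_intCast (algebraMap (ZMod p) L) n, ← map_pow, ZMod.pow_card_sub_one_eq_one h1,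
      map_one]
  have h3 := hv.pow hn (p - 1)
  rw [h2, hv.one] at h3
  have h4 : 1 < p := (Fact.out : p.Prime).one_lt
  have h5 : ((p - 1 : ℕ) : ℤ) ≠ 0 := by
    have : p - 1 ≠ 0 := by omega
    exact_mod_cast this
  exact (mul_eq_zero.1 h3.symm).resolve_left h5

/-- The valuation of `C(z)`. -/
private theorem cval {p : ℕ} [Fact p.Prime] {L : Type} [Field L] [Algebra (ZMod p) L]
    {q : Par} (hok : Ok q L) {T z : L} {v : L → ℤ} (hv : Ord v) (hT0 : T - q.s ≠ 0)
    (hT : 0 < v (T - q.s)) (hz : nn q T z = 0) :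
    cc q z ≠ 0 ∧ 2 * v (cc q z) = v (T - q.s) := by
  have e1 : cc q z ^ 2 = (T - q.s) * z := by
    unfold nn at hz
    linear_combination hz
  have hz0 : z ≠ 0 := by
    rintro rfl
    have e2 : (q.h : L) ^ 2 = 0 := by
      rw [mul_zero] at e1
      rw [← e1]
      simp [cc]
    exact hok.h0 (pow_eq_zero_iff two_ne_zero |>.1 e2)
  have hC0 : cc q z ≠ 0 := by
    intro h
    rw [h] at e1
    exact mul_ne_zero hT0 hz0 (by rw [← e1]; ring)
  have e3 : 2 * v (cc q z) = v (T - q.s) + v z := by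
    have h1 := hv.pow hC0 2
    rw [e1, hv.mul _ _ hT0 hz0] at h1
    push_cast at h1
    exact h1.symm
  refine ⟨hC0, ?_⟩
  have ge1 : Ge v 0 (q.e : L) := Ge.intCast hv _
  have ge2 : Ge v 0 (q.g : L) := Ge.intCast hv _
  have ge3 : Ge v 0 (q.h : L) := Ge.intCast hv _
  have iz : Is v (v z) z := Is.of_ne hz0
  rcases lt_trichotomy (v z) 0 with hneg | h0 | hpos
  · exfalso
    have h1 : Is v (3 * v z) (z ^ 3) := by
      have := iz.pow hv 3
      exact_mod_cast this
    have h2 : Ge v (2 * v z) (q.e * z ^ 2) := by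
      refine ge1.mul_left hv ?_
      have := (iz.pow hv 2).ge
      exact_mod_cast this
    have h3 : Ge v (2 * v z) (q.g * z) := ge2.mul_left hv (iz.ge.mono (by omega))
    have h4 : Ge v (2 * v z) (q.h : L) := ge3.mono (by omega)
    have h5 : Is v (3 * v z) (cc q z) := by
      have := h1.add_ge hv ((h2.add hv h3).add hv h4) (by omega)
      unfold cc
      convert this using 1
      ring
    rw [h5.2] at e3
    omega
  · rw [e3, h0, add_zero]
  · exfalso
    have h4 : Is v 0 (q.h : L) := int_val (p := p) hv hok.h0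
    have gz : Ge v 1 z := iz.ge.mono (by omega)
    have gz0 : Ge v 0 z := iz.ge.mono (by omega)
    have h1 : Ge v 1 (z ^ 3) := by
      rw [pow_succ]
      exact (gz0.pow0 hv 2).mul_left hv gz
    have h2 : Ge v 1 (q.e * z ^ 2) := by
      refine ge1.mul_left hv ?_
      rw [pow_two]
      exact gz0.mul_left hv gz
    have h3 : Ge v 1 (q.g * z) := ge2.mul_left hv gz
    have h5 : Is v 0 (cc q z) := by
      unfold cc
      exact Is.ge_add hv ((h1.add hv h2).add hv h3) h4 (by omega)
    rw [h5.2] at e3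
    omega

end CenAux

theorem tCen : S_Cen := by
  intro p hp q L _ _ T x hok hS hSta γ hγ
  by_contra hcon
  push Not at hcon
  obtain ⟨v, i, j, hij, hv, hT0, hT, hdiv⟩ := hSta
  have hinj : Function.Injective γ.symm := γ.symm.injective
  have hs0 : ∀ z : L, z ≠ 0 → γ.symm z ≠ 0 := fun z hz h => hz (by
    rw [← γ.apply_symm_apply z, h, map_zero])
  have hov : Ord (fun z => v (γ.symm z)) :=
    { mul := fun a b ha hb => by
        simp only [map_mul]
        exact hv.mul _ _ (hs0 a ha) (hs0 b hb)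
      add := fun a b ha hb hab => by
        simp only [map_add]
        refine hv.add _ _ (hs0 a ha) (hs0 b hb) ?_
        rw [← map_add]
        exact hs0 _ hab }
  have hγ' : γ.symm T = -T := by
    rw [RingEquiv.symm_apply_eq, map_neg, hγ, neg_neg]
  have e1 : γ.symm (T - q.s) = -(T + q.s) := by
    rw [map_sub, hγ', map_intCast]
    ring
  have hT0' : T - (q.s : L) ≠ 0 := by
    intro h
    rw [h, map_zero] at e1
    exact hT0 (neg_eq_zero.1 e1.symm)
  have hTs : v (γ.symm (T - q.s)) = v (T + q.s) := by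
    rw [e1, hv.neg]
  obtain ⟨l, hli, hlj⟩ : ∃ l : Fin 6, l ≠ i ∧ l ≠ j :=
    (by decide : ∀ i j : Fin 6, ∃ l : Fin 6, l ≠ i ∧ l ≠ j) i j
  obtain ⟨hC0, hC⟩ := CenAux.cval (p := p) hok hov hT0' (by rw [hTs]; exact hT)
    (CenAux.root hS.toRts l)
  simp only [hTs] at hC
  have hd := hdiv (γ.symm (cc q (x l))) (hs0 _ hC0) (fun σ hσT hσ => by
    have h1 : σ (x l) = x l := by
      rw [hσ l, swap_apply_of_ne_of_ne hli hlj]
    have h2 : σ (cc q (x l)) = cc q (x l) := by
      simp [cc, h1]
    have h3 := hcon σ hσT (γ.symm (cc q (x l)))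
    rw [γ.apply_symm_apply, h2] at h3
    rw [RingEquiv.eq_symm_apply]
    exact h3)
  obtain ⟨c, hc⟩ := hd
  rw [hc] at hC
  have h5 : v (T + q.s) * (2 * c - 1) = 0 := by linear_combination hC
  rcases mul_eq_zero.1 h5 with h6 | h6
  · omega
  · omega

end MP7A
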