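import Pool.Agent.Lib.MP_7f581e_Sh.SpecV

/-!
# MP_7f581e_nt, a GA realization of `A_6` over `𝔽_p(X)`, `p ≥ 5`: definitions

The sextic `N_T(X) = C(X) ^ 2 + (σ - T) X`, `C = X ^ 3 + e X ^ 2 + g X + h`, with the parameters
`(e, g, h, σ) = (15, 75, -10, 2916)` if `p ≥ 7`, and `(0, 1, 1, 3)` if `p = 5`.  Its Galois group over `κ(T)` is
`S_6`, and the automorphism `T ↦ - T` of `κ(T)` extends to an automorphism of the splitting field which induces an exotic
automorphism of `S_6`.  The splittings of the roots into two sets of three roots are parametrized by the solutions `y` of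
`G(y) = T`, where `G` is a rational function of degree `10`, and `G(μ(y)) = - G(y)` for a Möbius transformation `μ`.
-/

set_option autoImplicit false

namespace MP7A

open Polynomial MP7Sh Equiv

open scoped Classical

/-- Parameters: `C = X ^ 3 + e X ^ 2 + g X + h`, `σ = s`, `ξ = x` (the double root of `N_{-σ}`), `r, a, b` (the
parametrization of the splittings), `μ(y) = (m y + n) / (k y - m)`, and two auxiliary numbers `u, w`. -/
structure Par where
  (e g h s x r a b m n k u w : ℤ)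

/-- The parameters for the characteristic `p`. -/
def par (p : ℕ) : Par :=
  if p = 5 then ⟨0, 1, 1, 3, 1, 0, 1, 1, 0, 1, 1, 0, 0⟩
  else ⟨15, 75, -10, 2916, -2, 1, 40, 5, -5, -15, 3, 16, 100⟩

section formulas

variable (q : Par) {E : Type} [Field E]

/-- `C(z)`. -/
def cc (z : E) : E := z ^ 3 + q.e * z ^ 2 + q.g * z + q.h

/-- `R(z) = 5 z ^ 2 + (3 e + 5 ξ) z + (g + (3 e + 5 ξ) ξ)`. -/
def rr (z : E) : E := 5 * z ^ 2 + (3 * q.e + 5 * q.x) * z + (q.g + (3 * q.e + 5 * q.x) * q.x)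

/-- `N_T(z)`. -/
def nn (T z : E) : E := cc q z ^ 2 + (q.s - T) * z

/-- The polynomial `N_T(X)`. -/
noncomputable def NN (T : E) : E[X] :=
  (X ^ 3 + C (q.e : E) * X ^ 2 + C (q.g : E) * X + C (q.h : E)) ^ 2 + C (q.s - T) * X

/-- `t = b - y ^ 2`. -/
def tt (y : E) : E := q.b - y ^ 2

/-- `w = a / t`. -/
def ww (y : E) : E := q.a / tt q y

/-- `q₀ = w ^ 2 + (r w + 1) y w / 2`. -/
def q0 (y : E) : E := ww q y ^ 2 + (q.r * ww q y + 1) * (y * ww q y) / 2

/-- `q₁ = (w + e) / 2`. -/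
def q1 (y : E) : E := (ww q y + q.e) / 2

/-- `α = w ^ 2 / 2 - e w + e ^ 2 / 2 - 2 g + 4 q₀`. -/
def al (y : E) : E :=
  ww q y ^ 2 / 2 - q.e * ww q y + q.e ^ 2 / 2 - 2 * q.g + 4 * q0 q y

/-- `β = w α`. -/
def be (y : E) : E := ww q y * al q y

/-- `G(y)`. -/
def GG (y : E) : E :=
  q.s + 4 * al q y * q1 q y * q0 q y - 2 * (al q y * q.h + be q y * q.g) - 2 * al q y * be q y

/-- `μ(y)`. -/
def mu (y : E) : E := (q.m * y + q.n) / (q.k * y - q.m)

end formulas

/-- The conditions on the parameters in the field `E`. -/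
structure Ok (q : Par) (E : Type) [Field E] : Prop where
  two : (2 : E) ≠ 0
  h0 : (q.h : E) ≠ 0
  s0 : (q.s : E) ≠ 0
  x0 : (q.x : E) ≠ 0
  a0 : (q.a : E) ≠ 0
  b0 : (q.b : E) ≠ 0
  e1 : (q.r : E) ^ 2 * q.b = 5
  e2 : -2 * (q.e : E) = 2 * q.r * q.b - q.r ^ 2 * q.a
  e3 : (q.e : E) ^ 2 - 4 * q.g = q.b - 2 * q.r * q.a
  e4 : 4 * (q.h : E) = -q.a
  d0 : (q.x : E) * (q.g + (3 * q.e + 5 * q.x) * q.x) = q.h
  c0 : cc q (q.x : E) ^ 2 = -2 * q.s * q.x
  ff : ((5 : E) = 0 ∧ (3 : E) * q.e = 0) ∨ ((5 : E) ≠ 0 ∧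
    ∀ z : E, 25 * (cc q z ^ 2 + q.s * z) = rr q z ^ 2 * (z ^ 2 + q.u * z + q.w))
  m0 : (q.m : E) ^ 2 + q.n * q.k ≠ 0
  gm : ∀ y : E, tt q y ≠ 0 → (q.k : E) * y - q.m ≠ 0 → tt q (mu q y) ≠ 0 →
    GG q (mu q y) = -GG q y

/-- `x` is an enumeration of the roots of `N_T`. -/
structure Rts (q : Par) {E : Type} [Field E] (T : E) (x : Fin 6 → E) : Prop where
  eq : NN q T = ∏ i, (X - C (x i))
  inj : Function.Injective x

/-- The field `L` is generated over the prime field by `T` and the roots of `N_T`, and all the permutations of the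
roots are given by automorphisms which fix `T`. -/
structure Six (p : ℕ) (q : Par) {L : Type} [Field L] [Algebra (ZMod p) L] (T : L)
    (x : Fin 6 → L) : Prop extends Rts q T x where
  gen : Subfield.closure (insert T (Set.range x)) = ⊤
  tra : Transcendental (ZMod p) T
  full : ∀ π : Perm (Fin 6), ∃ σ : L ≃+* L, σ T = T ∧ ∀ i, σ (x i) = x (π i)

end MP7A
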