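import Pool.Agent.Lib.MP_7f581e_A6.SpecB

/-!
# The splitting given by `y`
-/

set_option autoImplicit false

namespace MP7A

open Polynomial MP7Sh Equiv

open scoped Classical

section aux

variable {q : Par} {E : Type} [Field E]

private lemma hw (y : E) (ht : tt q y ≠ 0) : ww q y * (q.b - y ^ 2) = q.a := by
  have h : (q.b - y ^ 2 : E) ≠ 0 := ht
  unfold ww tt
  exact div_mul_cancel₀ _ h

private lemma two_q0 (h2 : (2 : E) ≠ 0) (y : E) :
    2 * q0 q y = 2 * ww q y ^ 2 + (q.r * ww q y + 1) * (y * ww q y) := by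
  unfold q0
  rw [mul_add, mul_div_cancel₀ _ h2]

private lemma two_q1 (h2 : (2 : E) ≠ 0) (y : E) : 2 * q1 q y = ww q y + q.e := by
  unfold q1
  rw [mul_div_cancel₀ _ h2]

private lemma two_al (h2 : (2 : E) ≠ 0) (y : E) :
    2 * al q y = ww q y ^ 2 - 2 * q.e * ww q y + q.e ^ 2 - 4 * q.g + 8 * q0 q y := by
  have h3 : 2 * (ww q y ^ 2 / 2) = ww q y ^ 2 := mul_div_cancel₀ _ h2
  have h4 : 2 * ((q.e : E) ^ 2 / 2) = q.e ^ 2 := mul_div_cancel₀ _ h2
  unfold al
  linear_combination h3 + h4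

private lemma k3 (h2 : (2 : E) ≠ 0) (y : E) :
    2 * (be q y + al q y * q.e) - 4 * al q y * q1 q y = 0 := by
  unfold be
  linear_combination (-2 * al q y) * two_q1 (q := q) h2 y

private lemma k2 (h2 : (2 : E) ≠ 0) (y : E) :
    2 * (al q y * q.g + be q y * q.e) + al q y ^ 2 -
      2 * al q y * (q1 q y ^ 2 + 2 * q0 q y) = 0 := by
  refine (mul_eq_zero.mp ?_ : (2 : E) = 0 ∨ _).resolve_left h2
  unfold be
  linear_combination (al q y) * two_al (q := q) h2 y -
    (al q y * (2 * q1 q y + (ww q y + q.e))) * two_q1 (q := q) h2 y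

private lemma k1 (y : E) :
    2 * (al q y * q.h + be q y * q.g) + 2 * al q y * be q y - (q.s - GG q y) -
      4 * al q y * q1 q y * q0 q y = 0 := by
  unfold GG
  ring

private lemma k0 (hq : Ok q E) (y : E) (ht : tt q y ≠ 0) :
    2 * be q y * q.h + be q y ^ 2 - 2 * al q y * q0 q y ^ 2 = 0 := by
  have h2 := hq.two
  have h5 : 2 * ww q y * q.h + ww q y ^ 2 * al q y - 2 * q0 q y ^ 2 = 0 := by
    refine (mul_eq_zero.mp ?_ : (2 : E) = 0 ∨ _).resolve_left h2
    have hz : (y * ww q y) ^ 2 = q.b * ww q y ^ 2 - q.a * ww q y := by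
      linear_combination (-ww q y) * hw (q := q) y ht
    have e1 := hq.e1
    have e2 := hq.e2
    have e3 := hq.e3
    have e4 := hq.e4
    have A := two_al (q := q) h2 y
    have Q := two_q0 (q := q) h2 y
    linear_combination (ww q y ^ 2) * A -
      (2 * q0 q y - 2 * ww q y ^ 2 + (q.r * ww q y + 1) * (y * ww q y)) * Q
      - (q.r * ww q y + 1) ^ 2 * hz - ww q y ^ 4 * e1 + ww q y ^ 3 * e2
      + ww q y ^ 2 * e3 + ww q y * e4
  unfold be
  linear_combination (al q y) * h5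

end aux

theorem tFac : S_Fac := by
  intro q E _ hq y ht
  have a3 := congrArg (C : E → E[X]) (k3 (q := q) hq.two y)
  have a2 := congrArg (C : E → E[X]) (k2 (q := q) hq.two y)
  have a1 := congrArg (C : E → E[X]) (k1 (q := q) y)
  have a0 := congrArg (C : E → E[X]) (k0 hq y ht)
  simp only [C_sub, C_add, C_mul, C_pow, C_0] at a3 a2 a1 a0
  have c2 : (C (2 : E) : E[X]) = 2 := map_ofNat C 2
  have c4 : (C (4 : E) : E[X]) = 4 := map_ofNat C 4
  rw [c2] at a0 a1 a2 a3
  rw [c4] at a1 a3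
  unfold NN
  simp only [C_sub, C_mul, c2]
  linear_combination X ^ 3 * a3 + X ^ 2 * a2 + X * a1 + a0

end MP7A
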