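import Pool.Agent.Lib.MP_7f581e_ntE.Factor

/-!
`A_6` is isomorphic to `PSL(2, 9)`.

The ten splittings of `{0, .., 5}` into two sets of three correspond to the ten points of the
projective line over the field with nine elements.  `wv a b c` is a vector on the line which
belongs to the splitting given by `{a, b, c}`.
-/

set_option autoImplicit false

namespace MP7A

open Equiv

private abbrev F9 : Type := QuadraticAlgebra (ZMod 3) 2 0

private instance factF9 : Fact (∀ r : ZMod 3, r ^ 2 ≠ 2 + 0 * r) := ⟨by decide⟩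

private abbrev SL9 : Type := Matrix.SpecialLinearGroup (Fin 2) F9

private def pt (a b : ZMod 3) : F9 × F9 := (⟨a, b⟩, 1)

private def tbl : List (F9 × F9) :=
  [0, 0, 0, 0, 0, 0, 0, pt 0 2, 0, 0, 0, pt 0 1, 0, pt 0 0, (1, 0), 0, 0, 0, 0, pt 1 0, 0, pt 1 1,
    pt 2 2, 0, 0, pt 1 2, pt 2 1, 0, pt 2 0, 0, 0, 0].map fun v => if v = 0 then (1, 0) else v

private def wv (a b c : Fin 6) : F9 × F9 :=
  tbl.getD (min (2 ^ a.val + 2 ^ b.val + 2 ^ c.val) (63 - (2 ^ a.val + 2 ^ b.val + 2 ^ c.val)))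
    (1, 0)

private def ap (M : Matrix (Fin 2) (Fin 2) F9) (v : F9 × F9) : F9 × F9 :=
  (M 0 0 * v.1 + M 0 1 * v.2, M 1 0 * v.1 + M 1 1 * v.2)

private def Par (u v : F9 × F9) : Prop := u.1 * v.2 = u.2 * v.1

private instance (u v : F9 × F9) : Decidable (Par u v) := by unfold Par; infer_instance

private def Rel (g : Perm (Fin 6)) (M : Matrix (Fin 2) (Fin 2) F9) : Prop :=
  ∀ a b c : Fin 6, a ≠ b → a ≠ c → b ≠ c → Par (ap M (wv a b c)) (wv (g a) (g b) (g c))

private instance (g : Perm (Fin 6)) (M : Matrix (Fin 2) (Fin 2) F9) : Decidable (Rel g M) := by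
  unfold Rel; infer_instance

/-! ### the relation is multiplicative -/

private theorem ap_mul (M N : Matrix (Fin 2) (Fin 2) F9) (v : F9 × F9) :
    ap (M * N) v = ap M (ap N v) := by
  unfold ap
  simp only [Matrix.mul_apply, Fin.sum_univ_two]
  ext1 <;> ring

private theorem ap_one (v : F9 × F9) : ap 1 v = v := by
  unfold ap
  simp

private theorem par_ap (M : Matrix (Fin 2) (Fin 2) F9) {u v : F9 × F9} (h : Par u v) :
    Par (ap M u) (ap M v) := by
  unfold Par ap at *
  linear_combination (M 0 0 * M 1 1 - M 0 1 * M 1 0) * h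

private theorem par_symm {u v : F9 × F9} (h : Par u v) : Par v u := by
  unfold Par at *
  linear_combination -h

private theorem par_trans {u v w : F9 × F9} (hv : v ≠ 0) (h1 : Par u v) (h2 : Par v w) :
    Par u w := by
  unfold Par at *
  by_cases h : v.1 = 0
  · have h' : v.2 ≠ 0 := fun h3 => hv (Prod.ext h h3)
    refine mul_left_cancel₀ h' ?_
    linear_combination w.2 * h1 + u.2 * h2
  · refine mul_left_cancel₀ h ?_
    linear_combination w.1 * h1 + u.1 * h2

private theorem wv_ne : ∀ a b c : Fin 6, wv a b c ≠ 0 := by decide +kernel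

private theorem rel_one : Rel 1 1 := by
  intro a b c _ _ _
  rw [ap_one]
  exact mul_comm _ _

private theorem ap_ne {M N : Matrix (Fin 2) (Fin 2) F9} (h : N * M = 1) {v : F9 × F9}
    (hv : v ≠ 0) : ap M v ≠ 0 := by
  intro h1
  apply hv
  have h2 : ap (N * M) v = ap N 0 := by rw [ap_mul, h1]
  rw [h, ap_one] at h2
  rw [h2]
  unfold ap
  simp

private theorem rel_mul {g h : Perm (Fin 6)} {M N : SL9} (h1 : Rel g M.1) (h2 : Rel h N.1) :
    Rel (g * h) (M * N).1 := by
  intro a b c hab hac hbc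
  have e : (M * N).1 = M.1 * N.1 := rfl
  rw [e, ap_mul]
  have h3 := par_ap M.1 (h2 a b c hab hac hbc)
  have h4 := h1 (h a) (h b) (h c) (h.injective.ne hab) (h.injective.ne hac) (h.injective.ne hbc)
  exact par_trans (ap_ne (congrArg Subtype.val (inv_mul_cancel M)) (wv_ne _ _ _)) h3 h4

private theorem rel_inv {g : Perm (Fin 6)} {M : SL9} (h1 : Rel g M.1) :
    Rel g⁻¹ (M⁻¹).1 := by
  intro a b c hab hac hbc
  have h2 := h1 (g⁻¹ a) (g⁻¹ b) (g⁻¹ c) (g⁻¹.injective.ne hab) (g⁻¹.injective.ne hac)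
    (g⁻¹.injective.ne hbc)
  have e : ∀ x : Fin 6, g (g⁻¹ x) = x := fun x => g.apply_symm_apply x
  rw [e, e, e] at h2
  have h3 := par_ap (M⁻¹).1 h2
  rw [← ap_mul] at h3
  have h4 : (M⁻¹).1 * M.1 = 1 := congrArg Subtype.val (inv_mul_cancel M)
  rw [h4, ap_one] at h3
  exact par_symm h3

/-- The group of the pairs of an even permutation and a matrix which act in the same way. -/
private def Gam : Subgroup (alternatingGroup (Fin 6) × SL9) where
  carrier := {x | Rel x.1.1 x.2.1}
  one_mem' := rel_one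
  mul_mem' := fun h1 h2 => rel_mul h1 h2
  inv_mem' := fun h => rel_inv h

private theorem mem_Gam (g : alternatingGroup (Fin 6)) (M : SL9) :
    (g, M) ∈ Gam ↔ Rel g.1 M.1 := Iff.rfl

/-! ### every even permutation occurs -/

/-- The permutations which act like a matrix. -/
private def Kp : Subgroup (Perm (Fin 6)) where
  carrier := {g | ∃ M : SL9, Rel g M.1}
  one_mem' := ⟨1, rel_one⟩
  mul_mem' := fun ⟨M, h1⟩ ⟨N, h2⟩ => ⟨M * N, rel_mul h1 h2⟩
  inv_mem' := fun ⟨M, h⟩ => ⟨M⁻¹, rel_inv h⟩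

private theorem kp_of (g : Perm (Fin 6)) (M : Matrix (Fin 2) (Fin 2) F9)
    (hd : M 0 0 * M 1 1 - M 0 1 * M 1 0 = 1) (h : Rel g M) : g ∈ Kp :=
  ⟨⟨M, by rw [Matrix.det_fin_two]; exact hd⟩, h⟩

private theorem kp_two : swap 0 1 * swap 1 2 ∈ Kp :=
  kp_of _ !![0, ⟨0, 1⟩; ⟨0, 1⟩, 1] (by decide +kernel) (by decide +kernel)

private theorem kp_three : swap 0 1 * swap 1 3 ∈ Kp :=
  kp_of _ !![0, ⟨0, 1⟩; ⟨0, 1⟩, ⟨2, 0⟩] (by decide +kernel) (by decide +kernel)

private theorem kp_four : swap 0 1 * swap 1 4 ∈ Kp :=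
  kp_of _ !![1, 1; ⟨2, 0⟩, 0] (by decide +kernel) (by decide +kernel)

private theorem kp_five : swap 0 1 * swap 1 5 ∈ Kp :=
  kp_of _ !![1, ⟨2, 0⟩; 1, 0] (by decide +kernel) (by decide +kernel)

private theorem kp_t (k : Fin 6) (h0 : k ≠ 0) (h1 : k ≠ 1) : swap 0 1 * swap 1 k ∈ Kp := by
  fin_cases k
  · exact absurd rfl h0
  · exact absurd rfl h1
  · exact kp_two
  · exact kp_three
  · exact kp_four
  · exact kp_five

private theorem t_inv : ∀ k : Fin 6, k ≠ 0 → k ≠ 1 →
    (swap 0 1 * swap 1 k)⁻¹ = swap 0 1 * swap 0 k := by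
  decide +kernel

private theorem t_three : ∀ j k : Fin 6, (j ≠ 0 ∧ j ≠ 1 ∧ k ≠ 0 ∧ k ≠ 1 ∧ j ≠ k) →
    swap 0 1 * swap j k =
      (swap 0 1 * swap 0 j) * ((swap 0 1 * swap 1 k) * (swap 0 1 * swap 0 j)) := by
  decide +kernel

private theorem kp_E (x y : Fin 6) (hxy : x ≠ y) : swap 0 1 * swap x y ∈ Kp := by
  by_cases hx0 : x = 0
  · subst hx0
    by_cases hy1 : y = 1
    · subst hy1
      rw [swap_mul_self]
      exact Kp.one_mem
    · rw [← t_inv y hxy.symm hy1]
      exact Kp.inv_mem (kp_t y hxy.symm hy1)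
  by_cases hy0 : y = 0
  · subst hy0
    rw [swap_comm x 0]
    by_cases hx1 : x = 1
    · subst hx1
      rw [swap_mul_self]
      exact Kp.one_mem
    · rw [← t_inv x hx0 hx1]
      exact Kp.inv_mem (kp_t x hx0 hx1)
  by_cases hx1 : x = 1
  · subst hx1
    exact kp_t y hy0 hxy.symm
  by_cases hy1 : y = 1
  · subst hy1
    rw [swap_comm x 1]
    exact kp_t x hx0 hx1
  rw [t_three x y ⟨hx0, hx1, hy0, hy1, hxy⟩, ← t_inv x hx0 hx1]
  exact Kp.mul_mem (Kp.inv_mem (kp_t x hx0 hx1))
    (Kp.mul_mem (kp_t y hy0 hy1) (Kp.inv_mem (kp_t x hx0 hx1)))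

private theorem kp_D (a b x y : Fin 6) (hab : a ≠ b) (hxy : x ≠ y) :
    swap a b * swap x y ∈ Kp := by
  have h1 := Kp.inv_mem (kp_E a b hab)
  have h2 := Kp.mul_mem h1 (kp_E x y hxy)
  rw [mul_inv_rev, swap_inv, swap_inv, mul_assoc, ← mul_assoc (swap 0 1) (swap 0 1),
    swap_mul_self, one_mul] at h2
  exact h2

private theorem kp_all (f : Perm (Fin 6)) : (Perm.sign f = 1 → f ∈ Kp) ∧
    (Perm.sign f = -1 → ∀ a b : Fin 6, a ≠ b → swap a b * f ∈ Kp) := by
  induction f using Perm.swap_induction_on with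
  | one =>
    refine ⟨fun _ => Kp.one_mem, fun h => ?_⟩
    rw [Perm.sign_one] at h
    exact absurd h (by decide)
  | swap_mul f x y hxy ih =>
    refine ⟨fun h => ?_, fun h a b hab => ?_⟩
    · refine ih.2 ?_ x y hxy
      rw [Perm.sign_mul, Perm.sign_swap hxy, neg_mul, one_mul] at h
      rw [← h, neg_neg]
    · have h1 : Perm.sign f = 1 := by
        rw [Perm.sign_mul, Perm.sign_swap hxy, neg_mul, one_mul] at h
        exact neg_injective h
      rw [← mul_assoc]
      exact Kp.mul_mem (kp_D a b x y hab hxy) (ih.1 h1)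

private theorem top_fst (g : alternatingGroup (Fin 6)) : ∃ M : SL9, (g, M) ∈ Gam :=
  (kp_all g.1).1 (Perm.mem_alternatingGroup.1 g.2)

/-! ### every matrix occurs -/

/-- The matrices which act like an even permutation. -/
private def Km : Subgroup SL9 where
  carrier := {M | ∃ g : alternatingGroup (Fin 6), (g, M) ∈ Gam}
  one_mem' := ⟨1, rel_one⟩
  mul_mem' := fun ⟨g, h1⟩ ⟨h, h2⟩ => ⟨g * h, rel_mul h1 h2⟩
  inv_mem' := fun ⟨g, h⟩ => ⟨g⁻¹, rel_inv h⟩

private def U (x : F9) : SL9 := ⟨!![1, x; 0, 1], by simp⟩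

private def L (x : F9) : SL9 := ⟨!![1, 0; x, 1], by simp⟩

private theorem U_add (x y : F9) : U (x + y) = U x * U y := by
  apply Subtype.ext
  change !![1, x + y; 0, 1] = !![1, x; 0, 1] * !![1, y; 0, 1]
  refine Matrix.ext fun i j => ?_
  fin_cases i <;> fin_cases j <;> simp [Matrix.mul_apply, Fin.sum_univ_two, add_comm]

private theorem L_add (x y : F9) : L (x + y) = L x * L y := by
  apply Subtype.ext
  change !![1, 0; x + y, 1] = !![1, 0; x, 1] * !![1, 0; y, 1]
  refine Matrix.ext fun i j => ?_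
  fin_cases i <;> fin_cases j <;> simp [Matrix.mul_apply, Fin.sum_univ_two]

private theorem km_of (a b c : Fin 6) (hab : a ≠ b) (hbc : b ≠ c) (M : SL9)
    (h : Rel (swap a b * swap b c) M.1) : M ∈ Km := by
  refine ⟨⟨swap a b * swap b c, ?_⟩, h⟩
  rw [Perm.mem_alternatingGroup, Perm.sign_mul, Perm.sign_swap hab, Perm.sign_swap hbc]
  rfl

private theorem km_U1 : U 1 ∈ Km :=
  km_of 0 5 4 (by decide) (by decide) _ (by decide +kernel)

private theorem km_Ui : U ⟨0, 1⟩ ∈ Km :=
  km_of 1 2 3 (by decide) (by decide) _ (by decide +kernel)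

private theorem km_L1 : L 1 ∈ Km :=
  km_of 1 5 4 (by decide) (by decide) _ (by decide +kernel)

private theorem km_Li : L ⟨0, 1⟩ ∈ Km :=
  km_of 0 3 2 (by decide) (by decide) _ (by decide +kernel)

private theorem km_gen (f : F9 → SL9) (hf : ∀ x y, f (x + y) = f x * f y) (h1 : f 1 ∈ Km)
    (h2 : f ⟨0, 1⟩ ∈ Km) (x : F9) : f x ∈ Km := by
  have h0 : f 0 ∈ Km := by
    have h3 := hf 0 0
    rw [add_zero, left_eq_mul] at h3
    rw [h3]
    exact Km.one_mem
  have hn : ∀ (y : F9), f y ∈ Km → ∀ n : ℕ, f (n • y) ∈ Km := by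
    intro y hy n
    induction n with
    | zero => rw [zero_smul]; exact h0
    | succ n ih => rw [succ_nsmul, hf]; exact Km.mul_mem ih hy
  have h3 : x = x.re.val • (1 : F9) + x.im.val • (⟨0, 1⟩ : F9) := by
    obtain ⟨a, b⟩ := x
    revert a b
    decide +kernel
  rw [h3, hf]
  exact Km.mul_mem (hn _ h1 _) (hn _ h2 _)

private theorem km_U (x : F9) : U x ∈ Km := km_gen U U_add km_U1 km_Ui x

private theorem km_L (x : F9) : L x ∈ Km := km_gen L L_add km_L1 km_Li x

private theorem km_ne (M : SL9) (h : M.1 1 0 ≠ 0) : M ∈ Km := by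
  have hd : M.1 0 0 * M.1 1 1 - M.1 0 1 * M.1 1 0 = 1 := by
    rw [← Matrix.det_fin_two]
    exact M.2
  have e : M = U ((M.1 0 0 - 1) / M.1 1 0) * (L (M.1 1 0) * U ((M.1 1 1 - 1) / M.1 1 0)) := by
    apply Subtype.ext
    change M.1 = !![1, (M.1 0 0 - 1) / M.1 1 0; 0, 1] *
      (!![1, 0; M.1 1 0, 1] * !![1, (M.1 1 1 - 1) / M.1 1 0; 0, 1])
    refine Matrix.ext fun i j => ?_
    fin_cases i <;> fin_cases j <;>
      simp only [Matrix.mul_apply, Fin.sum_univ_two, Matrix.of_apply, Matrix.cons_val',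
        Matrix.cons_val_zero, Matrix.cons_val_one, Fin.zero_eta, Fin.mk_one, Fin.isValue,
        Matrix.cons_val_fin_one, mul_one, mul_zero, one_mul, zero_mul, add_zero, zero_add] <;>
      field_simp <;> first | ring1 | linear_combination -hd
  rw [e]
  exact Km.mul_mem (km_U _) (Km.mul_mem (km_L _) (km_U _))

private theorem top_snd (M : SL9) : M ∈ Km := by
  by_cases h : M.1 1 0 = 0
  · have hd : M.1 0 0 * M.1 1 1 - M.1 0 1 * M.1 1 0 = 1 := by
      rw [← Matrix.det_fin_two]
      exact M.2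
    have h1 : M.1 0 0 ≠ 0 := by
      intro h2
      rw [h2, h, zero_mul, mul_zero, sub_zero] at hd
      exact zero_ne_one hd
    have h2 : L 1 * M ∈ Km := by
      apply km_ne
      change ((!![1, 0; 1, 1] : Matrix (Fin 2) (Fin 2) F9) * M.1) 1 0 ≠ 0
      simp only [Matrix.mul_apply, Fin.sum_univ_two, Matrix.of_apply, Matrix.cons_val',
        Matrix.cons_val_zero, Matrix.cons_val_one, Fin.isValue,
        Matrix.cons_val_fin_one, one_mul, h, add_zero]
      exact h1
    exact (Subgroup.mul_mem_cancel_left Km (km_L 1)).1 h2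
  · exact km_ne M h

/-! ### the kernels -/

private theorem ker_fst (M : SL9) : ((1, M) : alternatingGroup (Fin 6) × SL9) ∈ Gam ↔
    M ∈ Subgroup.center SL9 := by
  rw [mem_Gam, Matrix.SpecialLinearGroup.mem_center_iff]
  constructor
  · intro h
    have h1 : M.1 1 0 = 0 := by
      have h2 := h 0 4 5 (by decide) (by decide) (by decide)
      have h3 : wv 0 4 5 = (1, 0) := by decide +kernel
      change Par (ap M.1 (wv 0 4 5)) (wv 0 4 5) at h2
      rw [h3] at h2
      unfold Par ap at h2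
      simpa using h2.symm
    have h2 : M.1 0 1 = 0 := by
      have h2 := h 0 2 3 (by decide) (by decide) (by decide)
      have h3 : wv 0 2 3 = (0, 1) := by decide +kernel
      change Par (ap M.1 (wv 0 2 3)) (wv 0 2 3) at h2
      rw [h3] at h2
      unfold Par ap at h2
      simpa using h2
    have h3 : M.1 0 0 = M.1 1 1 := by
      have h4 := h 0 1 4 (by decide) (by decide) (by decide)
      have h3 : wv 0 1 4 = (1, 1) := by decide +kernel
      change Par (ap M.1 (wv 0 1 4)) (wv 0 1 4) at h4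
      rw [h3] at h4
      unfold Par ap at h4
      simp only [mul_one, h1, h2, add_zero, zero_add] at h4
      exact h4
    refine ⟨M.1 0 0, ?_, ?_⟩
    · have hd : M.1 0 0 * M.1 1 1 - M.1 0 1 * M.1 1 0 = 1 := by
        rw [← Matrix.det_fin_two]
        exact M.2
      rw [← h3, h1, mul_zero, sub_zero] at hd
      rw [Fintype.card_fin, pow_two]
      exact hd
    · refine Matrix.ext fun i j => ?_
      fin_cases i <;> fin_cases j <;> simp [h1, h2, h3]
  · rintro ⟨r, hr, h⟩ a b c _ _ _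
    have e : M.1 = Matrix.scalar (Fin 2) r := h.symm
    change Par (ap M.1 (wv a b c)) (wv a b c)
    rw [e]
    unfold Par ap
    simp only [Matrix.scalar_apply, Matrix.diagonal_apply_eq]
    rw [Matrix.diagonal_apply_ne _ (by decide), Matrix.diagonal_apply_ne _ (by decide)]
    ring

private instance simpleA : IsSimpleGroup (alternatingGroup (Fin 6)) :=
  alternatingGroup.isSimpleGroup (by simp)

private theorem ker_snd (g : alternatingGroup (Fin 6)) (h : (g, (1 : SL9)) ∈ Gam) : g = 1 := by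
  let N : Subgroup (alternatingGroup (Fin 6)) :=
    { carrier := {g | (g, (1 : SL9)) ∈ Gam}
      one_mem' := Gam.one_mem
      mul_mem' := fun {a b} h1 h2 => by
        have h3 := Gam.mul_mem h1 h2
        rw [Prod.mk_mul_mk, mul_one] at h3
        exact h3
      inv_mem' := fun {a} h1 => by
        have h3 := Gam.inv_mem h1
        rw [Prod.inv_mk, inv_one] at h3
        exact h3 }
  have hN : N.Normal := by
    refine ⟨fun n hn g => ?_⟩
    obtain ⟨M, hM⟩ := top_fst g
    have h3 := Gam.mul_mem (Gam.mul_mem hM hn) (Gam.inv_mem hM)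
    rw [Prod.inv_mk, Prod.mk_mul_mk, Prod.mk_mul_mk, mul_one, mul_inv_cancel] at h3
    exact h3
  rcases hN.eq_bot_or_eq_top with h1 | h1
  · have h2 : g ∈ N := h
    rw [h1, Subgroup.mem_bot] at h2
    exact h2
  · exfalso
    let t : alternatingGroup (Fin 6) := ⟨swap 0 1 * swap 1 2, by
      rw [Perm.mem_alternatingGroup, Perm.sign_mul, Perm.sign_swap (by decide),
        Perm.sign_swap (by decide)]
      rfl⟩
    have h2 : t ∈ N := by
      rw [h1]
      exact Subgroup.mem_top _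
    have h3 : Rel (swap 0 1 * swap 1 2) 1 := h2
    have h4 : ¬ Rel (swap 0 1 * swap 1 2) 1 := by decide +kernel
    exact h4 h3

private theorem isoA : Nonempty (alternatingGroup (Fin 6) ≃* SL9 ⧸ Subgroup.center SL9) := by
  let p1 : Gam →* alternatingGroup (Fin 6) := (MonoidHom.fst _ _).comp Gam.subtype
  let p2 : Gam →* SL9 := (MonoidHom.snd _ _).comp Gam.subtype
  have hb : Function.Bijective p2 := by
    constructor
    · rw [injective_iff_map_eq_one]
      rintro ⟨⟨g, M⟩, h⟩ h1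
      have h2 : M = 1 := h1
      subst h2
      have h3 := ker_snd g h
      subst h3
      rfl
    · intro M
      obtain ⟨g, hg⟩ := top_snd M
      exact ⟨⟨(g, M), hg⟩, rfl⟩
  let e : Gam ≃* SL9 := MulEquiv.ofBijective p2 hb
  let φ : SL9 →* alternatingGroup (Fin 6) := p1.comp e.symm.toMonoidHom
  have hφ : ∀ x : Gam, φ x.1.2 = x.1.1 := by
    intro x
    have h1 : e.symm (e x) = x := e.symm_apply_apply x
    change p1 (e.symm (e x)) = _
    rw [h1]
    rfl
  have hs : Function.Surjective φ := by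
    intro g
    obtain ⟨M, hM⟩ := top_fst g
    exact ⟨M, hφ ⟨(g, M), hM⟩⟩
  have hk : φ.ker = Subgroup.center SL9 := by
    ext M
    rw [MonoidHom.mem_ker, ← ker_fst]
    obtain ⟨g, hg⟩ := top_snd M
    have h1 : φ M = g := hφ ⟨(g, M), hg⟩
    rw [h1]
    constructor
    · rintro rfl
      exact hg
    · intro h2
      have h3 := Gam.mul_mem hg (Gam.inv_mem h2)
      rw [Prod.inv_mk, Prod.mk_mul_mk, mul_inv_cancel, inv_one, mul_one] at h3
      exact ker_snd g h3
  exact ⟨((QuotientGroup.quotientMulEquivOfEq hk.symm).trans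
    (QuotientGroup.quotientKerEquivOfSurjective φ hs)).symm⟩

private theorem cardF9 : Nat.card F9 = 3 ^ 2 := by
  rw [Nat.card_congr (QuadraticAlgebra.equivProd (2 : ZMod 3) 0), Nat.card_prod, Nat.card_zmod]
  rfl

/-- The classical isomorphism of `A_6` and `PSL(2, 9)`. -/
theorem tIso : MP7fE.IsClassical 3 (alternatingGroup (Fin 6)) :=
  ⟨simpleA, SL9, inferInstance,
    ⟨F9, inferInstance, 2, 2, Or.inl ⟨cardF9, le_rfl, fun _ => by norm_num, ⟨MulEquiv.refl _⟩⟩⟩,
    isoA⟩

end MP7A
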