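import Pool.Agent.Lib.MP_7f581e_A6.SpecC

/-!
# MP_7f581e_nt, a GA realization of `A_6`: the ambient fields (`S_Omb`)
-/

set_option autoImplicit false

namespace MP7A

open Polynomial MP7Sh Equiv

open scoped Classical

/-- A monic separable polynomial over an algebraically closed field: an enumeration of the roots. -/
private theorem enum_roots {L : Type} [Field L] [IsAlgClosed L] (f : L[X]) (hm : f.Monic)
    (hd : f.natDegree = 6) (hs : ∀ z, f.eval z = 0 → (derivative f).eval z ≠ 0) :
    ∃ x : Fin 6 → L, f = ∏ i, (X - C (x i)) ∧ Function.Injective x := by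
  have hnd : f.roots.Nodup := by
    rw [Multiset.nodup_iff_count_le_one]
    intro a
    rw [count_roots]
    by_contra h
    rw [not_le] at h
    rw [one_lt_rootMultiplicity_iff_isRoot hm.ne_zero] at h
    exact hs a h.1 h.2
  have hc : f.roots.toFinset.card = 6 := by
    rw [Multiset.toFinset_card_of_nodup hnd, IsAlgClosed.card_roots_eq_natDegree, hd]
  let e := f.roots.toFinset.equivFinOfCardEq hc
  refine ⟨fun i => (e.symm i : L), ?_, fun i j h => e.symm.injective (Subtype.ext h)⟩
  have h1 := (IsAlgClosed.splits f).eq_prod_roots_of_monic hm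
  have h2 : (f.roots.map (fun a => X - C a)).prod = ∏ a ∈ f.roots.toFinset, (X - C a) := by
    rw [Finset.prod, Multiset.toFinset_val, Multiset.dedup_eq_self.2 hnd]
  rw [h2, ← Finset.prod_coe_sort] at h1
  exact h1.trans (Equiv.prod_comp e.symm (fun a : f.roots.toFinset => X - C (a : L))).symm

private theorem omb_main (p : ℕ) (κ L : Type) [Field κ] [IsAlgClosed κ] [CharP κ p] [Field L]
    [Algebra κ L] [Algebra (RatFunc κ) L] [IsScalarTower κ (RatFunc κ) L]
    [IsAlgClosure (RatFunc κ) L] (q : Par) (hok : ∀ (E : Type) [Field E] [CharP E p], Ok q E)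
    (h1 : S_Der) (h2 : S_Tra) (y : L) (hy : y = algebraMap (RatFunc κ) L RatFunc.X) :
    ∃ x : Fin 6 → L, Amb p q κ L (GG q y) y x := by
  have hac : IsAlgClosed L := IsAlgClosure.isAlgClosed (RatFunc κ)
  have hch : CharP L p := charP_of_injective_algebraMap (algebraMap κ L).injective p
  have hyt : Transcendental κ y := by
    rw [hy]
    exact (transcendental_algebraMap_iff (algebraMap (RatFunc κ) L).injective).2
      RatFunc.transcendental_X
  have hqL := hok L
  obtain ⟨htt, hya⟩ := h2 q κ L hqL y hyt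
  set T := GG q y with hT
  have hne : ∀ n : ℤ, T ≠ (n : L) := by
    intro n hn
    apply htt
    rw [hn]
    have : (n : L) = algebraMap κ L (n : κ) := by simp
    rw [this]
    exact isAlgebraic_algebraMap _
  obtain ⟨⟨hm, hd⟩, -⟩ := h1 q L hqL T 0
  obtain ⟨x, hx, hxi⟩ := enum_roots (NN q T) hm hd (by
    intro z hz hz'
    obtain ⟨-, e1, -, -, -, e2⟩ := h1 q L hqL T z
    rw [e1] at hz
    rcases e2 hz hz' with h | h | h
    · exact hne q.s h
    · exact hne (-q.s) (by rw [h]; push_cast; ring)
    · exact hne 0 (by rw [h]; simp))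
  refine ⟨x, ⟨inferInstance, hac, inferInstance, hqL, hok, hyt, rfl, htt, ?_, ⟨hx, hxi⟩⟩⟩
  -- algebraicity
  intro z
  let K := IntermediateField.adjoin κ {T}
  let A : IntermediateField K L := algebraicClosure K L
  have hyA : y ∈ A := mem_algebraicClosure_iff.2 hya
  have hκA : ∀ c : κ, algebraMap κ L c ∈ A := by
    intro c
    rw [IsScalarTower.algebraMap_apply κ K L]
    exact A.algebraMap_mem _
  have hpA : ∀ f : κ[X], aeval y f ∈ A := by
    intro f
    rw [aeval_eq_sum_range]
    refine sum_mem fun i _ => ?_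
    rw [Algebra.smul_def]
    exact mul_mem (hκA _) (pow_mem hyA _)
  have hq : ∀ f : κ[X], aeval y f = algebraMap (RatFunc κ) L (algebraMap κ[X] (RatFunc κ) f) := by
    intro f
    rw [hy, aeval_algebraMap_apply, RatFunc.aeval_X_left_eq_algebraMap]
  have hw : ∀ w : RatFunc κ, algebraMap (RatFunc κ) L w ∈ A.toSubfield := by
    intro w
    rw [← RatFunc.num_div_denom w, map_div₀, ← hq, ← hq]
    exact div_mem (hpA _) (hpA _)
  let j : RatFunc κ →+* A.toSubfield := (algebraMap (RatFunc κ) L).codRestrict A.toSubfield hw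
  have hj : ∀ w, ((j w : A.toSubfield) : L) = algebraMap (RatFunc κ) L w := fun w => rfl
  have hz : IsAlgebraic (RatFunc κ) z := by
    have := (IsAlgClosure.isAlgebraic : Algebra.IsAlgebraic (RatFunc κ) L)
    exact Algebra.IsAlgebraic.isAlgebraic z
  have hzA : IsAlgebraic A z := by
    obtain ⟨f, hf0, hf⟩ := hz
    refine ⟨f.map j, (Polynomial.map_ne_zero_iff j.injective).2 hf0, ?_⟩
    rw [aeval_def, eval₂_map]
    exact hf
  have : IsAlgebraic K z := hzA.restrictScalars K
  exact this

theorem tOmb (h1 : S_Der) (h2 : S_Tra) : S_Omb := by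
  intro p _ q hok
  obtain ⟨x, hx⟩ := omb_main p (AlgebraicClosure (ZMod p))
    (AlgebraicClosure (RatFunc (AlgebraicClosure (ZMod p)))) q hok h1 h2 _ rfl
  exact ⟨AlgebraicClosure (ZMod p), AlgebraicClosure (RatFunc (AlgebraicClosure (ZMod p))),
    inferInstance, inferInstance, inferInstance, _, _, x, hx⟩

end MP7A
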