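import Pool.Agent.Lib.MP_7f581e_A6.Defs

/-!
# MP_7f581e_nt, a GA realization of `A_6` over `𝔽_p(X)`: formulas and the geometric Galois group

HOW TO USE THIS FILE. Every statement `S_Name` is to be proved in the file `Name.lean` as
`theorem tName (h1 : S_X) (h2 : S_Y) .. : S_Name` (the hypotheses are the statements listed under `uses`). The docstring
contains the complete proof. Notation: `E, F, L, Ω` are fields, `κ` is an algebraically closed field of constants, `q : Par` are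
the parameters, `Ok q E` the equations which they satisfy in `E` (they are integers, so they can be used in all fields);
`C(z) = cc q z`, `R(z) = rr q z`, `N_T(z) = nn q T z`, the polynomial is `NN q T`; `σ = q.s`, `ξ = q.x`; `f(z) = (C(z) ^ 2 + σ z) / z`, so
`N_T(z) = 0` if and only if `f(z) = T` (`z ≠ 0`). `Rts q T x`: `x : Fin 6 → E` are the six distinct roots of `N_T`. Valuations are
functions `v : F → ℤ` with `Ord v` (the value at `0` has no meaning; `Ge v n z`: `z = 0` or `v(z) ≥ n`; `Is v n z`: `z ≠ 0` and `v(z) = n`; calculus in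
`Pool/Agent/Lib/MP_7f581e_Sh/Val.lean`). `Gx κ T`: `F` is a finite Galois extension of `κ(T)`, its Galois group is the
stabilizer of `T` in `F ≃ₐ[κ] F`. `Plc κ T π v`: a place of `F` with the uniformizer `π` of `κ(T)`, see
`MP_7f581e_Sh/Defs.lean`; existence: `S_Plx` (proved: `Pool.Agent.Lib.MP_7f581e_Sh.Plx`, `tPlx`, with `tPla`). The theorems of
`MP_7f581e_Sh` may be imported and used (`tPla`, `tPlx`, `tPlq`, `tCst`).
-/

set_option autoImplicit false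

namespace MP7A

open Polynomial MP7Sh Equiv

open scoped Classical

/-- **Fac** (150 lines). The splitting given by `y`.

Proof. Write `w, q₀, q₁, α, β` for the values at `y`, `t = b - y ^ 2`, `w t = a`, `z = y w`, so `z ^ 2 = b w ^ 2 - a w` (multiply by `t ^ 2`). The
difference of the two sides is a polynomial in `X` of degree `≤ 4`; the coefficients: `X ^ 4`: `2 α - 2 α`. `X ^ 3`:
`2 (β + α e) - 4 α q₁ = 0`. `X ^ 2`: `2 (α g + β e) + α ^ 2 - 2 α (q₁ ^ 2 + 2 q₀) = α (2 g + 2 w e + α - (w + e) ^ 2 / 2 - 4 q₀) = 0`. `X ^ 1`: this is the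
definition of `G(y)`: `2 (α h + β g) + 2 α β - (σ - G) - 4 α q₁ q₀ = 0`. `X ^ 0`: `2 β h + β ^ 2 - 2 α q₀ ^ 2 = α (2 w h + w ^ 2 α - 2 q₀ ^ 2)`, and
with `q₀ = w ^ 2 + (r w + 1) z / 2`: `2 q₀ ^ 2 - 4 w ^ 2 q₀ = - 2 w ^ 4 + (r w + 1) ^ 2 z ^ 2 / 2`, so
`2 (2 w h + w ^ 2 (w ^ 2 / 2 - e w + e ^ 2 / 2 - 2 g + 4 q₀) - 2 q₀ ^ 2) = 4 w h + w ^ 4 - 2 e w ^ 3 + (e ^ 2 - 4 g) w ^ 2 + 4 w ^ 4 - (r w + 1) ^ 2 (b w ^ 2 - a w)`,
which is `0` by `e1`, .., `e4`: `5 w ^ 4 - 2 e w ^ 3 + (e ^ 2 - 4 g) w ^ 2 + 4 h w = (r w + 1) ^ 2 (b w ^ 2 - a w)`. -/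
def S_Fac : Prop :=
  ∀ (q : Par) (E : Type) [Field E], Ok q E → ∀ y : E, tt q y ≠ 0 →
    (X ^ 3 + C (q.e : E) * X ^ 2 + C (q.g : E) * X + C (q.h : E) + C (al q y) * X +
        C (be q y)) ^ 2 - NN q (GG q y) =
      C (2 * al q y) * (X ^ 2 + C (q1 q y) * X + C (q0 q y)) ^ 2

/-- **Rcv** (60 lines). `y` is a rational function of `α` and `β`.

Proof. `w = β / α ∈ K`, `q₀ = (α - w ^ 2 / 2 + e w - e ^ 2 / 2 + 2 g) / 4 ∈ K`, `y = 2 (q₀ - w ^ 2) / ((r w + 1) w) ∈ K` (`w ≠ 0` as `a ≠ 0`). -/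
def S_Rcv : Prop :=
  ∀ (q : Par) (E : Type) [Field E], Ok q E → ∀ y : E, tt q y ≠ 0 → al q y ≠ 0 →
    (q.r : E) * ww q y + 1 ≠ 0 → ∀ K : Subfield E, al q y ∈ K → be q y ∈ K → y ∈ K

/-- **Der** (150 lines). The sextic.

Proof. (1), (2) clear (`natDegree` and leading coefficient of a sum; evaluation). (3) `N_T(0) = h ^ 2 ≠ 0`. (4) `N_T'(z) z = 2 C C' z + (σ - T) z
= 2 C C' z - C ^ 2 = C (2 z C' - C)`, and `2 z C' - C = 5 z ^ 3 + 3 e z ^ 2 + g z - h = (z - ξ) R(z)` by `d0`. (5) by `ff`: if `5 = 0` then `3 e = 0` and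
`R(z) = g + 0`, so `g = 0`, and `h = 0` by `d0`, a contradiction. Otherwise `25 (C(z) ^ 2 + σ z) = 0`. (6) by (4) (`z ≠ 0`): `C(z) = 0`, then
`(σ - T) z = 0`; or `z = ξ`, then `- 2 σ ξ + (σ - T) ξ = 0` by `c0`; or `R(z) = 0`, then `C(z) ^ 2 + σ z = 0`, `T z = 0`. -/
def S_Der : Prop :=
  ∀ (q : Par) (E : Type) [Field E], Ok q E → ∀ T z : E,
    ((NN q T).Monic ∧ (NN q T).natDegree = 6) ∧ (NN q T).eval z = nn q T z ∧
    (nn q T z = 0 → z ≠ 0) ∧
    (nn q T z = 0 → (derivative (NN q T)).eval z * z = cc q z * ((z - q.x) * rr q z)) ∧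
    (rr q z = 0 → cc q z ^ 2 + q.s * z = 0) ∧
    (nn q T z = 0 → (derivative (NN q T)).eval z = 0 → T = q.s ∨ T = -q.s ∨ T = 0)

/-- **Gty** (200 lines). Transcendental `y`.

Proof. A nonzero polynomial with coefficients in `κ` does not vanish at `y`. `t = b - y ^ 2`. `t ^ 2 α = a ^ 2 / 2 - e a t + (e ^ 2 / 2 - 2 g) t ^ 2
+ 4 a ^ 2 + 2 (r a + t) y a` is a polynomial in `y` with the coefficient `- 2 a ≠ 0` at `y ^ 3`. `t (r w + 1) = r a + b - y ^ 2`. `k y - m`: if it is zero then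
`k = m = 0`, contradicting `m0`. `μ(y) = (m y + n) / (k y - m)` satisfies `μ(μ(y)) = y` (`m ^ 2 + n k ≠ 0`; note
`k μ(y) - m = (n k + m ^ 2) / (k y - m)`), so `y ∈ κ(μ(y))` and `μ(y)` is transcendental. -/
def S_Gty : Prop :=
  ∀ (q : Par) (κ E : Type) [Field κ] [Field E] [Algebra κ E], Ok q E → ∀ y : E,
    Transcendental κ y → tt q y ≠ 0 ∧ al q y ≠ 0 ∧ (q.r : E) * ww q y + 1 ≠ 0 ∧
      (q.k : E) * y - q.m ≠ 0 ∧ Transcendental κ (mu q y) ∧ mu q (mu q y) = y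

/-- **Tra** (200 lines, uses `S_Fac`, `S_Gty`). `G(y)` is transcendental.

Proof. (1) Otherwise `T = G(y) ∈ κ` (`κ` is algebraically closed). `E' =` an algebraic closure of `E` (or `E` itself: it is
algebraically closed), `d ^ 2 = 2 α`: by `S_Fac` `N_T = A B`, `A = C + α X + β - d (X ^ 2 + q₁ X + q₀)`, `B = C + α X + β + d (..)`,
monic cubic polynomials. `N_T` has coefficients in `κ` and is a product of linear factors over `κ`, so the roots of `A` and `B` are in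
`κ`, and the coefficients of `A`, `B`, so also `α, β ∈ κ`, and by `S_Rcv`-type formulas (`w = β / α`, `b - y ^ 2 = a / w`) `y` is algebraic over `κ`, a
contradiction. (2) `y` is a root of the polynomial
`Π = P - T (b - Y ^ 2) ^ 5 ∈ κ(T)[Y]`, `P ∈ κ[Y]` the polynomial with `P(y') = G(y') (b - y' ^ 2) ^ 5`: with `t = b - Y ^ 2`, `α₁ = a ^ 2 / 2 - e a t +
(e ^ 2 / 2 - 2 g) t ^ 2 + 4 q₂`, `q₂ = a ^ 2 + (r a + t) a Y / 2`: `P = σ t ^ 5 + 2 α₁ (a + e t) q₂ - 2 α₁ (h t ^ 3 + a g t ^ 2) - 2 a α₁ ^ 2`. `Π ≠ 0`, as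
`Π(0) = P(0) - T b ^ 5 ≠ 0` (`T` is transcendental, `b ≠ 0`). -/
def S_Tra : Prop :=
  ∀ (q : Par) (κ E : Type) [Field κ] [IsAlgClosed κ] [Field E] [IsAlgClosed E] [Algebra κ E],
    Ok q E → ∀ y : E, Transcendental κ y → Transcendental κ (GG q y) ∧
      IsAlgebraic (IntermediateField.adjoin κ {GG q y}) y

/-- **Rho** (80 lines, uses `S_Der`). The permutation representation.

Proof. `σ` maps the roots of `N_T` to roots of `N_T` (`σ T = T`), injectively; `x` is an enumeration of all the roots. -/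
def S_Rho : Prop :=
  ∀ (q : Par) (κ F : Type) [Field κ] [Field F] [Algebra κ F] (T : F) (x : Fin 6 → F),
    Ok q F → Rts q T x →
    ∃ ρ : MulAction.stabilizer (F ≃ₐ[κ] F) T →* Perm (Fin 6),
      ∀ (σ : MulAction.stabilizer (F ≃ₐ[κ] F) T) (i : Fin 6),
        (σ : F ≃ₐ[κ] F) (x i) = x (ρ σ i)

/-- **Nfx** (120 lines, uses `S_Der`, `S_Plx`, `S_Cst` of `MP_7f581e_Sh`). No root is in `κ(T)`.

Proof. Suppose that all the `σ` with `σ T = T` fix `z = x i`. For `c ∈ κ` let `v` be the place of `S_Plx` over `T = c`: `Ge v 0 T`. `v(z) = 0`: if `v(z) < 0`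
then `v(C(z) ^ 2) = 6 v(z)`, but `C(z) ^ 2 = (T - σ) z` has `v ≥ v(z)`; if `v(z) > 0` then `v(C(z) ^ 2) = 0` (`h ≠ 0` is a constant), but
`(T - σ) z` has positive valuation. By `S_Cst` `z` is a constant, so `T = (C(z) ^ 2 + σ z) / z` is a constant, a contradiction. (The integers
`e, g, h, σ` are constants: `(n : F) = algebraMap κ F n`.) -/
def S_Nfx : Prop :=
  ∀ (q : Par) (κ F : Type) [Field κ] [IsAlgClosed κ] [Field F] [Algebra κ F] (T : F)
    (x : Fin 6 → F), Ok q F → Gx κ T → Rts q T x →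
    ∀ i : Fin 6, ∃ σ : F ≃ₐ[κ] F, σ T = T ∧ σ (x i) ≠ x i

/-- **Fiv** (150 lines, uses `S_Der`, `S_Rho`, `S_Plx`, `S_Plq` of `MP_7f581e_Sh`). An element of order five.

Proof. Let `v` be the place of `S_Plx` over infinity: `v(T⁻¹) > 0`. Some `x i` has `v(x i) < 0`: otherwise the coefficients of
`∏ (X - x i) = N_T` are integral (valuation `≥ 0`), but the coefficient of `X` is `2 g h + σ - T`. Then `C(x i) ^ 2 = (T - σ) x i` gives
`6 v(x i) = v(T) + v(x i)`, `v(T) = 5 v(x i)`. `S_Plq` for `π = T⁻¹`, `z = x i`, prime number `5`, `a = -1`, and `ρ` of `S_Rho`. -/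
def S_Fiv : Prop :=
  ∀ (q : Par) (κ F : Type) [Field κ] [IsAlgClosed κ] [Field F] [Algebra κ F] (T : F)
    (x : Fin 6 → F), Ok q F → Gx κ T → Rts q T x →
    ∃ (σ : F ≃ₐ[κ] F) (π : Perm (Fin 6)), σ T = T ∧ (∀ i, σ (x i) = x (π i)) ∧ orderOf π = 5

/-- **Swp** (350 lines, uses `S_Der`, `S_Rho`, `S_Plx` of `MP_7f581e_Sh`). The place over `T = - σ`.

Proof. Let `v` be the place of `S_Plx` over `T = - σ`, so `v(T + σ) > 0`. As in `S_Nfx` `v(x i) = 0`. Let `b i ∈ κ` be the residue of `x i`: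
`Ge v 1 (x i - b i)`. For all `c ∈ κ`: `∏ (c - x i) = N_T(c) ≡ N_{-σ}(c)` modulo the place, so `∏ (c - b i) = N_{-σ}(c)` in `κ` (a constant of positive
valuation is `0`), and `∏ (X - b i) = N_{-σ}` over `κ` (`κ` is infinite). If `b i = b j` for `i ≠ j` then `b = b i` is a double root of
`N_{-σ}`, by `S_Der` (4): `C(b) = 0` or `b = ξ` or `R(b) = 0`. `C(b) = 0` gives `2 σ b = 0`, `b = 0`, impossible; `R(b) = 0` gives
`C(b) ^ 2 + σ b = 0` and with `C(b) ^ 2 + 2 σ b = 0` `b = 0`, impossible. So `b = ξ`. `ξ` is a root of `N_{-σ}` (`c0`) and of its derivative (`S_Der` (4)),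
so it is a double root: there are `i ≠ j` with `b i = b j = ξ`. It is not a triple root: `X N_{-σ}' - N_{-σ} = C (X - ξ) R` as polynomials (`N_{-σ} = C ^ 2 + 2 σ X`),
and `(X - ξ) ^ 3 ∣ N_{-σ}` gives `C(ξ) R(ξ) = 0`, impossible as before. So `b l ≠ ξ` for `l ≠ i, j`, and the `b l` are distinct. (Use `Ok q κ` and `S_Der` for `κ`.) Let `D = {δ | δ T = T, Dv v δ}`, `δ (x l) = x (π l)` for `δ ∈ D`: `Ge v 1 (x (π l) - b l)`,
so `b (π l) = b l`, and `π = 1` or `π = swap i j`. This is (3). (2): if all `δ ∈ D` fix `x i` then they fix `z = x i - ξ ≠ 0`, so by `dec` `v(T + σ) ∣ v(z)`. But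
`(T + σ) x i = N_{-σ}(x i) - N_T(x i) = ∏ (x i - b l) = z ^ 2 ∏_{l ≠ i, j} (x i - b l)`, so `v(T + σ) = 2 v(z)`, `v(z) > 0`, a contradiction. -/
def S_Swp : Prop :=
  ∀ (q : Par) (κ F : Type) [Field κ] [IsAlgClosed κ] [Field F] [Algebra κ F] (T : F)
    (x : Fin 6 → F), Ok q κ → Ok q F → Gx κ T → Rts q T x →
    ∃ (v : F → ℤ) (i j : Fin 6), i ≠ j ∧ Plc κ T (T + q.s) v ∧
      (∃ δ : F ≃ₐ[κ] F, δ T = T ∧ ∀ l, δ (x l) = x (swap i j l)) ∧
      ∀ δ : F ≃ₐ[κ] F, δ T = T → Dv v δ →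
        (∀ l, δ (x l) = x l) ∨ ∀ l, δ (x l) = x (swap i j l)

/-- **Pm6** (150 lines). Subgroups of `S_6`.

Proof. `c` is a `5`-cycle (an element of order `5` of `S_6`), it fixes exactly one point `i₀` and permutes the other five points
transitively. As `i₀` is not fixed by `H`, `H` is transitive. `i ~ j` if `i = j` or `swap i j ∈ H`: an equivalence relation
(`swap i j * swap j k * swap i j = swap i k`), and `i ~ j` implies `h i ~ h j` for `h ∈ H` (conjugation). Let `swap i j ∈ H`, `i ≠ j`. If `i, j ≠ i₀` then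
`j = c ^ n i` with `n` prime to `5`, so `i ~ c ^ n i ~ c ^ (2 n) i ~ ..`, and all the points different from `i₀` are equivalent; some `h ∈ H` maps `i₀`
to another point, so `i₀ ~ i` for some `i ≠ i₀` (`h⁻¹` of one of the four other pairs). If `i = i₀` (or `j = i₀`) then `i₀ ~ c ^ n j` for all `n`. So all
the transpositions are in `H`, which is everything (`Equiv.Perm.closure_isSwap`). -/
def S_Pm6 : Prop :=
  ∀ (H : Subgroup (Perm (Fin 6))) (c : Perm (Fin 6)) (i j : Fin 6), c ∈ H → orderOf c = 5 →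
    i ≠ j → swap i j ∈ H → (∀ l, ∃ h ∈ H, h l ≠ l) → H = ⊤

/-- **Ful** (60 lines, uses `S_Rho`, `S_Nfx`, `S_Fiv`, `S_Swp`, `S_Pm6`). The Galois group is `S_6`.

Proof. `H =` the range of `ρ` (`S_Rho`). -/
def S_Ful : Prop :=
  ∀ (q : Par) (κ F : Type) [Field κ] [IsAlgClosed κ] [Field F] [Algebra κ F] (T : F)
    (x : Fin 6 → F), Ok q κ → Ok q F → Gx κ T → Rts q T x →
    ∀ π : Perm (Fin 6), ∃ σ : F ≃ₐ[κ] F, σ T = T ∧ ∀ i, σ (x i) = x (π i)

end MP7A
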