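import Pool.Agent.Lib.MP_7f581e_A6.SpecB

/-!
# MP_7f581e_nt, a GA realization of `A_6` over `𝔽_p(X)`: the field `L`

Conventions as in `SpecB.lean` (`import Pool.Agent.Lib.MP_7f581e_A6.SpecC`). `Ω` is an algebraic closure of `κ(y)`, `T = G(y)`,
`x i` are the roots of `N_T` in `Ω`, `L ⊆ Ω` is the subfield generated (over the prime field) by `T` and the `x i`:
`L = Lf T x`. `Vv κ q T` is the set of all `y' ∈ Ω`, transcendental over `κ`, with `G(y') = T`.
-/

set_option autoImplicit false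

namespace MP7A

open Polynomial MP7Sh Equiv

open scoped Classical

/-- The subfield generated by `T` and the roots. -/
def Lf {E : Type} [Field E] (T : E) (x : Fin 6 → E) : Subfield E :=
  Subfield.closure (insert T (Set.range x))

/-- The solutions of `G(y') = T`. -/
def Vv (κ : Type) {E : Type} [Field κ] [Field E] [Algebra κ E] (q : Par) (T : E) : Set E :=
  {y | Transcendental κ y ∧ GG q y = T}

/-- The ambient situation. -/
structure Amb (p : ℕ) (q : Par) (κ Ω : Type) [Field κ] [Field Ω] [Algebra κ Ω] (T y : Ω)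
    (x : Fin 6 → Ω) : Prop where
  kac : IsAlgClosed κ
  oac : IsAlgClosed Ω
  chp : CharP κ p
  ok : Ok q Ω
  oka : ∀ (E : Type) [Field E] [CharP E p], Ok q E
  ytr : Transcendental κ y
  eq : GG q y = T
  ttr : Transcendental κ T
  alg : ∀ z : Ω, IsAlgebraic (IntermediateField.adjoin κ {T}) z
  rts : Rts q T x

/-- **Omb** (200 lines, uses `S_Der`, `S_Tra`). The ambient fields.

Proof. `κ = AlgebraicClosure (ZMod p)`, `Ω = AlgebraicClosure (RatFunc κ)`, `y` the image of `X`, `T = G(y)`, transcendental by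
`S_Tra`. `y` is algebraic over `κ(T)` and `Ω` is algebraic over `κ(y)`, so over `κ(T)`.
`N_T` is a product of linear factors over `Ω`; a double root would give `T = ± σ` or `T = 0` by `S_Der` (6), but `T` is
transcendental. So there are six distinct roots (enumerate the finite set of roots, `natDegree = 6`). -/
def S_Omb : Prop :=
  ∀ (p : ℕ) [Fact p.Prime] (q : Par), (∀ (E : Type) [Field E] [CharP E p], Ok q E) →
    ∃ (κ Ω : Type) (_ : Field κ) (_ : Field Ω) (_ : Algebra κ Ω) (T y : Ω) (x : Fin 6 → Ω),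
      Amb p q κ Ω T y x

/-- **Ffi** (250 lines). The Galois extension `F = κ(T, x 0, .., x 5)` of `κ(T)`.

Proof. `K = κ(T) = IntermediateField.adjoin κ {T}`, `N_T ∈ K[X]` is separable (six distinct roots), `F = K(x i)` is its splitting
field, so `F / K` is finite Galois; as a field between `κ` and `Ω`. The elements of `F ≃ₐ[κ] F` which fix `T₁` are the
`K`-automorphisms of `F`: finite group, fixed field `K` (Galois theory). Lifting: `Ω` is algebraically closed and algebraic over `K` (`alg`), so it is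
normal over `K` and every `K`-automorphism of `F` lifts to `Ω` (`AlgEquiv.liftNormal`, or `IsAlgClosed.lift`). Compare `S_Brg` and its proof
`MP_7f581e_Sh/Brg.lean`. -/
def S_Ffi : Prop :=
  ∀ (p : ℕ) (q : Par) (κ Ω : Type) [Field κ] [Field Ω] [Algebra κ Ω] (T y : Ω)
    (x : Fin 6 → Ω), Amb p q κ Ω T y x →
    ∃ (F : IntermediateField κ Ω) (T₁ : F) (x₁ : Fin 6 → F), (T₁ : Ω) = T ∧
      (∀ i, (x₁ i : Ω) = x i) ∧ Gx κ T₁ ∧ Rts q T₁ x₁ ∧
      (∀ σ : F ≃ₐ[κ] F, σ T₁ = T₁ → ∃ τ : Ω ≃ₐ[κ] Ω, ∀ z : F, τ z = (σ z : Ω))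

/-- **Geo** (120 lines, uses `S_Ful`, `S_Swp`, `S_Ffi`). All the permutations are realized.

Proof. (1) `S_Ful` for `F` of `S_Ffi`, lift. (2) `S_Swp` for `F`: let `z ∈ F` be as in the hypothesis, `δ : F ≃ₐ[κ] F` with `δ T = T`, `Dv v δ`; lift `δ` to `τ`; `τ` acts
on the `x l` as the identity or as `swap i j`, so `τ z = z`, `δ z = z`. By `dec` `v(T + σ) ∣ v(z)`. -/
def S_Geo : Prop :=
  ∀ (p : ℕ) (q : Par) (κ Ω : Type) [Field κ] [Field Ω] [Algebra κ Ω] (T y : Ω)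
    (x : Fin 6 → Ω), Amb p q κ Ω T y x →
    (∀ π : Perm (Fin 6), ∃ τ : Ω ≃ₐ[κ] Ω, τ T = T ∧ ∀ i, τ (x i) = x (π i)) ∧
    ∃ (F : IntermediateField κ Ω) (T₁ : F) (v : F → ℤ) (i j : Fin 6), (T₁ : Ω) = T ∧
      (∀ l, x l ∈ F) ∧ i ≠ j ∧ Ord v ∧ T₁ + q.s ≠ 0 ∧ 0 < v (T₁ + q.s) ∧
      ∀ z : F, z ≠ 0 → (∀ τ : Ω ≃ₐ[κ] Ω, τ T = T →
          ((∀ l, τ (x l) = x l) ∨ ∀ l, τ (x l) = x (swap i j l)) → τ z = (z : Ω)) →
        v (T₁ + q.s) ∣ v z

/-- **Vin** (200 lines, uses `S_Fac`, `S_Rcv`, `S_Der`, `S_Gty`). The splitting given by `y'`.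

Proof. `y' ∈ Vv`, `α, β, q₁, q₀` at `y'`, `d ∈ Ω` with `d ^ 2 = 2 α`, `P = C + α X + β`, `Q = X ^ 2 + q₁ X + q₀`. By `S_Fac`
`(P - d Q) (P + d Q) = N_T = ∏ (X - x i)`, and `A = P - d Q`, `B = P + d Q` are monic of degree `3`. Let `I = {i | A(x i) = 0}`; the `x i`
are distinct, so the roots of `A` and `B` are simple and disjoint, `A = ∏_{i ∈ I} (X - x i)`, `B = ∏_{i ∉ I} (X - x i)`,
`|I| = 3`. `2 P = A + B`. (2) The coefficients of `A`, `B` are in `L`, so `α, β ∈ L` (`C` has coefficients in the prime field, `2 ≠ 0`), and `y' ∈ L` by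
`S_Rcv` (`S_Gty`). -/
def S_Vin : Prop :=
  ∀ (p : ℕ) (q : Par) (κ Ω : Type) [Field κ] [Field Ω] [Algebra κ Ω] (T y : Ω)
    (x : Fin 6 → Ω), Amb p q κ Ω T y x → ∀ y' ∈ Vv κ q T,
    (∃ I : Finset (Fin 6), I.card = 3 ∧
      2 * (X ^ 3 + C (q.e : Ω) * X ^ 2 + C (q.g : Ω) * X + C (q.h : Ω) + C (al q y') * X +
        C (be q y')) = ∏ i ∈ I, (X - C (x i)) + ∏ i ∈ Iᶜ, (X - C (x i))) ∧
    y' ∈ Lf T x

/-- **Cmb** (100 lines). A permutation which preserves all the splittings.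

Proof. Suppose `π l = m ≠ l`, and let `a, b, c, d` be the other four points. Let `I = {l, a, b}`: `m ∉ I`, `m ∈ π I`, so
`π I = Iᶜ = {m, c, d}`. In the same way `π {l, a, c} = {m, b, d}` and `π {l, b, c} = {m, a, d}`. So `π {l, a} = {m, c, d} ∩ {m, b, d} = {m, d}`,
`π a = d`, and `π {l, b} = {m, c, d} ∩ {m, a, d} = {m, d}`, `π b = d`, a contradiction. (Or `decide +kernel` over the `720` permutations.) -/
def S_Cmb : Prop :=
  ∀ π : Perm (Fin 6), (∀ I : Finset (Fin 6), I.card = 3 →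
    I.map π.toEmbedding = I ∨ I.map π.toEmbedding = Iᶜ) → π = 1

/-- **Vgn** (350 lines, uses `S_Der`, `S_Geo`, `S_Vin`, `S_Cmb`). `L` is generated by `T` and `Vv`.

Proof. `K₀` the subfield generated by `T`, `L = K₀(x i)`, `N_T ∈ K₀[X]` is separable, so `L / K₀` is finite Galois (a splitting field). Let
`L₁ ⊆ L` be the field generated by `T` and `Vv` (`S_Vin` (2)). By Galois theory it is enough to show that a
`K₀`-automorphism `σ` of `L` which is the identity on `Vv` is the identity. `σ (x i) = x (π i)`. Let `I` be a set of three indices. Claim: `π I = I` or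
`π I = Iᶜ`. Let `I₀` be the set of `S_Vin` for `y` itself, `π' ∈ S_6` with `π' I₀ = I`, `τ` of `S_Geo` for `π'`, `y' = τ y ∈ Vv` (`G` has integer
coefficients). Applying `τ` to the identity of `S_Vin` for `y`: `2 P' = A_I + A_{Iᶜ}`, `P' = C + α(y') X + β(y')`, `A_J = ∏_{i ∈ J} (X - x i)`. `σ y' = y'`, so
`σ` fixes the coefficients of `P'`: `A_{π I} + A_{π Iᶜ} = A_I + A_{Iᶜ}`; also `A_{π I} A_{π Iᶜ} = N_T = A_I A_{Iᶜ}`. So
`(A_{π I} - A_I) (A_{π I} - A_{Iᶜ}) = A_{π I} ^ 2 - A_{π I} (A_{π I} + A_{π Iᶜ}) + A_{π I} A_{π Iᶜ} = 0`, so `A_{π I} = A_I` or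
`A_{Iᶜ}`, and comparing the roots, `π I = I` or `Iᶜ`. By `S_Cmb` `π = 1`, so `σ = 1`. -/
def S_Vgn : Prop :=
  ∀ (p : ℕ) (q : Par) (κ Ω : Type) [Field κ] [Field Ω] [Algebra κ Ω] (T y : Ω)
    (x : Fin 6 → Ω), Amb p q κ Ω T y x →
    ∀ i, x i ∈ Subfield.closure (insert T (Vv κ q T))

/-- **Tau** (200 lines, uses `S_Gty`, `S_Vin`, `S_Vgn`). The automorphism with `T ↦ - T`.

Proof. `K = κ(T)`: there is an automorphism `τ₀` of `K` over `κ` with `τ₀ T = - T` (`T` is transcendental); it extends to an automorphism `τ` of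
`Ω`, which is an algebraic closure of `K` (`IsAlgClosure.equivOfEquiv`, or `IsAlgClosed.lift` and algebraicity). Let `y' ∈ Vv`:
`G(τ y') = τ T = - T`, `τ y'` is transcendental over `κ`, so by `Ok.gm` (and `S_Gty`) `G(μ(τ y')) = T`, `μ(τ y') ∈ Vv ⊆ L` (`S_Vin`), so
`τ y' = μ(μ(τ y')) ∈ L`. By `S_Vgn` `τ L ⊆ L`. The same for `τ⁻¹` (`τ⁻¹ T = - T`). -/
def S_Tau : Prop :=
  ∀ (p : ℕ) (q : Par) (κ Ω : Type) [Field κ] [Field Ω] [Algebra κ Ω] (T y : Ω)
    (x : Fin 6 → Ω), Amb p q κ Ω T y x →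
    ∃ τ : Ω ≃ₐ[κ] Ω, τ T = -T ∧ (∀ z ∈ Lf T x, τ z ∈ Lf T x) ∧
      ∀ z ∈ Lf T x, τ.symm z ∈ Lf T x

/-- The property of a place over `T = - σ`. -/
def Sta (q : Par) {L : Type} [Field L] (T : L) (x : Fin 6 → L) : Prop :=
  ∃ (v : L → ℤ) (i j : Fin 6), i ≠ j ∧ Ord v ∧ T + q.s ≠ 0 ∧ 0 < v (T + q.s) ∧
    ∀ z : L, z ≠ 0 → (∀ σ : L ≃+* L, σ T = T → (∀ l, σ (x l) = x (swap i j l)) → σ z = z) →
      v (T + q.s) ∣ v z

/-- **Lsx** (250 lines, uses `S_Geo`, `S_Tau`). The field `L`.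

Proof. `L = Lf T x` (as a type), an algebra over `ZMod p` (`CharP`). `Rts` in `L`: the map `L[X] → Ω[X]` is injective. `gen`: the closure inside `L`.
`tra`: `T` is transcendental over `κ ⊇ 𝔽_p`. `full`: the `τ` of `S_Geo` maps the generators of `L` into `L`, `τ L ⊆ L`, the same for
`τ⁻¹`; restrict. `Sta`: `L ⊆ F`; the restriction of `v` to `L`. Let `z ∈ L` be as in the hypothesis of `Sta`, and `τ` as in `S_Geo`: if `τ (x l) = x l` for all
`l` then `τ` is the identity on `L`; if `τ (x l) = x (swap i j l)` then the restriction of `τ` to `L` is an automorphism `σ` as in the hypothesis, so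
`τ z = z`. `γ`: the restriction of `τ` of `S_Tau`. -/
def S_Lsx : Prop :=
  ∀ (p : ℕ) [Fact p.Prime] (q : Par) (κ Ω : Type) [Field κ] [Field Ω] [Algebra κ Ω] (T y : Ω)
    (x : Fin 6 → Ω), Amb p q κ Ω T y x →
    ∃ (L : Type) (_ : Field L) (_ : Algebra (ZMod p) L) (T : L) (x : Fin 6 → L),
      Ok q L ∧ Six p q T x ∧ Sta q T x ∧ ∃ γ : L ≃+* L, γ T = -T

end MP7A
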