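import Pool.Agent.Lib.MP_7f581e_A6.SpecC
import Pool.Agent.Lib.MP_7f581e_K.DefsG

/-!
# MP_7f581e_nt, a GA realization of `A_6` over `𝔽_p(X)`: from the field `L` to the theorem

Conventions as in `SpecB.lean` (`import Pool.Agent.Lib.MP_7f581e_A6.SpecD`). `L` is a field generated over the prime field by `T` and
the roots `x i` of `N_T`, with the group `S_6` over `𝔽_p(T)` (`Six p q T x`).
-/

set_option autoImplicit false

namespace MP7A

open Polynomial MP7Sh Equiv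

open scoped Classical

/-- **Prj** (300 lines, uses `S_Der`). The discriminant.

Proof. It is enough to prove the identity in an algebraic closure of `E`. `V = ∏_{i < j} (x j - x i)`, `V ^ 2 = - ∏_i ∏_{j ≠ i} (x i - x j) = - ∏_i N_T'(x i)` (`15`
pairs; `N_T = ∏ (X - x i)`). By `S_Der` (4) `N_T'(x i) x i = C(x i) (x i - ξ) R(x i)`. (a) `∏ x i = N_T(0) = h ^ 2`. (b) `∏ (x i - ξ) = N_T(ξ) = C(ξ) ^ 2 + (σ - T) ξ
= - (σ + T) ξ`. (c) `C = (X - c₁) (X - c₂) (X - c₃)`, `∏_i C(x i) = ∏_j ∏_i (x i - c_j) = ∏_j N_T(c_j) = ∏_j (σ - T) c_j = (σ - T) ^ 3 (-h)`. (d) if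
`5 ≠ 0`: `R = 5 (X - r₁) (X - r₂)`, `N_T(r_j) = - T r_j` by `S_Der` (5), so `∏_i R(x i) = 5 ^ 6 T ^ 2 r₁ r₂ = 5 ^ 5 T ^ 2 ρ`, `ρ = g + (3 e + 5 ξ) ξ`, `ξ ρ = h`. If
`5 = 0` (and `3 e = 0`): `R(z) = g = ρ`, `∏ R(x i) = g ^ 6`, `ξ g = h`. Together: `V ^ 2 h ^ 2 = - (σ - T) ^ 3 (-h) (- (σ + T) ξ) ∏ R(x i)`, so
`V ^ 2 = (T - σ) ^ 3 (T + σ) (ξ / h) ∏ R(x i)`, which is `5 ^ 5 (T - σ) ^ 3 (T + σ) T ^ 2`, resp. `g ^ 5 (T - σ) ^ 3 (T + σ)`. -/
def S_Prj : Prop :=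
  ∀ (q : Par) (E : Type) [Field E], Ok q E → ∀ (T : E) (x : Fin 6 → E), Rts q T x →
    (∏ i : Fin 6, ∏ j ∈ Finset.Ioi i, (x j - x i)) ^ 2 =
      if (5 : E) = 0 then (q.g : E) ^ 5 * (T - q.s) ^ 3 * (T + q.s)
      else 5 ^ 5 * (T - q.s) ^ 3 * (T + q.s) * T ^ 2

/-- **Dsc** (100 lines, uses `S_Prj`). The sign element.

Proof. `V = ∏_{i < j} (x j - x i)`, `z = V / ((T - σ) T)` if `5 ≠ 0`, `z = V / (T - σ)` if `5 = 0`; `c = 5 ^ 5` or `g ^ 5` (`g ≠ 0` if `5 = 0` by `d0` and `h ≠ 0`, as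
`3 e = 0`). If `σ (x i) = x (π i)` then `σ V = sign(π) V` (`Matrix.det_vandermonde` and `Matrix.det_permute`, or
`Equiv.Perm.sign` as a product over pairs). `T ≠ 0, ± σ` as `T` is transcendental. -/
def S_Dsc : Prop :=
  ∀ (p : ℕ) [Fact p.Prime] (q : Par) (L : Type) [Field L] [Algebra (ZMod p) L] (T : L)
    (x : Fin 6 → L), Ok q L → Six p q T x →
    ∃ (z : L) (c : ZMod p), c ≠ 0 ∧ z ≠ 0 ∧
      z ^ 2 = algebraMap (ZMod p) L c * (T - q.s) * (T + q.s) ∧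
      ∀ (σ : L ≃+* L) (π : Perm (Fin 6)), σ T = T → (∀ i, σ (x i) = x (π i)) →
        σ z = if Perm.sign π = 1 then z else -z

/-- **Fxs** (150 lines, uses `S_Der`). The field of invariants of `S_6`.

Proof. `K₀ =` the subfield generated by `T`; `L = K₀(x i)` is the splitting field of the separable polynomial `N_T ∈ K₀[X]`, so it is Galois over
`K₀`, and the automorphisms over `K₀` are the automorphisms `σ` with `σ T = T` (the prime field is fixed by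
everything). -/
def S_Fxs : Prop :=
  ∀ (p : ℕ) [Fact p.Prime] (q : Par) (L : Type) [Field L] [Algebra (ZMod p) L] (T : L)
    (x : Fin 6 → L), Ok q L → Six p q T x →
    ∀ y : L, (∀ σ : L ≃+* L, σ T = T → σ y = y) → y ∈ Subfield.closure ({T} : Set L)

/-- **Fxe** (300 lines, uses `S_Dsc`, `S_Fxs`). The field of invariants of `A_6` is `𝔽_p(m)`.

Proof. `z`, `c` by `S_Dsc`. `m = z / (c (T - σ))`; `c m ^ 2 (T - σ) = T + σ`, so `T (c m ^ 2 - 1) = σ (c m ^ 2 + 1)`, `c m ^ 2 ≠ 1` (otherwise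
`2 σ = 0`), `T = σ (c m ^ 2 + 1) / (c m ^ 2 - 1)`, `z = c m (T - σ)`. So `𝔽_p(m)` contains `T` and `z`, and `m` is transcendental (`T` is).
`j : RatFunc (ZMod p) → L`, `X ↦ m`; the range is the subfield generated by `m`. (⇐) the `σ` in question fix `T` and `z`, so `m` and the range of `j`
(the prime field is fixed). (⇒) let `y` be fixed by the even automorphisms, `τ` an automorphism with an odd permutation (`full`). `y + τ y` and
`(y - τ y) z` are fixed by all the `σ` with `σ T = T` (every such `σ` has a permutation; if it is even it fixes `y`, `τ y` (`τ⁻¹ σ τ` is even) and `z`; if it is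
odd then `τ⁻¹ σ` is even, so `σ y = τ y`, and `σ τ` is even, so `σ (τ y) = y`, `σ z = - z`). By `S_Fxs` they are in
`𝔽_p(T)`, so `y = ((y + τ y) + (y - τ y) z / z) / 2 ∈ 𝔽_p(T, z) = 𝔽_p(m)`. -/
def S_Fxe : Prop :=
  ∀ (p : ℕ) [Fact p.Prime] (q : Par) (L : Type) [Field L] [Algebra (ZMod p) L] (T : L)
    (x : Fin 6 → L), Ok q L → Six p q T x →
    ∃ j : RatFunc (ZMod p) →+* L, ∀ y : L,
      (∀ (σ : L ≃+* L) (π : Perm (Fin 6)), σ T = T → (∀ i, σ (x i) = x (π i)) →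
        Perm.sign π = 1 → σ y = y) ↔ ∃ w, j w = y

/-- **Cen** (200 lines, uses `S_Der`). The automorphism `γ` does not centralize `S_6`.

Proof. Suppose that `γ` commutes with all `σ` with `σ T = T`. `v, i, j` by `Sta`, `v'(z) = v(γ⁻¹ z)`: `Ord v'`, `γ⁻¹ T = - T`, so
`v'(T - σ) = v(- T - σ) = v(T + σ) > 0`. Let `l ≠ i, j`, `z = x l`. Integers have valuation `≥ 0`, and `v'(h) = 0`, `v'(σ) = 0` (nonzero elements of the prime
field are roots of unity; `L` has characteristic `p`). `C(z) ^ 2 = (T - σ) z`. `v'(z) < 0` would give `v'(C(z) ^ 2) = 6 v'(z)`, but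
`v'((T - σ) z) > v'(z) > 6 v'(z)`; `v'(z) > 0` would give `v'(C(z)) = 0`, but `v'((T - σ) z) > 0`. So `v'(z) = 0` and `2 v'(C(z)) = v'(T - σ) = v(T + σ)`. Let
`y = γ⁻¹ (C(z)) ≠ 0`: if `σ T = T` and `σ (x l) = x (swap i j l)` for all `l` then `σ (C(z)) = C(z)`, and `σ y = γ⁻¹ (σ (C(z))) = y` (`γ⁻¹` commutes
with `σ`). By `Sta` `v(T + σ) ∣ v(y) = v'(C(z)) = v(T + σ) / 2 > 0`, a contradiction. -/
def S_Cen : Prop :=
  ∀ (p : ℕ) [Fact p.Prime] (q : Par) (L : Type) [Field L] [Algebra (ZMod p) L] (T : L)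
    (x : Fin 6 → L), Ok q L → Six p q T x → Sta q T x → ∀ γ : L ≃+* L, γ T = -T →
    ∃ σ : L ≃+* L, σ T = T ∧ ∃ z : L, γ (σ z) ≠ σ (γ z)

/-- **AuG** (300 lines; `Lib/MP_7f581e_ntX/Aut.lean`, `MP7fX.AutAux.aut_cases`). The automorphism group of `A_6`.

Proof. `G` has index two in `Γ`, so it is normal. `A = φ⁻¹(A_6)` is normal in `Γ` (it is the unique subgroup of index two of `G ≃ S_6`, or its commutator
subgroup). `Ψ : Γ → MulAut A_6`, conjugation, transported by `φ`. Injective: let `c` centralize `A`. For `g ∈ G` the element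
`c g c⁻¹ g⁻¹ ∈ G` centralizes `A` (for `a ∈ A`: `g⁻¹ a g ∈ A`, so `c g c⁻¹ g⁻¹ a g c g⁻¹ c⁻¹ = c g c⁻¹ (g⁻¹ a g) c g⁻¹ c⁻¹ = c a c⁻¹ = a`), and the centralizer
of `A_6` in `S_6` is trivial, so `c` centralizes `G`. So `c ∈ G` (last hypothesis) and `c = 1`. Surjective: `Ψ(g)` for
`g ∈ G` is the conjugation by `φ g`. Let `α ∈ MulAut A_6`. By `aut_cases` `α` is the conjugation by a permutation (then it is in the range), or
`theta ∘ α` is the conjugation by `σ₁`. In the second case consider `Ψ(γ)`: if it is the conjugation by `σ ∈ S_6` then `φ⁻¹(σ)⁻¹ γ` centralizes `A`, so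
it is `1`, `γ ∈ G`, a contradiction. So `theta ∘ Ψ(γ)` is the conjugation by some `σ₂`, and
`α = Ψ(γ) ∘ (conjugation by σ₂⁻¹ σ₁)`. `Θ` is the inverse of `Ψ`; `Ψ(φ⁻¹(s)) = MulAut.conj s`. -/
def S_AuG : Prop :=
  ∀ (Γ : Type) [Group Γ] (G : Subgroup Γ) (φ : G ≃* Perm (Fin 6)) (γ : Γ), γ ∉ G →
    (∀ x : Γ, x ∈ G ∨ γ⁻¹ * x ∈ G) → (∀ c : Γ, c ∉ G → ∃ g ∈ G, c * g ≠ g * c) →
    ∃ Θ : MulAut (alternatingGroup (Fin 6)) ≃* Γ, ∀ s : alternatingGroup (Fin 6),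
      Θ (MulAut.conj s) = φ.symm (s : Perm (Fin 6))

/-- **Gls** (120 lines, uses `S_Der`). The group over `𝔽_p(T)`.

Proof. `σ` with `σ T = T` permutes the roots of `N_T`; it is determined by the permutation (`gen`), and all the permutations
occur (`full`). -/
def S_Gls : Prop :=
  ∀ (p : ℕ) [Fact p.Prime] (q : Par) (L : Type) [Field L] [Algebra (ZMod p) L] (T : L)
    (x : Fin 6 → L), Ok q L → Six p q T x →
    ∃ φ : MulAction.stabilizer (L ≃+* L) T ≃* Perm (Fin 6),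
      ∀ (σ : MulAction.stabilizer (L ≃+* L) T) (i : Fin 6), (σ : L ≃+* L) (x i) = x (φ σ i)

/-- **Fna** (200 lines, uses `S_Fxe`, `S_Cen`, `S_AuG`, `S_Gls`). The GA realization.

Proof. `Γ = {σ : L ≃+* L | σ T = T or σ T = - T}`, `G = {σ T = T}`. `γ ∉ G` (`T ≠ - T`); `x ∉ G` implies `γ⁻¹ x ∈ G`. Let `c ∉ G`: `c T = - T`, by `S_Cen` (for `c`) it does
not centralize `G`. `φ` by `S_Gls`, `Θ` by `S_AuG`, `a : MulAut A_6 → Γ → Aut L`. `A_6` is finite, simple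
(`alternatingGroup.isSimpleGroup`), not commutative. `L` is an algebra over `RatFunc (ZMod p)` by `j` of `S_Fxe`. `y` is fixed by all
`a (conj s) = φ⁻¹(s)` if and only if it is in the range of `j`. -/
def S_Fna : Prop :=
  ∀ (p : ℕ) [Fact p.Prime] (q : Par) (L : Type) [Field L] [Algebra (ZMod p) L] (T : L)
    (x : Fin 6 → L), Ok q L → Six p q T x → Sta q T x → (∃ γ : L ≃+* L, γ T = -T) →
    MP7K.HasGA p (alternatingGroup (Fin 6))

/-- **Okp** (250 lines). The parameters satisfy the conditions.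

Proof. `p = 5`: `(e, g, h, σ, ξ, r, a, b, m, n, k) = (0, 1, 1, 3, 1, 0, 1, 1, 0, 1, 1)`, `5 = 0` in `E`. `p ≥ 7`: `2, 3, 5` are invertible in `E`; the
numbers are `15, 75, -10, 2916 = 2 ^ 2 3 ^ 6, -2, 1, 40, 5, -5, -15, 3`, and `m ^ 2 + n k = -20`. `ff`: `R(z) = 5 (z ^ 2 + 7 z + 1)`,
`C(z) ^ 2 + 2916 z = (z ^ 2 + 7 z + 1) ^ 2 (z ^ 2 + 16 z + 100)`. `gm`: `p ≥ 7`: `G(y) = P(y) / (y ^ 2 - 5) ^ 5` with
`P(y) = 2166 y ^ 10 + 20900 y ^ 9 - 106650 y ^ 8 - 1674000 y ^ 7 - 3280500 y ^ 6 + 23895000 y ^ 5 + 153697500 y ^ 4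
+ 400950000 y ^ 3 + 560418750 y ^ 2 + 410062500 y + 123018750`, `μ(y) = -5 (y + 3) / (3 y + 5)`,
`μ(y) ^ 2 - 5 = -20 (y ^ 2 - 5) / (3 y + 5) ^ 2`, and `P(-5 (y + 3) / (3 y + 5)) (3 y + 5) ^ 10 = 20 ^ 5 P(y)` (check the sign: `G(μ(y)) = - G(y)`).
`p = 5`: `G(y) = P(y) / (1 - y ^ 2) ^ 5`, `P(y) = 3 + y + y ^ 2 + y ^ 3 + 4 y ^ 4 + y ^ 5 + 4 y ^ 6 + y ^ 7 + y ^ 8 + y ^ 9 + 3 y ^ 10`, `μ(y) = 1 / y`. -/
def S_Okp : Prop :=
  ∀ (p : ℕ) [Fact p.Prime], 5 ≤ p → ∀ (E : Type) [Field E] [CharP E p], Ok (par p) E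

/-- **FinA** (30 lines, uses `S_Omb`, `S_Lsx`, `S_Fna`, `S_Okp`). THE THEOREM. -/
def S_FinA : Prop :=
  ∀ (p : ℕ) [Fact p.Prime], 5 ≤ p → MP7K.HasGA p (alternatingGroup (Fin 6))

end MP7A
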